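import Pool.Statements.S00348
import Pool.Agent.K4H35.PolyNet.Filling
-- import your own Pool.Agent.* helpers here

set_option autoImplicit false
open Pool Pool.MP_a30cf1_ag

namespace Pool.Agent.S00348

/-- The negation of the preceding statement: For L ≥ 1 and r ≥ 2, any coordinatewise-minimal positive width vector (with d_0, d_L fixed) whose depth-L polynomial network with x^r activation has Zariski-dense output set in the ambient space is unimodal. -/
theorem result :
    ¬ (∀ (L r : ℕ), 1 ≤ L → 2 ≤ r →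
  ∀ Filling : (Fin (L+1) → ℕ) → Prop,
  (∀ e : Fin (L+1) → ℕ, Filling e ↔
    ∀ P : MvPolynomial (ℕ × (ℕ →₀ ℕ)) ℂ,
      (∀ W : Fin L → ℕ → ℕ → ℂ,
        MvPolynomial.eval (fun p : ℕ × (ℕ →₀ ℕ) => MvPolynomial.coeff p.2
          ((List.finRange L).foldl
            (fun (h : ℕ → MvPolynomial ℕ ℂ) (k : Fin L) (a : ℕ) =>
              ∑ b ∈ Finset.range (e k.castSucc),
                MvPolynomial.C (W k a b) * h b ^ (if (k : ℕ) = 0 then 1 else r))
            (fun b : ℕ => (MvPolynomial.X b : MvPolynomial ℕ ℂ)) p.1)) P = 0) →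
      ∀ c : ℕ × (ℕ →₀ ℕ) → ℂ,
        (∀ p : ℕ × (ℕ →₀ ℕ), c p ≠ 0 →
          p.1 < e (Fin.last L) ∧ (∑ b ∈ p.2.support, p.2 b) = r ^ (L - 1) ∧
            ∀ b ∈ p.2.support, b < e 0) →
        MvPolynomial.eval c P = 0) →
  ∀ d : Fin (L+1) → ℕ, (∀ i, 1 ≤ d i) → Filling d →
  (∀ d' : Fin (L+1) → ℕ, (∀ i, 1 ≤ d' i) → d' 0 = d 0 →
      d' (Fin.last L) = d (Fin.last L) → d' ≤ d → Filling d' → d' = d) →
  ∃ i : Fin (L+1), (∀ j k : Fin (L+1), j ≤ k → k ≤ i → d j ≤ d k) ∧
    (∀ j k : Fin (L+1), i ≤ j → j ≤ k → d k ≤ d j)) := by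
  intro H
  obtain ⟨i, h1, h2⟩ := H 4 6 (by norm_num) (by norm_num) Pool.Agent.K4H35.PolyNet.Fill
    (fun e => Iff.rfl) ![2, 6, 5, 38, 1] (by decide) Pool.Agent.K4H35.PolyNet.fill
    (by
      intro d' h1 h0 h4 hle hF
      by_contra hne
      have e0 : d' 0 = 2 := h0
      have e4 : d' (Fin.last 4) = 1 := h4
      have l1 : d' 1 ≤ 6 := hle 1
      have l2 : d' 2 ≤ 5 := hle 2
      have l3 : d' 3 ≤ 38 := hle 3
      have g1 : 1 ≤ d' 1 := h1 1
      have g2 : 1 ≤ d' 2 := h1 2
      have g3 : 1 ≤ d' 3 := h1 3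
      refine Pool.Agent.K4H35.PolyNet.nonfill d' e0 e4 ?_ hF
      have hcase : d' 1 ≤ 5 ∨ d' 2 ≤ 4 ∨ d' 3 ≤ 37 := by
        by_contra hc
        push Not at hc
        apply hne
        funext i
        fin_cases i
        · exact h0
        · change d' 1 = 6; omega
        · change d' 2 = 5; omega
        · change d' 3 = 38; omega
        · exact h4
      generalize d' 1 = a at *
      generalize d' 2 = b at *
      generalize d' 3 = c at *
      rcases hcase with h | h | h
      · calc a + b * (a - 1) + c * (b - 1) + c ≤ 5 + 5 * 4 + 38 * 4 + 38 := by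
              gcongr <;> omega
          _ < 217 := by norm_num
      · calc a + b * (a - 1) + c * (b - 1) + c ≤ 6 + 4 * 5 + 38 * 3 + 38 := by
              gcongr <;> omega
          _ < 217 := by norm_num
      · calc a + b * (a - 1) + c * (b - 1) + c ≤ 6 + 5 * 5 + 37 * 4 + 37 := by
              gcongr <;> omega
          _ < 217 := by norm_num)
  by_cases hi : i ≤ 2
  · have := h2 2 3 hi (by decide)
    exact absurd this (by decide)
  · have := h1 1 2 (by decide) (le_of_lt (not_le.1 hi))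
    exact absurd this (by decide)

end Pool.Agent.S00348
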