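import Pool.Statements.S00566
import Pool.Agent.Results.MP_fa7d23_ag.NefNotB

set_option autoImplicit false
open Pool Pool.MP_fa7d23_ag

namespace Pool.Agent.S00566

open MvPolynomial
open Pool.Agent.Results.MP_fa7d23_ag.NefNotB (H0 h0 h1 chi inter canon pa Effective Nef CondB cfg pt P12 Q4
  pointIdeal Cls)

/-- `4H - E₁ - ⋯ - E₁₅` meets every irreducible curve non-negatively. -/
lemma nef_aux {k : Type} [Field k] {t : Fin 12 → k} {u : Fin 3 → k}
    (hinj : Function.Injective (Fin.append t u : Fin (12 + 3) → k))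
    (n : ℕ) (F : MvPolynomial (Fin 3) k) (c : Fin 15 → ℕ) (hF : F.IsHomogeneous n)
    (hirr : Irreducible F)
    (hc : ∀ i, F ∈ pointIdeal (cfg t u i) ^ c i) : ∑ i, 1 * c i ≤ 4 * n := by
  have hF0 : F ≠ 0 := hirr.ne_zero
  simp only [one_mul]
  by_cases hd : Q4 ∣ F
  · have hassoc : Associated (Q4 : MvPolynomial (Fin 3) k) F :=
      Pool.Agent.Results.MP_fa7d23_ag.NefNotB.Q4_prime.irreducible.associated_of_dvd hirr hd
    obtain ⟨v, hv⟩ := hassoc
    have hvu := v.isUnit
    rw [MvPolynomial.isUnit_iff_totalDegree_of_isReduced] at hvu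
    have hvC : (v : MvPolynomial (Fin 3) k) = C (coeff 0 (v : MvPolynomial (Fin 3) k)) :=
      totalDegree_eq_zero_iff_eq_C.1 hvu.2
    have ha : coeff 0 (v : MvPolynomial (Fin 3) k) ≠ 0 := hvu.1.ne_zero
    have hFe : F = C (coeff 0 (v : MvPolynomial (Fin 3) k)) * Q4 := by
      rw [← hv, mul_comm, ← hvC]
    have hn : n = 4 := by
      have h2 : F.IsHomogeneous 4 := by
        rw [hFe]; exact Pool.Agent.Results.MP_fa7d23_ag.NefNotB.Q4_hom.C_mul _
      exact hF.inj_right h2 hF0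
    have hc1 : ∀ i, c i ≤ 1 := by
      intro i
      have := hc i
      rw [hFe] at this
      exact Pool.Agent.Results.MP_fa7d23_ag.NefNotB.le_one_of_mem ha this
    have : ∑ i, c i ≤ ∑ _i : Fin 15, 1 := Finset.sum_le_sum fun i _ => hc1 i
    simp at this
    omega
  · have hp0 : Pool.Agent.Results.MP_fa7d23_ag.NefNotB.par F ≠ 0 := fun h => hd
      (Pool.Agent.Results.MP_fa7d23_ag.NefNotB.Q4_dvd_of_par hF h)
    have hdvd : (∏ i, (Polynomial.X -
        Polynomial.C ((Fin.append t u : Fin (12 + 3) → k) i)) ^ (c i)) ∣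
        Pool.Agent.Results.MP_fa7d23_ag.NefNotB.par F := by
      apply Finset.prod_dvd_of_coprime
      · intro i _ j _ hij
        exact (Polynomial.pairwise_coprime_X_sub_C hinj hij).pow
      · intro i _
        exact Pool.Agent.Results.MP_fa7d23_ag.NefNotB.par_mem _ (hc i)
    have h1 := Polynomial.natDegree_le_of_dvd hdvd hp0
    have h2 : (∏ i, (Polynomial.X -
        Polynomial.C ((Fin.append t u : Fin (12 + 3) → k) i)) ^ (c i)).natDegree = ∑ i, c i := by
      rw [Polynomial.natDegree_prod_of_monic]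
      · apply Finset.sum_congr rfl
        intro i _
        rw [Polynomial.natDegree_pow, Polynomial.natDegree_X_sub_C, mul_one]
      · intro i _
        exact (Polynomial.monic_X_sub_C _).pow _
    have h3 := Pool.Agent.Results.MP_fa7d23_ag.NefNotB.par_deg hF
    rw [h2] at h1
    exact h1.trans h3


/-- The negation of the preceding statement: For any r≥1 distinct points of the plane over an algebraically closed field and any effective nef L on the blow-up failing (B), some multiple mL has h^0(mL) equal to its Riemann–Roch value, i.e. h^1(mL)=0. -/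
theorem result :
    ¬ (∀ (k : Type) [Field k] [IsAlgClosed k] (r : ℕ), 1 ≤ r →
  ∀ (p : Fin r → Fin 3 → k),
    (∀ i, p i ≠ 0) →
    (∀ i j, i ≠ j → ∀ c : k, p i ≠ c • p j) →
  ∀ (d : ℕ) (a : Fin r → ℕ),
    (∃ f : MvPolynomial (Fin 3) k, f ≠ 0 ∧ f.IsHomogeneous d ∧
        ∀ i, f ∈ (Ideal.span (Set.range fun ab : Fin 3 × Fin 3 =>
            MvPolynomial.C (p i ab.1) * MvPolynomial.X ab.2
              - MvPolynomial.C (p i ab.2) * MvPolynomial.X ab.1) :
              Ideal (MvPolynomial (Fin 3) k)) ^ a i) →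
    (∀ (e : ℕ) (g : MvPolynomial (Fin 3) k), g.IsHomogeneous e → Irreducible g →
        ∀ μ : Fin r → ℕ,
          (∀ i, g ∈ (Ideal.span (Set.range fun ab : Fin 3 × Fin 3 =>
            MvPolynomial.C (p i ab.1) * MvPolynomial.X ab.2
              - MvPolynomial.C (p i ab.2) * MvPolynomial.X ab.1) :
              Ideal (MvPolynomial (Fin 3) k)) ^ μ i) →
          ∑ i, a i * μ i ≤ d * e) →
    (¬ ∃ (e : ℕ) (γ : Fin r → ℤ), (e ≠ 0 ∨ γ ≠ 0) ∧
        (∃ f : MvPolynomial (Fin 3) k, f ≠ 0 ∧ f.IsHomogeneous e ∧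
          ∀ i, f ∈ (Ideal.span (Set.range fun ab : Fin 3 × Fin 3 =>
            MvPolynomial.C (p i ab.1) * MvPolynomial.X ab.2
              - MvPolynomial.C (p i ab.2) * MvPolynomial.X ab.1) :
              Ideal (MvPolynomial (Fin 3) k)) ^ (γ i).toNat) ∧
        e ≤ d ∧
        (∃ f : MvPolynomial (Fin 3) k, f ≠ 0 ∧ f.IsHomogeneous (d - e) ∧
          ∀ i, f ∈ (Ideal.span (Set.range fun ab : Fin 3 × Fin 3 =>
            MvPolynomial.C (p i ab.1) * MvPolynomial.X ab.2
              - MvPolynomial.C (p i ab.2) * MvPolynomial.X ab.1) :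
              Ideal (MvPolynomial (Fin 3) k)) ^ ((a i : ℤ) - γ i).toNat) ∧
        (e : ℤ) ^ 2 - ∑ i, (γ i) ^ 2 - 3 * (e : ℤ) + ∑ i, γ i > -2 ∧
        (d : ℤ) * (e : ℤ) - ∑ i, (a i : ℤ) * γ i = 0) →
    ∃ m : ℕ, 1 ≤ m ∧
      2 * (Module.finrank k
        ↥(MvPolynomial.homogeneousSubmodule (Fin 3) k (m * d) ⊓
          ⨅ i, Submodule.restrictScalars k
            ((Ideal.span (Set.range fun ab : Fin 3 × Fin 3 =>
              MvPolynomial.C (p i ab.1) * MvPolynomial.X ab.2
                - MvPolynomial.C (p i ab.2) * MvPolynomial.X ab.1) :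
                Ideal (MvPolynomial (Fin 3) k)) ^ (m * a i))) : ℤ)
        = 2 + ((m * d : ℕ) : ℤ) ^ 2 - ∑ i, ((m * a i : ℕ) : ℤ) ^ 2
            + 3 * ((m * d : ℕ) : ℤ) - ∑ i, ((m * a i : ℕ) : ℤ)) := by
  intro H
  obtain ⟨b, t, u, hP, hinj, hu⟩ :=
    Pool.Agent.Results.MP_fa7d23_ag.NefNotB.exists_config ℂ
  have hdist := Pool.Agent.Results.MP_fa7d23_ag.NefNotB.cfg_distinct hinj
  have hnotB := Pool.Agent.Results.MP_fa7d23_ag.NefNotB.cfg_notB hP hinj hu
  obtain ⟨m, hm, hfin⟩ := H ℂ 15 (by norm_num) (cfg t u) hdist.1 hdist.2 4 (fun _ => 1)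
    ⟨Q4, Pool.Agent.Results.MP_fa7d23_ag.NefNotB.Q4_ne_zero,
      Pool.Agent.Results.MP_fa7d23_ag.NefNotB.Q4_hom, fun i => by
        have := Pool.Agent.Results.MP_fa7d23_ag.NefNotB.Q4_mem
          ((Fin.append t u : Fin (12 + 3) → ℂ) i)
        rw [pow_one]
        exact this⟩
    (fun e g hg hirr μ hμ => nef_aux hinj e g μ hg hirr hμ)
    (by
      rintro ⟨e, γ, hne, ⟨f, hf0, hfh, hfm⟩, hed, ⟨f', hf0', hfh', hfm'⟩, hpa, hint⟩
      apply hnotB
      refine ⟨((e : ℤ), γ), ?_, ?_, ?_, ?_, ?_⟩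
      · intro h
        rcases hne with h1 | h1
        · exact h1 (by simpa using congrArg Prod.fst h)
        · exact h1 (congrArg Prod.snd h)
      · intro h
        have : f ∈ H0 (cfg t u) ((e : ℤ), γ) := by
          rw [Pool.Agent.Results.MP_fa7d23_ag.NefNotB.mem_H0 _ _ _ hf0]
          exact ⟨by positivity, by simpa using hfh, hfm⟩
        rw [h, Submodule.mem_bot] at this
        exact hf0 this
      · intro h
        have : f' ∈ H0 (cfg t u) ((4, fun _ => 1) - ((e : ℤ), γ)) := by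
          rw [Pool.Agent.Results.MP_fa7d23_ag.NefNotB.mem_H0 _ _ _ hf0']
          refine ⟨?_, ?_, ?_⟩
          · show (0 : ℤ) ≤ 4 - (e : ℤ)
            omega
          · have h4 : ((4 : ℤ) - (e : ℤ)).toNat = 4 - e := by omega
            show f'.IsHomogeneous ((4 : ℤ) - (e : ℤ)).toNat
            rw [h4]; exact hfh'
          · intro i
            exact hfm' i
        rw [h, Submodule.mem_bot] at this
        exact hf0' this
      · unfold pa
        have h1 : inter (((e : ℤ), γ) : Cls 15) ((e : ℤ), γ) +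
            inter (canon 15) ((e : ℤ), γ) =
            (e : ℤ) ^ 2 - ∑ i, (γ i) ^ 2 - 3 * (e : ℤ) + ∑ i, γ i := by
          simp only [inter, canon, neg_mul, one_mul, Finset.sum_neg_distrib]
          have : ∑ i, γ i * γ i = ∑ i, γ i ^ 2 := Finset.sum_congr rfl fun i _ => by ring
          rw [this]
          ring
        have hpar : (2 : ℤ) ∣ (e : ℤ) ^ 2 - ∑ i, (γ i) ^ 2 - 3 * (e : ℤ) + ∑ i, γ i := by
          have e1 : (e : ℤ) ^ 2 - ∑ i, (γ i) ^ 2 - 3 * (e : ℤ) + ∑ i, γ i =
              (e : ℤ) * ((e : ℤ) + 1) - 2 * (2 * (e : ℤ)) - ∑ i, (γ i - 1) * γ i := by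
            have : ∑ i, (γ i - 1) * γ i = ∑ i, γ i ^ 2 - ∑ i, γ i := by
              rw [← Finset.sum_sub_distrib]
              exact Finset.sum_congr rfl fun i _ => by ring
            rw [this]; ring
          rw [e1]
          apply dvd_sub
          · apply dvd_sub
            · exact (Int.even_mul_succ_self _).two_dvd
            · exact dvd_mul_right _ _
          · apply Finset.dvd_sum
            intro i _
            have := (Int.even_mul_succ_self (γ i - 1)).two_dvd
            rwa [sub_add_cancel] at this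
        rw [h1]
        omega
      · show (4 : ℤ) * (e : ℤ) - ∑ i, 1 * γ i = 0
        simpa using hint)
  obtain ⟨n, rfl⟩ : ∃ n, m = n + 1 := ⟨m - 1, by omega⟩
  have hpos := Pool.Agent.Results.MP_fa7d23_ag.NefNotB.cfg_h1 (u := u) hP n
  rw [Pool.Agent.Results.MP_fa7d23_ag.NefNotB.h1_eq_superabundance,
    Pool.Agent.Results.MP_fa7d23_ag.NefNotB.H0_coe] at hpos
  have e2 : (n + 1) * 4 = 4 * (n + 1) := by ring
  rw [e2, mul_one] at hfin
  have k1 := Pool.Agent.Results.MP_fa7d23_ag.NefNotB.key_choose (4 * (n + 1) + 1)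
  have k2 := Pool.Agent.Results.MP_fa7d23_ag.NefNotB.key_choose (n + 1)
  simp only [Finset.sum_const, Finset.card_univ, Fintype.card_fin, nsmul_eq_mul] at hpos hfin
  change 2 * ((Module.finrank ℂ ↥(homogeneousSubmodule (Fin 3) ℂ (4 * (n + 1)) ⊓
    ⨅ i, ((pointIdeal (cfg t u i)) ^ (n + 1)).restrictScalars ℂ) : ℕ) : ℤ) = _ at hfin
  generalize ((Module.finrank ℂ ↥(homogeneousSubmodule (Fin 3) ℂ (4 * (n + 1)) ⊓
    ⨅ i, ((pointIdeal (cfg t u i)) ^ (n + 1)).restrictScalars ℂ) : ℕ) : ℤ) = A at *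
  push_cast at hpos hfin k1 k2
  nlinarith

end Pool.Agent.S00566
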