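import Pool.Statements.S01640
import Pool.Agent.K4H22.T.Surj

set_option autoImplicit false
open Pool Pool.MP_5f0000_al

namespace Pool.Agent.S01640

open Pool.Agent.K4H22.T in
/-- The negation of the preceding statement: Every group with Kazhdan's property (T) has only finitely many normal subgroups whose quotient is a finite simple group with a split BN-pair of rank 1, i.e. a finite simple group of Lie type of rank 1. -/
theorem result :
    ¬ (∀ (G : Type) [Group G],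
      (∀ (H : Type) [NormedAddCommGroup H] [InnerProductSpace ℂ H] [CompleteSpace H]
          (ρ : G →* unitary (H →L[ℂ] H)),
          (∀ (S : Finset G) (ε : ℝ), 0 < ε →
              ∃ v : H, ‖v‖ = 1 ∧ ∀ s ∈ S, ‖(ρ s : H →L[ℂ] H) v - v‖ < ε) →
          ∃ v : H, v ≠ 0 ∧ ∀ g : G, (ρ g : H →L[ℂ] H) v = v) →
      Set.Finite {N : Subgroup G | ∃ (Q : Type) (_ : Group Q), ∃ f : G →* Q,
          Function.Surjective f ∧ f.ker = N ∧ Finite Q ∧ IsSimpleGroup Q ∧
          ∃ (X : Type) (φ : Q →* Equiv.Perm X), Finite X ∧ 3 ≤ Nat.card X ∧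
            (∀ a b c d : X, a ≠ b → c ≠ d → ∃ g : Q, φ g a = c ∧ φ g b = d) ∧
            ∃ (x : X) (U : Subgroup Q),
              (∀ u ∈ U, φ u x = x) ∧
              (∀ u ∈ U, ∀ h : Q, φ h x = x → h * u * h⁻¹ ∈ U) ∧
              ∀ y z : X, y ≠ x → z ≠ x → ∃! u : Q, u ∈ U ∧ φ u y = z}) := by
  intro hall
  have hfin := hall GG (fun H _ _ _ ρ h => propT ρ h)
  -- the kernels
  set N : ℕ → Subgroup GG := fun n => ((toQ (F n)).comp (ff n)).ker with hN
  have hsurj : ∀ n, Function.Surjective ((toQ (F n)).comp (ff n)) := fun n =>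
    (toQ_surj).comp (ff_surj n)
  have hindex : ∀ n, (N n).index = Nat.card (QQ (F n)) := by
    intro n
    rw [hN]
    change ((toQ (F n)).comp (ff n)).ker.index = _
    rw [Subgroup.index_ker, MonoidHom.range_eq_top.2 (hsurj n), Subgroup.card_top]
  have hmem : ∀ n, N n ∈ {N : Subgroup GG | ∃ (Q : Type) (_ : Group Q), ∃ f : GG →* Q,
          Function.Surjective f ∧ f.ker = N ∧ Finite Q ∧ IsSimpleGroup Q ∧
          ∃ (X : Type) (φ : Q →* Equiv.Perm X), Finite X ∧ 3 ≤ Nat.card X ∧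
            (∀ a b c d : X, a ≠ b → c ≠ d → ∃ g : Q, φ g a = c ∧ φ g b = d) ∧
            ∃ (x : X) (U : Subgroup Q),
              (∀ u ∈ U, φ u x = x) ∧
              (∀ u ∈ U, ∀ h : Q, φ h x = x → h * u * h⁻¹ ∈ U) ∧
              ∀ y z : X, y ≠ x → z ≠ x → ∃! u : Q, u ∈ U ∧ φ u y = z} := by
    intro n
    refine ⟨QQ (F n), inferInstance, (toQ (F n)).comp (ff n), hsurj n, rfl, inferInstance,
      QQ_simple (fun c hc => norm_surj c hc) (two_ne n) (three_ne n),
      XX (F n), (QQ (F n)).subtype, inferInstance, three_le n, ?_, inf (F n),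
      (UU (F n)).map (toQ (F n)), ?_, ?_, ?_⟩
    · intro a b c d hab hcd
      obtain ⟨g, hg1, hg2⟩ := two_trans a b c d hab hcd
      exact ⟨toQ (F n) g, hg1, hg2⟩
    · rintro _ ⟨u, hu, rfl⟩
      exact UU_inf u hu
    · rintro _ ⟨u, hu, rfl⟩ h hh
      obtain ⟨g, rfl⟩ := toQ_surj h
      exact ⟨g * u * g⁻¹, UU_normal g hh u hu, by rw [map_mul, map_mul, map_inv]⟩
    · intro y z hy hz
      obtain ⟨⟨u, hu, huy⟩, huniq⟩ := regular y z hy hz
      refine ⟨toQ (F n) u, ⟨⟨u, hu, rfl⟩, huy⟩, ?_⟩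
      rintro _ ⟨⟨u', hu', rfl⟩, hu'y⟩
      rw [huniq u hu u' hu' huy hu'y]
  have hb : BddAbove ((fun M : Subgroup GG => M.index) '' {N : Subgroup GG |
        ∃ (Q : Type) (_ : Group Q), ∃ f : GG →* Q,
          Function.Surjective f ∧ f.ker = N ∧ Finite Q ∧ IsSimpleGroup Q ∧
          ∃ (X : Type) (φ : Q →* Equiv.Perm X), Finite X ∧ 3 ≤ Nat.card X ∧
            (∀ a b c d : X, a ≠ b → c ≠ d → ∃ g : Q, φ g a = c ∧ φ g b = d) ∧
            ∃ (x : X) (U : Subgroup Q),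
              (∀ u ∈ U, φ u x = x) ∧
              (∀ u ∈ U, ∀ h : Q, φ h x = x → h * u * h⁻¹ ∈ U) ∧
              ∀ y z : X, y ≠ x → z ≠ x → ∃! u : Q, u ∈ U ∧ φ u y = z}) :=
    (hfin.image _).bddAbove
  obtain ⟨B, hB⟩ := hb
  have h1 : (N B).index ≤ B := hB ⟨N B, hmem B, rfl⟩
  rw [hindex] at h1
  exact absurd (card_QQ B) (not_lt.2 h1)

end Pool.Agent.S01640
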