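import Pool.Statements.S03595
-- import your own Pool.Agent.* helpers here
import Pool.Agent.K4H33.TIG.Fin

set_option autoImplicit false
open Pool Pool.MP_f8d790_al

namespace Pool.Agent.S03595

/-- An infinite compact Hausdorff group G has every choice of conjugates of its elements topologically generating G if and only if G has a closed, connected, abelian normal subgroup with totally disconnected (profinite) quotient. -/
theorem result :
    ∀ (G : Type) [Group G] [TopologicalSpace G] [IsTopologicalGroup G] [CompactSpace G]
      [T2Space G] [Infinite G],
      (∀ f : G → G,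
          (Subgroup.closure (Set.range (fun x : G => f x * x * (f x)⁻¹))).topologicalClosure = ⊤) ↔
        ∃ N : Subgroup G, N.Normal ∧ IsClosed (N : Set G) ∧ IsConnected (N : Set G) ∧
          (∀ a ∈ N, ∀ b ∈ N, a * b = b * a) ∧ TotallyDisconnectedSpace (G ⧸ N) := by
  intro G _ _ _ _ _ _
  constructor
  · intro h
    have h' : ∀ K : Subgroup G, IsClosed (K : Set G) →
        (∀ x : G, ∃ y : G, y * x * y⁻¹ ∈ K) → K = ⊤ := by
      intro K hK hm
      choose f hf using hm
      have h1 := h f
      rw [eq_top_iff, ← h1]
      refine Subgroup.topologicalClosure_minimal _ ?_ hK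
      rw [Subgroup.closure_le]
      rintro _ ⟨x, rfl⟩
      exact hf x
    have hcc : (Subgroup.connectedComponentOfOne G).Normal := by
      constructor
      intro n hn g
      have hc : Continuous (fun x : G => g * x * g⁻¹) :=
        (continuous_const_mul g).mul continuous_const
      have h1 := hc.image_connectedComponent_subset (1 : G) ⟨n, hn, rfl⟩
      simp only [mul_one, mul_inv_cancel] at h1
      exact h1
    exact ⟨Subgroup.connectedComponentOfOne G, hcc, isClosed_connectedComponent,
      isConnected_connectedComponent, Pool.Agent.K4H33.TIG.hard_direction h',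
      Pool.Agent.K4H33.TIG.totallyDisconnected_quotient G⟩
  · rintro ⟨N, hN, hcl, -, hab, htd⟩ f
    refine Pool.Agent.K4H33.TIG.easy_direction N hab htd hcl _
      (Subgroup.isClosed_topologicalClosure _) ?_
    intro x
    exact ⟨f x, Subgroup.le_topologicalClosure _ (Subgroup.subset_closure ⟨x, rfl⟩)⟩

end Pool.Agent.S03595
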