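import Pool.Statements.S04135
import Pool.Agent.K4H45.RB

set_option autoImplicit false
open MeasureTheory
open Pool Pool.MP_28e115_an

namespace Pool.Agent.S04135

/-- Radial projection to the sphere (with the value `p` at the origin). -/
noncomputable def prj {n : ℕ} (p : EuclideanSpace ℂ (Fin n)) (x : Fin n → ℂ) :
    EuclideanSpace ℂ (Fin n) :=
  if x = 0 then p else ((‖WithLp.toLp 2 x‖⁻¹ : ℝ) : ℂ) • WithLp.toLp 2 x

lemma norm_prj {n : ℕ} {p : EuclideanSpace ℂ (Fin n)} (hp : ‖p‖ = 1) (x : Fin n → ℂ) :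
    ‖prj p x‖ = 1 := by
  unfold prj
  split_ifs with h
  · exact hp
  · have h0 : WithLp.toLp 2 x ≠ 0 := by
      intro h1
      apply h
      have := congrArg WithLp.ofLp h1
      simpa using this
    have h1 : ‖WithLp.toLp 2 x‖ ≠ 0 := norm_ne_zero_iff.mpr h0
    rw [norm_smul, Complex.norm_real, norm_inv, norm_norm, inv_mul_cancel₀ h1]

lemma measurable_prj {n : ℕ} (p : EuclideanSpace ℂ (Fin n)) : Measurable (prj p) := by
  unfold prj
  apply Measurable.ite (measurableSet_singleton 0) measurable_const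
  have h1 : Continuous (fun x : Fin n → ℂ => (WithLp.toLp 2 x : EuclideanSpace ℂ (Fin n))) :=
    PiLp.continuous_toLp 2 _
  have h2 : Measurable (fun x : Fin n → ℂ => ((‖(WithLp.toLp 2 x : EuclideanSpace ℂ (Fin n))‖⁻¹ : ℝ) : ℂ)) :=
    Complex.measurable_ofReal.comp (h1.norm.measurable.inv)
  exact h2.smul h1.measurable

/-- For every n ≥ 2 there is a bounded holomorphic function on the unit ball of ℂⁿ whose restriction to almost every radius r ↦ f(rζ), 0 ≤ r < 1, has infinite total variation, i.e. a nonrectifiable image. -/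
theorem result :
    ∀ n : ℕ, 2 ≤ n →
      ∃ f : (Fin n → ℂ) → ℂ,
        DifferentiableOn ℂ f {z : Fin n → ℂ | ∑ i, ‖z i‖ ^ 2 < 1} ∧
        (∃ M : ℝ, ∀ z ∈ {z : Fin n → ℂ | ∑ i, ‖z i‖ ^ 2 < 1}, ‖f z‖ ≤ M) ∧
        ∀ᵐ x ∂(volume : Measure (Fin n → ℂ)),
          eVariationOn
            (fun r : ℝ => f ((((r / Real.sqrt (∑ i, ‖x i‖ ^ 2) : ℝ)) : ℂ) • x))
            (Set.Ico (0 : ℝ) 1) = ⊤ := by
  intro n hn
  have i0 : Fin n := ⟨0, by omega⟩
  set p : EuclideanSpace ℂ (Fin n) := EuclideanSpace.single i0 1 with hpdef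
  have hp : ‖p‖ = 1 := by simp [hpdef]
  set g : (Fin n → ℂ) → Metric.sphere (0 : EuclideanSpace ℂ (Fin n)) 1 :=
    fun x => ⟨prj p x, by rw [mem_sphere_zero_iff_norm]; exact norm_prj hp x⟩ with hg
  have hgm : Measurable g := (measurable_prj p).subtype_mk
  set μ : Measure (Metric.sphere (0 : EuclideanSpace ℂ (Fin n)) 1) :=
    ((volume : Measure (Fin n → ℂ)).toFinite).map g with hμ
  obtain ⟨F, hFd, hFb, hFae⟩ := Pool.Agent.K4H45.RB.main_incr (n := n) (by omega) μ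
  have hball : ∀ z : Fin n → ℂ, (∑ i, ‖z i‖ ^ 2 < 1) →
      (WithLp.toLp 2 z : EuclideanSpace ℂ (Fin n)) ∈ Metric.ball (0 : EuclideanSpace ℂ (Fin n)) 1 := by
    intro z hz
    rw [mem_ball_zero_iff, EuclideanSpace.norm_eq, Real.sqrt_lt' one_pos]
    simpa using hz
  refine ⟨fun z => F (WithLp.toLp 2 z), ?_, ⟨1, ?_⟩, ?_⟩
  · have h1 : Differentiable ℂ (fun z : Fin n → ℂ => (WithLp.toLp 2 z : EuclideanSpace ℂ (Fin n))) := by
      have := (PiLp.continuousLinearEquiv 2 ℂ (fun _ : Fin n => ℂ)).symm.differentiable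
      exact this
    exact hFd.comp h1.differentiableOn (fun z hz => hball z hz)
  · intro z hz
    exact hFb _ (hball z hz)
  · have h1 : ∀ᵐ x ∂((volume : Measure (Fin n → ℂ)).toFinite), ∃ r : ℕ → ℝ, Monotone r ∧
        (∀ k, 0 ≤ r k) ∧ (∀ k, r k < 1) ∧
        ∀ C : ℝ, ∃ m, C < ∑ k ∈ Finset.range m,
          ‖F ((r (k+1) : ℂ) • (g x).1) - F ((r k : ℂ) • (g x).1)‖ :=
      ae_of_ae_map hgm.aemeasurable hFae
    rw [ae_toFinite] at h1
    have h2 : ∀ᵐ x ∂(volume : Measure (Fin n → ℂ)), x ≠ 0 := by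
      have : NullSingletonClass (volume : Measure (Fin n → ℂ)) := Measure.pi_nullSingletonClass i0
      rw [ae_iff]
      simp only [ne_eq, not_not, Set.ofPred_eq_eq_singleton]
      exact measure_singleton _
    filter_upwards [h1, h2] with x hx hx0
    obtain ⟨r, hrm, hr0, hr1, hdiv⟩ := hx
    have hgx : (g x).1 = ((‖(WithLp.toLp 2 x : EuclideanSpace ℂ (Fin n))‖⁻¹ : ℝ) : ℂ) •
        (WithLp.toLp 2 x : EuclideanSpace ℂ (Fin n)) := by
      simp only [hg, prj, if_neg hx0]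
    have hS : Real.sqrt (∑ i, ‖x i‖ ^ 2) = ‖(WithLp.toLp 2 x : EuclideanSpace ℂ (Fin n))‖ := by
      rw [EuclideanSpace.norm_eq]
    set G : ℝ → ℂ := fun r : ℝ => F (WithLp.toLp 2 ((((r / Real.sqrt (∑ i, ‖x i‖ ^ 2) : ℝ)) : ℂ) • x)) with hG
    have hGr : ∀ t : ℝ, G t = F ((t : ℂ) • (g x).1) := by
      intro t
      rw [hG]
      simp only
      congr 1
      rw [hgx, smul_smul, hS, WithLp.toLp_smul]
      congr 1
      push_cast
      rw [div_eq_mul_inv]
    rw [eq_top_iff]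
    apply le_of_forall_lt
    intro c hc
    obtain ⟨m, hm⟩ := hdiv c.toReal
    have h3 : ∑ k ∈ Finset.range m, edist (G (r (k+1))) (G (r k)) ≤ eVariationOn G (Set.Ico 0 1) :=
      eVariationOn.sum_le hrm (fun k => ⟨hr0 k, hr1 k⟩)
    refine lt_of_lt_of_le ?_ h3
    have h4 : ∑ k ∈ Finset.range m, edist (G (r (k+1))) (G (r k)) =
        ENNReal.ofReal (∑ k ∈ Finset.range m,
          ‖F ((r (k+1) : ℂ) • (g x).1) - F ((r k : ℂ) • (g x).1)‖) := by
      rw [ENNReal.ofReal_sum_of_nonneg (fun _ _ => norm_nonneg _)]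
      apply Finset.sum_congr rfl
      intro k _
      rw [edist_eq_enorm_sub, hGr, hGr, ofReal_norm]
    rw [h4, ← ENNReal.ofReal_toReal hc.ne]
    exact (ENNReal.ofReal_lt_ofReal_iff (lt_of_le_of_lt ENNReal.toReal_nonneg hm)).mpr hm

end Pool.Agent.S04135
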