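import Pool.Statements.S04683
import Pool.Agent.K4H47.UN.Mass

set_option autoImplicit false
open Filter Topology
open scoped ENNReal
open Pool Pool.MP_535d13_an

namespace Pool.Agent.S04683

open Pool.Agent.K4H47.UN Pool.Agent.Y249.SU in
/-- The set of uniqueness: the numbers in the unit interval all of whose binary digits at the
positions `a k + 1` can be chosen to be zero. -/
def KK (a : ℕ → ℕ) : Set ℝ :=
  {x | x ∈ Set.Icc (0:ℝ) 1 ∧ ∀ k, 0 ≤ Real.sin (2 * Real.pi * (2 ^ (a k) * x))}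

open Pool.Agent.K4H47.UN Pool.Agent.Y249.SU in
/-- The good numbers. -/
def GG : Set ℝ :=
  {x | ∀ b : ℕ, 2 ≤ b → ∀ h : ℕ, 1 ≤ h →
    Tendsto (fun N : ℕ => ‖SS b h N x‖ / (N:ℝ)) atTop (𝓝 0)}

open Pool.Agent.K4H47.UN in
lemma isClosed_KK (a : ℕ → ℕ) : IsClosed (KK a) := by
  have h : KK a = Set.Icc (0:ℝ) 1 ∩ ⋂ k, {x | 0 ≤ Real.sin (2 * Real.pi * (2 ^ (a k) * x))} := by
    ext x
    simp [KK]
  rw [h]
  refine isClosed_Icc.inter (isClosed_iInter fun k => ?_)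
  exact isClosed_le continuous_const (by fun_prop)

open Pool.Agent.K4H47.UN in
lemma measurableSet_GG : MeasurableSet GG := by
  have h : GG = ⋂ b : ℕ, ⋂ (_ : 2 ≤ b), ⋂ h : ℕ, ⋂ (_ : 1 ≤ h),
      {x | Tendsto (fun N : ℕ => ‖SS b h N x‖ / (N:ℝ)) atTop (𝓝 0)} := by
    ext x
    simp only [GG, Set.mem_setOf_eq, Set.mem_iInter]
  rw [h]
  refine MeasurableSet.iInter fun b => MeasurableSet.iInter fun _ => MeasurableSet.iInter fun h =>
    MeasurableSet.iInter fun _ => ?_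
  exact measurableSet_tendsto _ fun N => (continuous_SS b h N).measurable.norm.div_const _

open Pool.Agent.K4H47.UN in
lemma T_mem_KK {a : ℕ → ℕ} (ha : StrictMono a) {u : ℝ} (h0 : 0 ≤ u) (h1 : u < 1) :
    T a u ∈ KK a := by
  refine ⟨⟨T_nonneg ha h0 h1, (T_le ha u).trans h1.le⟩, fun k => ?_⟩
  obtain ⟨m, θ, h2, h3, h4⟩ := T_digit ha u k
  rw [h4]
  have h5 : 2 * Real.pi * ((m:ℝ) + θ) = 2 * Real.pi * θ + (m:ℝ) * (2 * Real.pi) := by ring
  rw [h5, Real.sin_add_int_mul_two_pi]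
  have := Real.pi_pos
  apply Real.sin_nonneg_of_nonneg_of_le_pi
  · positivity
  · nlinarith

open Pool.Agent.K4H47.UN Pool.Agent.Y249.SU in
lemma KK_unique {a : ℕ → ℕ} (ha : StrictMono a) (ha0 : a 0 = 0) (c : ℤ → ℂ)
    (hc : ∀ x : ℝ, (∀ m : ℤ, x + (m:ℝ) ∉ KK a) → Tendsto (fun N : ℕ => S c N x) atTop (𝓝 0))
    (n : ℤ) : c n = 0 := by
  obtain ⟨γ, h1, h2, h3⟩ := exists_gamma
  have hper : ∀ (x : ℝ) (m : ℤ), lam γ (x + m) = lam γ x := by
    intro x m
    unfold lam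
    congr 1
    ext j
    have : E j (m : ℝ) = 1 := by
      rw [E]
      have : (2 * (Real.pi : ℂ) * Complex.I * (j : ℂ) * ((m : ℝ) : ℂ)) =
          ((j * m : ℤ) : ℂ) * (2 * Real.pi * Complex.I) := by
        push_cast
        ring
      rw [this, Complex.exp_int_mul_two_pi_mul_I]
    rw [E_add, this, mul_one]
  have hfr : ∀ y : ℝ, 0 ≤ Real.sin (2 * Real.pi * y) → lam γ y = 0 := by
    intro y hy
    have e : y = Int.fract y + (⌊y⌋ : ℝ) := (Int.fract_add_floor y).symm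
    rw [e, hper]
    apply h3
    refine ⟨Int.fract_nonneg y, ?_⟩
    by_contra hcon
    push Not at hcon
    have h4 := Int.fract_lt_one y
    rw [e, show 2 * Real.pi * (Int.fract y + (⌊y⌋ : ℝ)) =
      2 * Real.pi * Int.fract y + (⌊y⌋ : ℝ) * (2 * Real.pi) by ring,
      Real.sin_add_int_mul_two_pi] at hy
    have hpi := Real.pi_pos
    have h5 : 0 < Real.sin (2 * Real.pi * Int.fract y - Real.pi) := by
      apply Real.sin_pos_of_pos_of_lt_pi
      · nlinarith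
      · nlinarith
    rw [Real.sin_sub_pi] at h5
    linarith
  refine uniqueness (K := KK a) (M := fun k => (2:ℤ) ^ (a k)) ?_ h1 h2 ?_ (a := 1/2) (b := 1)
    (by norm_num) ?_ hc n
  · have : Tendsto (fun k => (2:ℤ) ^ k) atTop atTop := tendsto_pow_atTop_atTop_of_one_lt (by norm_num)
    exact this.comp ha.tendsto_atTop
  · intro x hx k
    have := hfr _ (hx.2 k)
    push_cast
    exact this
  · intro x hx m hm
    have h4 := hm.1
    have hx1 := hx.1
    have hx2 := hx.2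
    have hm0 : m = 0 := by
      have h5 : (m:ℝ) < 1 := by linarith [h4.2]
      have h6 : (-1:ℝ) < m := by linarith [h4.1]
      have h7 : m < 1 := by exact_mod_cast h5
      have h8 : -1 < m := by exact_mod_cast h6
      omega
    subst hm0
    have h5 := hm.2 0
    rw [ha0] at h5
    simp only [pow_zero, one_mul, Int.cast_zero, add_zero] at h5
    have hpi := Real.pi_pos
    have h6 : 0 < Real.sin (2 * Real.pi * x - Real.pi) := by
      apply Real.sin_pos_of_pos_of_lt_pi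
      · nlinarith
      · nlinarith
    rw [Real.sin_sub_pi] at h6
    linarith

open Pool.Agent.K4H47.UN in
lemma mu_pos {a : ℕ → ℕ} (ha : StrictMono a) (ha0 : a 0 = 0) (hg : ∀ k, k ^ 4 ≤ a k) :
    1 ≤ mu a (KK a ∩ GG) := by
  have hms : MeasurableSet (KK a ∩ GG) := (isClosed_KK a).measurableSet.inter measurableSet_GG
  unfold mu
  rw [MeasureTheory.Measure.map_apply (measurable_T ha) hms]
  have hae : ∀ᵐ u ∂(MeasureTheory.volume.restrict (Set.Ioc (0:ℝ) 1)), T a u ∈ KK a ∩ GG := by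
    have h1 : ∀ᵐ u ∂(MeasureTheory.volume.restrict (Set.Ioc (0:ℝ) 1)), u ∈ Set.Ioc (0:ℝ) 1 :=
      MeasureTheory.ae_restrict_mem measurableSet_Ioc
    have h2 : ∀ᵐ u ∂(MeasureTheory.volume.restrict (Set.Ioc (0:ℝ) 1)), u ≠ 1 := by
      apply MeasureTheory.ae_restrict_of_ae
      rw [MeasureTheory.ae_iff]; simp
    have h3 : ∀ᵐ u ∂(MeasureTheory.volume.restrict (Set.Ioc (0:ℝ) 1)), ∀ b : ℕ, ∀ h : ℕ,
        2 ≤ b → 1 ≤ h → Tendsto (fun N : ℕ => ‖SS b h N (T a u)‖ / (N:ℝ)) atTop (𝓝 0) := by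
      rw [MeasureTheory.ae_all_iff]
      intro b
      rw [MeasureTheory.ae_all_iff]
      intro h
      by_cases hb : 2 ≤ b
      · by_cases hh : 1 ≤ h
        · filter_upwards [ae_SS ha ha0 hg hb hh] with u hu _ _
          exact hu
        · exact Eventually.of_forall fun u _ hh' => absurd hh' hh
      · exact Eventually.of_forall fun u hb' => absurd hb' hb
    filter_upwards [h1, h2, h3] with u hu1 hu2 hu3
    refine ⟨T_mem_KK ha hu1.1.le (lt_of_le_of_ne hu1.2 hu2), fun b hb h hh => hu3 b h hb hh⟩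
  have h4 : (MeasureTheory.volume.restrict (Set.Ioc (0:ℝ) 1)) (T a ⁻¹' (KK a ∩ GG)) =
      (MeasureTheory.volume.restrict (Set.Ioc (0:ℝ) 1)) Set.univ := by
    apply MeasureTheory.measure_congr
    filter_upwards [hae] with u hu
    apply propext
    exact ⟨fun _ => trivial, fun _ => hu⟩
  rw [h4]
  simp

/-- For every gauge φ (increasing, φ(0)=0, positive, continuous at 0) with r/φ(r)→0, there is a closed set of uniqueness K⊆[0,1] on the circle whose set of absolutely normal points has positive φ-Hausdorff measure. -/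
theorem result :
    ∀ φ : ℝ → ℝ, MonotoneOn φ (Set.Ici 0) → φ 0 = 0 → (∀ r : ℝ, 0 < r → 0 < φ r) →
      Tendsto φ (𝓝[>] (0:ℝ)) (𝓝 0) →
      Tendsto (fun r : ℝ => r / φ r) (𝓝[>] (0:ℝ)) (𝓝 0) →
      ∃ K : Set ℝ, IsClosed K ∧ K ⊆ Set.Icc (0:ℝ) 1 ∧
        (∀ c : ℤ → ℂ,
          (∀ x : ℝ, (∀ m : ℤ, x + (m:ℝ) ∉ K) →
            Tendsto (fun N : ℕ => ∑ n ∈ Finset.Icc (-(N:ℤ)) (N:ℤ),
              c n * Complex.exp (2 * (Real.pi:ℂ) * Complex.I * (n:ℂ) * (x:ℂ))) atTop (𝓝 0)) →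
          ∀ n : ℤ, c n = 0) ∧
        0 < MeasureTheory.Measure.mkMetric (fun r : ℝ≥0∞ => ENNReal.ofReal (φ r.toReal))
          (K ∩ {x : ℝ | ∀ b : ℕ, 2 ≤ b → ∀ k : ℕ, ∀ w : Fin k → ℤ,
            (∀ j : Fin k, 0 ≤ w j ∧ w j < (b:ℤ)) →
            Tendsto (fun N : ℕ =>
              ((((Finset.range N).filter (fun i : ℕ =>
                ∀ j : Fin k, ⌊x * (b:ℝ) ^ (i + j.val + 1)⌋ % (b:ℤ) = w j)).card : ℝ) / (N:ℝ)))
              atTop (𝓝 (1 / (b:ℝ) ^ k))}) := by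
  intro φ _ h2 h3 h4 h5
  obtain ⟨a, ha, ha0, hg, hgauge⟩ := Pool.Agent.K4H47.UN.exists_a h5
  refine ⟨KK a, isClosed_KK a, fun x hx => hx.1, fun c hc n => KK_unique ha ha0 c hc n, ?_⟩
  have h6 := Pool.Agent.K4H47.UN.mu_le_mkMetric h2 h3 h4 ha hgauge
  have h7 := mu_pos ha ha0 hg
  refine lt_of_lt_of_le ?_ ((h6 _).trans (MeasureTheory.measure_mono (Set.inter_subset_inter_right
    (KK a) (s := GG) ?_)))
  · rw [MeasureTheory.Measure.smul_apply, smul_eq_mul]
    refine ENNReal.mul_pos ?_ ?_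
    · exact (ENNReal.ofReal_pos.mpr (by norm_num)).ne'
    · exact (lt_of_lt_of_le one_pos h7).ne'
  · intro x hx b hb k w hw
    exact Pool.Agent.K4H47.UN.normal_of_SS hb (hx b hb) k w hw

end Pool.Agent.S04683
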