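import Pool.Statements.S04892
import Pool.Agent.K4H48.Cone.Core

set_option autoImplicit false
open Pool Pool.MP_65ff7c_an

namespace Pool.Agent.S04892

/-- The negation of the preceding statement: Some absolute c>0 works in every dimension: if Ω is bounded open convex origin-symmetric and E is a half-volume relative-perimeter minimizer in Ω, some convex cone Γ has Ω∩Γ in E and Ω∩(−Γ) outside E (up to null sets), with ∣Ω∩Γ∣ ≥ c∣Ω∣. -/
theorem result :
    ¬ (∃ c : ℝ, 0 < c ∧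
      ∀ (n : ℕ) (Ω E : Set (EuclideanSpace ℝ (Fin n))),
        IsOpen Ω → Ω.Nonempty → Convex ℝ Ω → Bornology.IsBounded Ω →
        (∀ x ∈ Ω, -x ∈ Ω) →
        MeasurableSet E → E ⊆ Ω →
        MeasureTheory.volume E = MeasureTheory.volume Ω / 2 →
        (∀ F : Set (EuclideanSpace ℝ (Fin n)), MeasurableSet F → F ⊆ Ω →
          MeasureTheory.volume F = MeasureTheory.volume E →
          ∀ φ : EuclideanSpace ℝ (Fin n) → EuclideanSpace ℝ (Fin n),
            ContDiff ℝ 1 φ → HasCompactSupport φ → tsupport φ ⊆ Ω →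
            (∀ x, ‖φ x‖ ≤ 1) →
            ∀ ε : ℝ, 0 < ε →
              ∃ ψ : EuclideanSpace ℝ (Fin n) → EuclideanSpace ℝ (Fin n),
                ContDiff ℝ 1 ψ ∧ HasCompactSupport ψ ∧ tsupport ψ ⊆ Ω ∧
                (∀ x, ‖ψ x‖ ≤ 1) ∧
                (∫ x in E, LinearMap.trace ℝ (EuclideanSpace ℝ (Fin n))
                    (fderiv ℝ φ x).toLinearMap) ≤
                  (∫ x in F, LinearMap.trace ℝ (EuclideanSpace ℝ (Fin n))
                    (fderiv ℝ ψ x).toLinearMap) + ε) →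
        ∃ Γ : ConvexCone ℝ (EuclideanSpace ℝ (Fin n)),
          MeasureTheory.volume ((Ω ∩ (Γ : Set (EuclideanSpace ℝ (Fin n)))) \ E) = 0 ∧
          MeasureTheory.volume ((Ω ∩ {x | -x ∈ Γ}) ∩ E) = 0 ∧
          ENNReal.ofReal c * MeasureTheory.volume Ω ≤
            MeasureTheory.volume (Ω ∩ (Γ : Set (EuclideanSpace ℝ (Fin n))))) := by
  rintro ⟨c, hc, hall⟩
  obtain ⟨H, a, ε, hH, ha, hε, hfin, hF, hcore⟩ := Pool.Agent.K4H48.Cone.core (c := min c 1)
    (lt_min hc one_pos) (min_le_right _ _)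
  obtain ⟨E, hEm, hEs, hEv, hmin⟩ := Pool.Agent.K4H48.Cone.exists_min
    (Pool.Agent.K4H48.Cone.isOpen_Om H a ε) hfin _ hF
  obtain ⟨Γ, h1, h2, h3⟩ := hall 3 (Pool.Agent.K4H48.Cone.Om H a ε) E
    (Pool.Agent.K4H48.Cone.isOpen_Om H a ε)
    ⟨0, Pool.Agent.K4H48.Cone.zero_mem_Om (by linarith) hε⟩
    (Pool.Agent.K4H48.Cone.convex_Om ha.le hε.le) (Pool.Agent.K4H48.Cone.bounded_Om ha.le hε.le)
    (fun x hx => Pool.Agent.K4H48.Cone.neg_mem_Om hx) hEm hEs hEv (by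
      intro F hFm hFs hFv φ hφ1 hφ2 hφ3 hφ4 δ hδ
      obtain ⟨ψ, hψ, hle⟩ := Pool.Agent.K4H48.Cone.fields_of_per_le
        (hmin F hFm hFs (hFv.trans hEv)) (φ := φ) ⟨hφ1, hφ2, hφ3, hφ4⟩ hδ
      exact ⟨ψ, hψ.smooth, hψ.compact, hψ.subset, hψ.norm_le, hle⟩)
  refine hcore E hEm hEs hEv hmin Γ h1 h2 (le_trans ?_ h3)
  gcongr
  exact min_le_left _ _

end Pool.Agent.S04892
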