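import Pool.Statements.S05156

set_option autoImplicit false
open Pool Pool.MP_7d5b5f_an

namespace Pool.Agent.S05156

/-- The value of the discrete Riesz transform of the indicator of the origin at a unit vector is
the constant `Γ((d+1)/2) / π^((d+1)/2)`, which is unbounded in the dimension `d`. -/
theorem result :
    ¬ (∀ p : ℝ, 1 < p → ∃ C : ℝ, 0 < C ∧
      ∀ (d : ℕ) (k : Fin d) (S T : Finset (Fin d → ℤ)) (f : (Fin d → ℤ) → ℝ),
        ∑ n ∈ T, |∑ m ∈ S,
            ((Real.Gamma (((d : ℝ) + 1) / 2) / Real.pi ^ (((d : ℝ) + 1) / 2)) *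
              (((n k - m k : ℤ) : ℝ) /
                (Real.sqrt (∑ i, (((n i - m i : ℤ) : ℝ)) ^ 2)) ^ (d + 1))) * f m| ^ p
          ≤ C ^ p * ∑ m ∈ S, |f m| ^ p) := by
  intro h
  obtain ⟨C, hC, hall⟩ := h 2 (by norm_num)
  have hpi : (0 : ℝ) < Real.pi := Real.pi_pos
  have htend := FloorSemiring.tendsto_pow_div_factorial_atTop (K := ℝ) Real.pi
  have hev := htend.eventually (gt_mem_nhds (show (0 : ℝ) < 1 / (C * Real.pi) by positivity))
  obtain ⟨n, hn⟩ := hev.exists
  have hfac : (0 : ℝ) < (n.factorial : ℝ) := by exact_mod_cast n.factorial_pos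
  have hn' : C * Real.pi ^ (n + 1) < (n.factorial : ℝ) := by
    rw [div_lt_div_iff₀ hfac (by positivity)] at hn
    calc C * Real.pi ^ (n + 1) = Real.pi ^ n * (C * Real.pi) := by ring
      _ < 1 * (n.factorial : ℝ) := hn
      _ = (n.factorial : ℝ) := one_mul _
  let k : Fin (2 * n + 1) := ⟨0, by omega⟩
  let e : Fin (2 * n + 1) → ℤ := Pi.single k 1
  have h1 := hall (2 * n + 1) k {0} {e} (fun _ => 1)
  have hd : (((2 * n + 1 : ℕ) : ℝ) + 1) / 2 = (n : ℝ) + 1 := by
    push_cast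
    ring
  have hsum : ∑ i, (((e i - (0 : Fin (2 * n + 1) → ℤ) i : ℤ) : ℝ)) ^ 2 = 1 := by
    rw [Finset.sum_eq_single k]
    · simp [e]
    · intro b _ hb
      simp [e, hb]
    · intro hk
      exact absurd (Finset.mem_univ k) hk
  have hpow : Real.pi ^ ((n : ℝ) + 1) = Real.pi ^ (n + 1) := by
    rw [show (n : ℝ) + 1 = ((n + 1 : ℕ) : ℝ) by push_cast; ring, Real.rpow_natCast]
  rw [Finset.sum_singleton, Finset.sum_singleton, Finset.sum_singleton, hsum, hd,
    Real.Gamma_nat_eq_factorial, hpow] at h1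
  have hek : e k = 1 := by simp [e]
  simp only [hek, Pi.zero_apply, sub_zero, Int.cast_one, Real.sqrt_one, one_pow, div_one,
    mul_one, abs_one, Real.one_rpow] at h1
  have hq : C < (n.factorial : ℝ) / Real.pi ^ (n + 1) := by
    rw [lt_div_iff₀ (by positivity)]
    exact hn'
  have hlt : C ^ (2 : ℝ) < |(n.factorial : ℝ) / Real.pi ^ (n + 1)| ^ (2 : ℝ) := by
    rw [abs_of_pos (by positivity)]
    exact Real.rpow_lt_rpow hC.le hq (by norm_num)
  exact absurd h1 (not_le.mpr hlt)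

end Pool.Agent.S05156
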