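import Pool.Statements.S05648
import Pool.Agent.K4H52.HS.Final

set_option autoImplicit false
open MeasureTheory Filter Topology
open Pool Pool.MP_a271d0_an

namespace Pool.Agent.S05648

/-- The negation of the preceding statement: For every N≥3, smooth bounded domain Ω in R^N with 0 on its boundary, s in (0,2) and 2*(s)-1<p<(N+2)/(N-2), there is an H^1_0 function u>0 on Ω weakly solving Δu - u^p + u^(2*(s)-1)/∣x∣^s = 0. -/
theorem result :
    ¬ (∀ (N : ℕ), 3 ≤ N →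
  ∀ (Ω : Set (EuclideanSpace ℝ (Fin N))),
    IsOpen Ω → IsConnected Ω → Bornology.IsBounded Ω →
    (∃ ρ : EuclideanSpace ℝ (Fin N) → ℝ,
        ContDiff ℝ ((⊤ : ℕ∞) : WithTop ℕ∞) ρ ∧ Ω = {x | ρ x < 0} ∧
        ∀ x ∈ frontier Ω, fderiv ℝ ρ x ≠ 0) →
    (0 : EuclideanSpace ℝ (Fin N)) ∈ frontier Ω →
  ∀ s : ℝ, 0 < s → s < 2 →
  ∀ p : ℝ, 2 * ((N : ℝ) - s) / ((N : ℝ) - 2) - 1 < p →
    p < ((N : ℝ) + 2) / ((N : ℝ) - 2) →
  ∃ u : EuclideanSpace ℝ (Fin N) → ℝ,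
  ∃ G : EuclideanSpace ℝ (Fin N) → EuclideanSpace ℝ (Fin N),
    MemLp u 2 volume ∧ MemLp G 2 volume ∧
    (∃ φ : ℕ → EuclideanSpace ℝ (Fin N) → ℝ,
        (∀ n, ContDiff ℝ ((⊤ : ℕ∞) : WithTop ℕ∞) (φ n) ∧
              HasCompactSupport (φ n) ∧ tsupport (φ n) ⊆ Ω) ∧
        Tendsto (fun n => eLpNorm (fun x => φ n x - u x) 2 volume) atTop (𝓝 0) ∧
        Tendsto (fun n => eLpNorm (fun x => gradient (φ n) x - G x) 2 volume)
          atTop (𝓝 0)) ∧
    (∀ᵐ x ∂(volume : Measure (EuclideanSpace ℝ (Fin N))), x ∈ Ω → 0 < u x) ∧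
    ∀ ψ : EuclideanSpace ℝ (Fin N) → ℝ,
      ContDiff ℝ ((⊤ : ℕ∞) : WithTop ℕ∞) ψ → HasCompactSupport ψ → tsupport ψ ⊆ Ω →
        Integrable (fun x => inner ℝ (G x) (gradient ψ x)) volume ∧
        Integrable (fun x => u x ^ p * ψ x) volume ∧
        Integrable (fun x => u x ^ (2 * ((N : ℝ) - s) / ((N : ℝ) - 2) - 1) * ψ x / ‖x‖ ^ s)
          volume ∧
        ∫ x, (inner ℝ (G x) (gradient ψ x) + u x ^ p * ψ x
              - u x ^ (2 * ((N : ℝ) - s) / ((N : ℝ) - 2) - 1) * ψ x / ‖x‖ ^ s) = 0) := by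
  intro H
  have hfr : frontier K4H52.HS.Om = Metric.sphere K4H52.HS.ctr 1 :=
    frontier_ball _ one_ne_zero
  obtain ⟨u, G, hu, hG, ⟨φ, hφ, hl, hlG⟩, hpos, hweak⟩ := H 3 le_rfl K4H52.HS.Om
    K4H52.HS.isOpen_Om (by
      refine ⟨⟨K4H52.HS.ctr, Metric.mem_ball_self one_pos⟩, ?_⟩
      exact (convex_ball K4H52.HS.ctr 1).isPreconnected)
    Metric.isBounded_ball
    ⟨fun x => ‖x - K4H52.HS.ctr‖ ^ 2 - 1, by
      have : ContDiff ℝ ((⊤ : ℕ∞) : WithTop ℕ∞) fun x : EuclideanSpace ℝ (Fin 3) =>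
        ‖x - K4H52.HS.ctr‖ ^ 2 := (contDiff_id.sub contDiff_const).norm_sq ℝ
      exact this.sub contDiff_const, by
      ext x
      rw [K4H52.HS.Om, mem_ball_iff_norm, Set.mem_ofPred_eq, sub_neg, sq_lt_one_iff₀ (norm_nonneg _)],
      by
      intro x hx
      rw [hfr, mem_sphere_iff_norm] at hx
      have h1 : HasFDerivAt (fun y : EuclideanSpace ℝ (Fin 3) => ‖y - K4H52.HS.ctr‖ ^ 2 - 1)
          (2 • (innerSL ℝ (x - K4H52.HS.ctr))) x := by
        have h2 := (hasStrictFDerivAt_norm_sq (x - K4H52.HS.ctr)).hasFDerivAt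
        have h3 : HasFDerivAt (fun y : EuclideanSpace ℝ (Fin 3) => y - K4H52.HS.ctr)
          (ContinuousLinearMap.id ℝ _) x := (hasFDerivAt_id x).sub_const _
        have h4 := (h2.comp x h3).sub_const 1
        simpa using h4
      rw [h1.fderiv]
      intro h0
      have h2 := congrArg (fun L => L (x - K4H52.HS.ctr)) h0
      simp only [ContinuousLinearMap.smul_apply, innerSL_apply_apply, real_inner_self_eq_norm_sq, hx,
        ContinuousLinearMap.zero_apply] at h2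
      norm_num at h2⟩
    (by
      rw [hfr, mem_sphere_iff_norm, zero_sub, norm_neg, K4H52.HS.norm_ctr])
    1 one_pos one_lt_two 4 (by norm_num) (by norm_num)
  have A : K4H52.HS.Appr u G φ := ⟨fun n => (hφ n).1, fun n => (hφ n).2.1, hu, hG, hl, hlG⟩
  refine K4H52.HS.no_solution A (fun n => (hφ n).2.2) hpos fun ψ h1 h2 h3 => ?_
  obtain ⟨-, -, -, h4⟩ := hweak ψ h1 h2 h3
  rw [← h4]
  refine integral_congr_ae (Eventually.of_forall fun x => ?_)
  have e1 : u x ^ (4 : ℝ) = u x ^ 4 := by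
    rw [← Real.rpow_natCast]; norm_num
  have e2 : u x ^ (2 * (((3 : ℕ) : ℝ) - 1) / (((3 : ℕ) : ℝ) - 2) - 1) = u x ^ 3 := by
    rw [← Real.rpow_natCast]; norm_num
  simp only [e1, e2, Real.rpow_one]

end Pool.Agent.S05648
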