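import Pool.Statements.S05959
import Pool.Agent.K4H53.BC.Final

set_option autoImplicit false
open Pool Pool.MP_bcf514_an

namespace Pool.Agent.S05959

/-- There is k ≥ 2 such that any entire f, g for which f^(n)/g^(n) is entire and zero-free for all n ≤ k either have f = c·g, or are e^(az+b), e^(cz+d), or are A(e^(az)−b), B(e^(−az)−1/b) with b ≠ 0. -/
theorem result :
    ∃ k : ℕ, 2 ≤ k ∧
      ∀ f g : ℂ → ℂ, Differentiable ℂ f → Differentiable ℂ g →
        (∀ n : ℕ, n ≤ k →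
          (∃ z : ℂ, iteratedDeriv n g z ≠ 0) ∧
          ∃ h : ℂ → ℂ, Differentiable ℂ h ∧ (∀ z : ℂ, h z ≠ 0) ∧
            ∀ z : ℂ, iteratedDeriv n f z = h z * iteratedDeriv n g z) →
        (∃ c : ℂ, ∀ z : ℂ, f z = c * g z) ∨
        (∃ a b c d : ℂ, ∀ z : ℂ,
            f z = Complex.exp (a * z + b) ∧ g z = Complex.exp (c * z + d)) ∨
        (∃ a b A B : ℂ, b ≠ 0 ∧ ∀ z : ℂ,
            f z = A * (Complex.exp (a * z) - b) ∧
            g z = B * (Complex.exp (-(a * z)) - b⁻¹)) := by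
  exact ⟨22, by norm_num, fun f g hf hg H => Pool.Agent.K4H53.BC.main_thm f g hf hg H⟩

end Pool.Agent.S05959
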