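import Pool.Statements.S07056
/-!
# Weighted directed cycles: out-weights and in-weights at least 1 do not force a cycle of weight 1

Counterexample on 26 vertices. Let `T` be the rooted tree with root `0`, two children `1, 2` of the root and five
leaves below each child; the arcs go from a vertex to its children (weights `1/2` and `1/5`), and from every leaf back
to the root (weight `1/4`) and to its parent (weight `3/4`). Every vertex of `T` has out-weight `1`, and every directed
cycle of `T` is `root → child → leaf → root` or `child → leaf → child`, of weight `19/20`. Take `T` and a copy `T'` of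
`T` with all arcs reversed, and join every vertex of `T'` to the corresponding vertex of `T` by an arc of weight `1`.
No arc leads from `T` to `T'`, so every directed cycle lies in `T` or in `T'` and has weight `19/20`; but now all
in-weights and all out-weights are at least `1`.
-/

set_option autoImplicit false
open Pool Pool.MP_0959cd_co

namespace Pool.Agent.S07056

/-- `20` times the weight of the arc from `a` to `b` in the tree-like digraph `T` (`0`: no arc). -/
def w (a b : Fin 13) : ℕ :=
  if a = 0 then (if b = 1 ∨ b = 2 then 10 else 0)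
  else if a = 1 then (if 3 ≤ b ∧ b ≤ 7 then 4 else 0)
  else if a = 2 then (if 8 ≤ b then 4 else 0)
  else if b = 0 then 5
  else if b = (if a ≤ 7 then 1 else 2) then 15 else 0

lemma w_out : ∀ a, ∑ b, w a b = 20 := by decide

lemma w_le : ∀ a b, w a b ≤ 20 := by decide

lemma w_self : ∀ a, w a a = 0 := by decide

lemma key0 : ∀ b c d : Fin 13, w 0 b ≠ 0 → w b c ≠ 0 → w c d ≠ 0 →
    (d = 0 ∨ d = b) ∧ c ≠ 0 ∧ w 0 b + w b c + w c 0 < 20 := by decide +kernel

lemma key1 : ∀ a b d : Fin 13, (a = 1 ∨ a = 2) → w a b ≠ 0 → w b d ≠ 0 → d ≠ 0 →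
    d = a ∧ w a b + w b a < 20 := by decide +kernel

lemma key2 : ∀ a b : Fin 13, ¬ (a = 1 ∨ a = 2) → a ≠ 0 → w a b ≠ 0 → b ≠ 0 → (b = 1 ∨ b = 2) := by
  decide +kernel

lemma gen (k : ℕ) (x : Fin (k + 2)) : ∃ n : ℕ, n • (1 : Fin (k + 2)) = x := by
  induction x using Fin.induction with
  | zero => exact ⟨0, by simp⟩
  | succ x ih =>
    obtain ⟨n, hn⟩ := ih
    exact ⟨n + 1, by rw [succ_nsmul, hn, Fin.coeSucc_eq_succ]⟩

/-- every simple directed cycle of `T` has weight less than `1` -/
lemma cyc (k : ℕ) (c : Fin (k + 2) → Fin 13) (hc : Function.Injective c)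
    (ha : ∀ i, w (c i) (c (i + 1)) ≠ 0) : ∑ i, w (c i) (c (i + 1)) < 20 := by
  by_cases h : ∃ i, c i = 0
  · obtain ⟨i, hi⟩ := h
    have h1 := ha i
    have h2 := ha (i + 1)
    have h3 := ha (i + 1 + 1)
    rw [hi] at h1
    obtain ⟨hd, hne, hlt⟩ := key0 _ _ _ h1 h2 h3
    rcases hd with hd | hd
    · rw [← hi] at hd
      have e := hc hd
      have e3 : ((1 : Fin (k + 2)) + 1 + 1) = 0 := by
        have : i + (1 + 1 + 1) = i + 0 := by rw [add_zero, ← add_assoc, ← add_assoc]; exact e
        exact add_left_cancel this
      have hk : k = 1 := by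
        rcases k with _ | _ | k
        · exfalso; revert e3; decide
        · rfl
        · exfalso
          have := congrArg Fin.val e3
          rcases k with _ | k
          · revert this; decide
          · simp [Fin.val_add] at this
            rw [Nat.mod_eq_of_lt (by omega)] at this
            omega
      subst hk
      have hs : ∑ j, w (c j) (c (j + 1)) = w (c i) (c (i + 1)) + w (c (i + 1)) (c (i + 1 + 1))
          + w (c (i + 1 + 1)) (c (i + 1 + 1 + 1)) := by
        rw [Fin.sum_univ_three]
        fin_cases i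
        · rfl
        · show _ = w (c 1) (c 2) + w (c 2) (c 0) + w (c 0) (c 1)
          show w (c 0) (c 1) + w (c 1) (c 2) + w (c 2) (c 0) = _
          omega
        · show _ = w (c 2) (c 0) + w (c 0) (c 1) + w (c 1) (c 2)
          show w (c 0) (c 1) + w (c 1) (c 2) + w (c 2) (c 0) = _
          omega
      rw [hs, hd, hi]
      exact hlt
    · have e := hc hd
      have e2 : ((1 : Fin (k + 2)) + 1) = 0 := by
        have : (i + 1) + (1 + 1) = (i + 1) + 0 := by rw [add_zero, ← add_assoc]; exact e
        exact add_left_cancel this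
      exfalso
      apply hne
      rw [← hi, add_assoc, e2, add_zero]
  · push Not at h
    obtain ⟨i, hi⟩ : ∃ i, c i = 1 ∨ c i = 2 := by
      by_cases h0 : c 0 = 1 ∨ c 0 = 2
      · exact ⟨0, h0⟩
      · exact ⟨0 + 1, key2 _ _ h0 (h 0) (ha 0) (h _)⟩
    obtain ⟨hd, hlt⟩ := key1 _ _ _ hi (ha i) (ha (i + 1)) (h _)
    have e := hc hd
    have e2 : ((1 : Fin (k + 2)) + 1) = 0 := by
      have : i + (1 + 1) = i + 0 := by rw [add_zero, ← add_assoc]; exact e
      exact add_left_cancel this
    have hk : k = 0 := by
      rcases k with _ | k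
      · rfl
      · exfalso
        have := congrArg Fin.val e2
        simp [Fin.val_add] at this
        rw [Nat.mod_eq_of_lt (by omega)] at this
        omega
    subst hk
    have hs : ∑ j, w (c j) (c (j + 1)) = w (c i) (c (i + 1)) + w (c (i + 1)) (c (i + 1 + 1)) := by
      rw [Fin.sum_univ_two]
      fin_cases i
      · rfl
      · show w (c 0) (c 1) + w (c 1) (c 0) = w (c 1) (c 0) + w (c 0) (c 1)
        omega
    rw [hs, hd]
    exact hlt

/-- `20` times the weights of the counterexample: `T` on the left, the reversed copy on the right. -/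
def W : Fin 13 ⊕ Fin 13 → Fin 13 ⊕ Fin 13 → ℕ
  | .inl a, .inl b => w a b
  | .inr a, .inr b => w b a
  | .inr a, .inl b => if a = b then 20 else 0
  | .inl _, .inr _ => 0

lemma W_le (u v) : W u v ≤ 20 := by
  rcases u with a | a <;> rcases v with b | b <;> simp only [W]
  · exact w_le a b
  · omega
  · split_ifs <;> omega
  · exact w_le b a

lemma W_out (u) : 20 ≤ ∑ v, W u v := by
  rw [Fintype.sum_sum_type]
  rcases u with a | a
  · simp only [W, w_out]; omega
  · have : ∑ b, W (.inr a) (.inl b) = 20 := by simp [W]
    rw [this]; omega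

lemma W_in (u) : 20 ≤ ∑ v, W v u := by
  rw [Fintype.sum_sum_type]
  rcases u with a | a
  · have : ∑ b, W (.inr b) (.inl a) = 20 := by simp [W]
    rw [this]; omega
  · simp only [W, w_out]; omega

lemma W_cyc (k : ℕ) (c : Fin (k + 2) → Fin 13 ⊕ Fin 13) (hc : Function.Injective c)
    (ha : ∀ i, W (c i) (c (i + 1)) ≠ 0) : ∑ i, W (c i) (c (i + 1)) < 20 := by
  by_cases h : ∃ i a, c i = Sum.inl a
  · -- the whole cycle is on the left
    obtain ⟨i, a, hia⟩ := h
    have hall : ∀ n : ℕ, ∃ b, c (i + n • (1 : Fin (k + 2))) = Sum.inl b := by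
      intro n
      induction n with
      | zero => exact ⟨a, by simpa using hia⟩
      | succ n ih =>
        obtain ⟨b, hb⟩ := ih
        have h1 := ha (i + n • (1 : Fin (k + 2)))
        rw [hb] at h1
        rcases h2 : c (i + n • (1 : Fin (k + 2)) + 1) with d | d
        · exact ⟨d, by rw [succ_nsmul, ← add_assoc]; exact h2⟩
        · rw [h2] at h1; exact absurd rfl h1
    have hall' : ∀ j, ∃ b, c j = Sum.inl b := by
      intro j
      obtain ⟨n, hn⟩ := gen k (j - i)
      obtain ⟨b, hb⟩ := hall n
      refine ⟨b, ?_⟩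
      rw [← hb, hn]; congr 1
      abel
    choose d hd using hall'
    have hdi : Function.Injective d := fun x y hxy => hc (by rw [hd, hd, hxy])
    have := cyc k d hdi (fun i => by have := ha i; rw [hd, hd] at this; exact this)
    refine lt_of_eq_of_lt (Finset.sum_congr rfl fun i _ => ?_) this
    rw [hd, hd]; rfl
  · -- the whole cycle is on the right: reverse it
    push Not at h
    have hall' : ∀ j, ∃ b, c j = Sum.inr b := by
      intro j
      rcases h2 : c j with b | b
      · exact absurd h2 (h j b)
      · exact ⟨b, rfl⟩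
    choose d hd using hall'
    have hdi : Function.Injective d := fun x y hxy => hc (by rw [hd, hd, hxy])
    have := cyc k (fun i => d (-i)) (fun x y hxy => neg_injective (hdi hxy)) (fun i => by
      have h1 := ha (-(i + 1))
      rw [hd, hd] at h1
      have e : -(i + 1) + 1 = -i := by abel
      rw [e] at h1
      exact h1)
    refine lt_of_eq_of_lt ?_ this
    refine Fintype.sum_equiv ((Equiv.neg _).trans (Equiv.subRight 1)) _ _ (fun i => ?_)
    show W (c i) (c (i + 1)) = w (d (-(-i - 1))) (d (-(-i - 1 + 1)))
    have e1 : -(-i - 1) = i + 1 := by abel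
    have e2 : -(-i - 1 + 1) = i := by abel
    rw [e1, e2, hd, hd]; rfl

/-- The negation of the preceding statement: In every finite nonempty loopless digraph with arc weights in [0,1] where each vertex has total out-weight at least 1 and total in-weight at least 1, some directed cycle has total weight at least 1. -/
theorem result :
    ¬ (∀ (V : Type) [Fintype V] [Nonempty V] (G : Digraph V) (p : V → V → ℝ),
      (∀ v, ¬ G.Adj v v) →
      (∀ u v, 0 ≤ p u v ∧ p u v ≤ 1) →
      (∀ u v, ¬ G.Adj u v → p u v = 0) →
      (∀ u, 1 ≤ ∑ v, p u v) →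
      (∀ u, 1 ≤ ∑ v, p v u) →
      ∃ (k : ℕ) (c : Fin (k + 2) → V),
        Function.Injective c ∧
        (∀ i, G.Adj (c i) (c (i + 1))) ∧
        1 ≤ ∑ i, p (c i) (c (i + 1))) := by
  intro H
  obtain ⟨k, c, hc, ha, hs⟩ := H (Fin 13 ⊕ Fin 13) ⟨fun u v => W u v ≠ 0⟩ (fun u v => (W u v : ℝ) / 20)
    (fun v => by
      rcases v with a | a <;> simp [W, w_self])
    (fun u v => ⟨by positivity, by
      have : (W u v : ℝ) ≤ 20 := by exact_mod_cast W_le u v
      linarith⟩)
    (fun u v h => by
      have : W u v = 0 := by simpa using h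
      simp [this])
    (fun u => by
      have h := W_out u
      have h' : (20 : ℝ) ≤ ∑ v, (W u v : ℝ) := by exact_mod_cast h
      rw [← Finset.sum_div]; linarith)
    (fun u => by
      have h := W_in u
      have h' : (20 : ℝ) ≤ ∑ v, (W v u : ℝ) := by exact_mod_cast h
      rw [← Finset.sum_div]; linarith)
  have h1 := W_cyc k c hc ha
  have h2 : (∑ i, (W (c i) (c (i + 1)) : ℝ)) < 20 := by exact_mod_cast h1
  rw [← Finset.sum_div] at hs
  linarith

end Pool.Agent.S07056
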