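import Pool.Statements.S07091
import Pool.Agent.K4H61.Halves

set_option autoImplicit false
open Pool Pool.MP_0a407b_co

namespace Pool.Agent.S07091

open Pool.Agent.K4H61.Halves

/-- twice the number of edges inside `W` is the value of the adjacency form at the indicator -/
lemma form_eq {n : ℕ} (G : SimpleGraph (Fin n)) [DecidableRel G.Adj] (W : Finset (Fin n)) :
    B (adj G) (ind W) (ind W) =
      2 * (({e : Sym2 (Fin n) | e ∈ G.edgeSet ∧ ∀ v ∈ e, v ∈ W}).ncard : ℝ) := by
  classical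
  -- the graph induced on W, on the same vertex set
  let H : SimpleGraph (Fin n) :=
    { Adj := fun u v => G.Adj u v ∧ u ∈ W ∧ v ∈ W
      symm := ⟨fun u v h => ⟨h.1.symm, h.2.2, h.2.1⟩⟩
      loopless := ⟨fun u h => G.loopless.irrefl u h.1⟩ }
  have hset : {e : Sym2 (Fin n) | e ∈ G.edgeSet ∧ ∀ v ∈ e, v ∈ W} = H.edgeSet := by
    ext e
    induction e using Sym2.ind with
    | _ u v =>
      simp only [Set.mem_setOf_eq, SimpleGraph.mem_edgeSet, Sym2.mem_iff, H]
      constructor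
      · rintro ⟨h, h'⟩
        exact ⟨h, h' u (Or.inl rfl), h' v (Or.inr rfl)⟩
      · rintro ⟨h, hu, hv⟩
        refine ⟨h, ?_⟩
        rintro w (rfl | rfl)
        · exact hu
        · exact hv
  rw [hset]
  have h1 : (H.edgeSet.ncard : ℝ) = (H.edgeFinset.card : ℝ) := by
    rw [← SimpleGraph.coe_edgeFinset, Set.ncard_coe_finset]
  rw [h1]
  have h2 : (∑ u, (H.degree u : ℝ)) = 2 * (H.edgeFinset.card : ℝ) := by
    exact_mod_cast H.sum_degrees_eq_twice_card_edges
  rw [← h2]
  unfold B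
  refine Finset.sum_congr rfl fun u _ => ?_
  rw [← SimpleGraph.card_neighborFinset_eq_degree, Finset.card_eq_sum_ones]
  push_cast
  rw [← Finset.sum_filter_add_sum_filter_not Finset.univ (fun v => v ∈ H.neighborFinset u)]
  have h3 : Finset.univ.filter (fun v => v ∈ H.neighborFinset u) = H.neighborFinset u := by
    ext; simp
  rw [h3, Finset.sum_eq_zero (s := Finset.univ.filter fun v => ¬ v ∈ H.neighborFinset u), add_zero]
  · refine Finset.sum_congr rfl fun v hv => ?_
    rw [SimpleGraph.mem_neighborFinset] at hv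
    obtain ⟨ha, hu, hv⟩ := hv
    simp [adj, ind, ha, hu, hv]
  · intro v hv
    rw [Finset.mem_filter, SimpleGraph.mem_neighborFinset] at hv
    have hv := hv.2
    by_cases ha : G.Adj u v
    · by_cases hu : u ∈ W
      · by_cases hw : v ∈ W
        · exact absurd ⟨ha, hu, hw⟩ hv
        · simp [ind, hw]
      · simp [ind, hu]
    · simp [adj, ha]

/-- For every c>0 and k there are ε>0 and N so that any graph on n≥N vertices with ⌊cn²⌋ edges, in which every ⌊n/2⌋-vertex set spans at least (1−ε)c(n/2)² edges, contains a k-clique. -/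
theorem result :
    ∀ c : ℝ, 0 < c → ∀ k : ℕ, ∃ ε : ℝ, 0 < ε ∧ ∃ N : ℕ, ∀ n : ℕ, N ≤ n →
      ∀ G : SimpleGraph (Fin n),
        G.edgeSet.ncard = ⌊c * (n : ℝ) ^ 2⌋₊ →
        (∀ W : Finset (Fin n), W.card = n / 2 →
          (1 - ε) * c * ((n : ℝ) / 2) ^ 2 ≤
            (({e : Sym2 (Fin n) | e ∈ G.edgeSet ∧ ∀ v ∈ e, v ∈ W}).ncard : ℝ)) →
        ∃ s : Finset (Fin n), G.IsNClique k s := by
  classical
  intro c hc k
  obtain ⟨δ, hδ, H⟩ := exists_clique k c hc
  -- the small parameter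
  set s : ℝ := min 1 (δ / 72) with hs
  have hs0 : 0 < s := lt_min one_pos (by positivity)
  have hs1 : s ≤ 1 := min_le_left _ _
  have hsδ : 72 * s ≤ δ := by
    have := min_le_right (1 : ℝ) (δ / 72)
    rw [← hs] at this
    linarith
  refine ⟨2 * s ^ 2 / c, by positivity, max 2 (⌈2 / c⌉₊ + 1), ?_⟩
  intro n hn G hE hW
  have hn2 : 2 ≤ n := le_trans (le_max_left _ _) hn
  have hnc : 2 / c ≤ (n : ℝ) := by
    have h1 : ⌈2 / c⌉₊ + 1 ≤ n := le_trans (le_max_right _ _) hn
    have h2 : (2 / c) ≤ (⌈2 / c⌉₊ : ℝ) := Nat.le_ceil _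
    have h3 : ((⌈2 / c⌉₊ : ℕ) : ℝ) + 1 ≤ n := by exact_mod_cast h1
    linarith
  have hn0 : (0 : ℝ) < n := by
    have : 0 < n := by omega
    exact_mod_cast this
  have hn1 : (1 : ℝ) ≤ n := by
    have : 1 ≤ n := by omega
    exact_mod_cast this
  have hcn : 2 ≤ c * (n : ℝ) ^ 2 := by
    have h1 : 2 ≤ c * n := by
      rw [div_le_iff₀ hc] at hnc
      linarith
    nlinarith
  have hindu : ind (Finset.univ : Finset (Fin n)) = fun _ => (1 : ℝ) := by
    funext v
    simp [ind]
  have hset : {e : Sym2 (Fin n) | e ∈ G.edgeSet ∧ ∀ v ∈ e, v ∈ (Finset.univ : Finset (Fin n))} =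
      G.edgeSet := by
    ext e
    simp
  have hform := form_eq G (Finset.univ : Finset (Fin n))
  rw [hset, hE] at hform
  have hfl1 : ((⌊c * (n : ℝ) ^ 2⌋₊ : ℕ) : ℝ) ≤ c * (n : ℝ) ^ 2 := Nat.floor_le (by positivity)
  have hfl2 : c * (n : ℝ) ^ 2 < ((⌊c * (n : ℝ) ^ 2⌋₊ : ℕ) : ℝ) + 1 := Nat.lt_floor_add_one _
  have hcard : Fintype.card (Fin n) = n := Fintype.card_fin n
  obtain ⟨t, -, ht⟩ := H (Fin n) G Finset.univ (by rw [hcard]; omega) (by
    intro f hf
    have h1 := almost_psd (A := adj G) (adj_comm G) (adj_self G) (adj_nonneg G) (adj_le_one G)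
      (by rw [hcard]; exact hn2) c s hs0 hs1 (by
        rw [← hindu, hform, hcard]
        linarith) (by
        intro W hWc
        rw [hcard] at hWc
        have h2 := hW W hWc
        rw [form_eq, hcard]
        have h3 : (1 - 2 * s ^ 2 / c) * c * ((n : ℝ) / 2) ^ 2 = (c / 4 - s ^ 2 / 2) * (n : ℝ) ^ 2 := by
          field_simp
          ring
        rw [h3] at h2
        linarith) f hf
    refine le_trans ?_ h1
    apply mul_le_mul_of_nonneg_right _ (sq_nonneg _)
    linarith) (by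
    rw [hform, hcard]
    linarith)
  exact ⟨t, ht⟩

end Pool.Agent.S07091
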