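import Pool.Statements.S08268

set_option autoImplicit false
open Pool Pool.MP_3df3be_co

namespace Pool.Agent.S08268

section aux

variable {L : Fin 8 → Fin 8 → Fin 8}

/-- a row of a subsquare contains every symbol of the subsquare -/
lemma row_surj (hr : ∀ i, Function.Bijective (L i)) {R C S : Finset (Fin 8)}
    (h1 : C.card = S.card) (h : ∀ r ∈ R, ∀ c ∈ C, L r c ∈ S) {r : Fin 8} (hrR : r ∈ R)
    {s : Fin 8} (hs : s ∈ S) : ∃ c ∈ C, L r c = s := by
  have himg : C.image (L r) = S := by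
    apply Finset.eq_of_subset_of_card_le
    · intro x hx
      obtain ⟨c, hc, rfl⟩ := Finset.mem_image.1 hx
      exact h r hrR c hc
    · rw [Finset.card_image_of_injective _ (hr r).1, h1]
  rw [← himg] at hs
  obtain ⟨c, hc, hcs⟩ := Finset.mem_image.1 hs
  exact ⟨c, hc, hcs⟩

/-- a column of a subsquare contains every symbol of the subsquare -/
lemma col_surj (hc : ∀ j, Function.Bijective (fun i => L i j)) {R C S : Finset (Fin 8)}
    (h1 : R.card = S.card) (h : ∀ r ∈ R, ∀ c ∈ C, L r c ∈ S) {c : Fin 8} (hcC : c ∈ C)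
    {s : Fin 8} (hs : s ∈ S) : ∃ r ∈ R, L r c = s := by
  have himg : R.image (fun i => L i c) = S := by
    apply Finset.eq_of_subset_of_card_le
    · intro x hx
      obtain ⟨r, hr, rfl⟩ := Finset.mem_image.1 hx
      exact h r hr c hcC
    · rw [Finset.card_image_of_injective _ (hc c).1, h1]
  rw [← himg] at hs
  obtain ⟨r, hr, hrs⟩ := Finset.mem_image.1 hs
  exact ⟨r, hr, hrs⟩

lemma out_row (hc : ∀ j, Function.Bijective (fun i => L i j)) {R C S : Finset (Fin 8)}
    (h1 : R.card = S.card) (h : ∀ r ∈ R, ∀ c ∈ C, L r c ∈ S) {r c : Fin 8} (hr : r ∉ R)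
    (hcC : c ∈ C) : L r c ∉ S := by
  intro hs
  obtain ⟨r', hr', he⟩ := col_surj hc h1 h hcC hs
  exact hr ((hc c).1 he ▸ hr')

lemma out_col (hr : ∀ i, Function.Bijective (L i)) {R C S : Finset (Fin 8)}
    (h1 : C.card = S.card) (h : ∀ r ∈ R, ∀ c ∈ C, L r c ∈ S) {r c : Fin 8} (hrR : r ∈ R)
    (hcC : c ∉ C) : L r c ∉ S := by
  intro hs
  obtain ⟨c', hc', he⟩ := row_surj hr h1 h hrR hs
  exact hcC ((hr r).1 he ▸ hc')

/-- a subsquare of order `4` splits a latin square of order `8` into four subsquares -/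
lemma parity (hr : ∀ i, Function.Bijective (L i)) (hc : ∀ j, Function.Bijective (fun i => L i j))
    {R C S : Finset (Fin 8)} (hR : R.card = 4) (hC : C.card = 4) (hS : S.card = 4)
    (h : ∀ r ∈ R, ∀ c ∈ C, L r c ∈ S) (r c : Fin 8) : L r c ∈ S ↔ (r ∈ R ↔ c ∈ C) := by
  by_cases h1 : r ∈ R <;> by_cases h2 : c ∈ C
  · simp [h1, h2, h r h1 c h2]
  · simp [h1, h2, out_col hr (by rw [hC, hS]) h h1 h2]
  · simp [h1, h2, out_row hc (by rw [hR, hS]) h h1 h2]
  · simp only [h1, h2, iff_self, iff_true]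
    -- the row `r` maps `C` onto the complement of `S`
    have hsub : ∀ x ∈ C, L r x ∈ Sᶜ := fun x hx => by
      rw [Finset.mem_compl]; exact out_row hc (by rw [hR, hS]) h h1 hx
    have hcard : C.card = (Sᶜ).card := by
      rw [Finset.card_compl, hC, hS]; rfl
    by_contra hcon
    have hmem : L r c ∈ Sᶜ := by rw [Finset.mem_compl]; exact hcon
    obtain ⟨c', hc', he⟩ := row_surj (R := {r}) hr hcard
      (fun r' hr' x hx => by rw [Finset.mem_singleton] at hr'; subst hr'; exact hsub x hx)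
      (Finset.mem_singleton_self r) hmem
    exact h2 ((hr r).1 he ▸ hc')

/-- symmetric counting: in a subsquare of order `3` all rows lie on the same side -/
lemma side_row (hr : ∀ i, Function.Bijective (L i))
    {R C S : Finset (Fin 8)} (hp : ∀ r c : Fin 8, L r c ∈ S ↔ (r ∈ R ↔ c ∈ C))
    {R' C' S' : Finset (Fin 8)} (hC' : C'.card = 3) (hS' : S'.card = 3)
    (h' : ∀ r ∈ R', ∀ c ∈ C', L r c ∈ S') {r1 r2 : Fin 8} (h1 : r1 ∈ R') (h2 : r2 ∈ R')
    (h1R : r1 ∈ R) (h2R : r2 ∉ R) : False := by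
  classical
  have himg : ∀ r ∈ R', C'.image (L r) = S' := by
    intro r hrR
    apply Finset.eq_of_subset_of_card_le
    · intro x hx
      obtain ⟨c, hc, rfl⟩ := Finset.mem_image.1 hx
      exact h' r hrR c hc
    · rw [Finset.card_image_of_injective _ (hr r).1, hC', hS']
  have e1 : (C'.filter (fun c => c ∈ C)).card = (S'.filter (fun s => s ∈ S)).card := by
    rw [← himg r1 h1, Finset.filter_image, Finset.card_image_of_injective _ (hr r1).1]
    congr 1
    apply Finset.filter_congr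
    intro c _
    rw [hp]
    simp [h1R]
  have e2 : (C'.filter (fun c => ¬ c ∈ C)).card = (S'.filter (fun s => s ∈ S)).card := by
    rw [← himg r2 h2, Finset.filter_image, Finset.card_image_of_injective _ (hr r2).1]
    congr 1
    apply Finset.filter_congr
    intro c _
    rw [hp]
    simp [h2R]
  have e3 := Finset.card_filter_add_card_filter_not (s := C') (fun c => c ∈ C)
  omega

lemma final (hr : ∀ i, Function.Bijective (L i)) (hc : ∀ j, Function.Bijective (fun i => L i j))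
    {R C S : Finset (Fin 8)} (hR : R.card = 4) (hC : C.card = 4) (hS : S.card = 4)
    (h : ∀ r ∈ R, ∀ c ∈ C, L r c ∈ S)
    {R' C' S' : Finset (Fin 8)} (hR' : R'.card = 3) (hC' : C'.card = 3) (hS' : S'.card = 3)
    (h' : ∀ r ∈ R', ∀ c ∈ C', L r c ∈ S') : False := by
  classical
  have hp := parity hr hc hR hC hS h
  -- all rows of the small square on one side
  have hrow : ∀ r1 ∈ R', ∀ r2 ∈ R', (r1 ∈ R ↔ r2 ∈ R) := by
    intro r1 h1 r2 h2
    by_contra hcon
    by_cases h3 : r1 ∈ R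
    · exact side_row hr hp hC' hS' h' h1 h2 h3 (fun h4 => hcon (by simp [h3, h4]))
    · exact side_row hr hp hC' hS' h' h2 h1 (by by_contra h4; exact hcon (by simp [h3, h4])) h3
  have hcol : ∀ c1 ∈ C', ∀ c2 ∈ C', (c1 ∈ C ↔ c2 ∈ C) := by
    have hp' : ∀ c r : Fin 8, (fun i j => L j i) c r ∈ S ↔ (c ∈ C ↔ r ∈ R) := by
      intro c r
      show L r c ∈ S ↔ _
      rw [hp]; exact Iff.comm
    have h'' : ∀ c ∈ C', ∀ r ∈ R', (fun i j => L j i) c r ∈ S' := fun c hc r hr => h' r hr c hc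
    intro c1 h1 c2 h2
    by_contra hcon
    by_cases h3 : c1 ∈ C
    · exact side_row (L := fun i j => L j i) hc hp' hR' hS' h'' h1 h2 h3
        (fun h4 => hcon (by simp [h3, h4]))
    · exact side_row (L := fun i j => L j i) hc hp' hR' hS' h'' h2 h1
        (by by_contra h4; exact hcon (by simp [h3, h4])) h3
  obtain ⟨r1, hr1⟩ : R'.Nonempty := Finset.card_pos.1 (by omega)
  obtain ⟨c1, hc1⟩ : C'.Nonempty := Finset.card_pos.1 (by omega)
  -- the side `A` of the rows, the side `D` of the symbols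
  obtain ⟨A, hA, hAR⟩ : ∃ A : Finset (Fin 8), A.card = 4 ∧ ∀ r, r ∈ A ↔ (r ∈ R ↔ r1 ∈ R) := by
    by_cases h3 : r1 ∈ R
    · exact ⟨R, hR, fun r => by simp [h3]⟩
    · exact ⟨Rᶜ, by rw [Finset.card_compl, hR]; rfl, fun r => by simp [h3]⟩
  obtain ⟨D, hD, hDS⟩ : ∃ D : Finset (Fin 8), D.card = 4 ∧
      ∀ s, s ∈ D ↔ (s ∈ S ↔ L r1 c1 ∈ S) := by
    by_cases h3 : L r1 c1 ∈ S
    · exact ⟨S, hS, fun s => by simp [h3]⟩
    · exact ⟨Sᶜ, by rw [Finset.card_compl, hS]; rfl, fun s => by simp [h3]⟩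
  have hsub : R' ⊆ A := fun r hrR => by rw [hAR]; exact hrow r hrR r1 hr1
  have hLD : ∀ r ∈ A, ∀ c ∈ C', L r c ∈ D := by
    intro r hrA c hcC
    rw [hDS, hp, hp]
    have e1 := (hAR r).1 hrA
    have e2 := hcol c hcC c1 hc1
    tauto
  have hSD : S' ⊆ D := by
    intro s hs
    obtain ⟨c, hcC, he⟩ := row_surj hr (by rw [hC', hS']) h' hr1 hs
    rw [← he]
    exact hLD r1 (hsub hr1) c hcC
  obtain ⟨r0, hr0, hr0'⟩ : ∃ r0 ∈ A, r0 ∉ R' := by
    by_contra hcon
    push Not at hcon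
    have := Finset.card_le_card (show A ⊆ R' from hcon)
    omega
  have himg : C'.image (L r0) ⊆ D \ S' := by
    intro x hx
    obtain ⟨c, hcC, rfl⟩ := Finset.mem_image.1 hx
    rw [Finset.mem_sdiff]
    exact ⟨hLD r0 hr0 c hcC, out_row hc (by rw [hR', hS']) h' hr0' hcC⟩
  have h5 := Finset.card_le_card himg
  rw [Finset.card_image_of_injective _ (hr r0).1, Finset.card_sdiff_of_subset hSD, hC', hD, hS'] at h5
  omega

end aux

/-- The negation of the preceding statement: For every n there is a latin square of order n such that, for each m with 1 ≤ m and 2m ≤ n, some m rows and m columns meet in an m×m subarray using only m symbols, i.e. a latin subsquare of order m. -/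
theorem result :
    ¬ (∀ n : ℕ, ∃ L : Fin n → Fin n → Fin n,
      (∀ i : Fin n, Function.Bijective (L i)) ∧
      (∀ j : Fin n, Function.Bijective (fun i : Fin n => L i j)) ∧
      ∀ m : ℕ, 1 ≤ m → 2 * m ≤ n →
        ∃ R C S : Finset (Fin n),
          R.card = m ∧ C.card = m ∧ S.card = m ∧
          ∀ r ∈ R, ∀ c ∈ C, L r c ∈ S) := by
  intro hall
  obtain ⟨L, hr, hc, hm⟩ := hall 8
  obtain ⟨R, C, S, hR, hC, hS, h⟩ := hm 4 (by norm_num) (by norm_num)
  obtain ⟨R', C', S', hR', hC', hS', h'⟩ := hm 3 (by norm_num) (by norm_num)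
  exact final hr hc hR hC hS h hR' hC' hS' h'

end Pool.Agent.S08268
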