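import Pool.Statements.S08467
import Pool.Agent.Results.MP_45c2e2_co.TwoThirds

set_option autoImplicit false
open Pool Pool.MP_45c2e2_co

namespace Pool.Agent.S08467

open Module in
theorem exists_extend {V : Type*} [AddCommGroup V] [Module ℝ V] [FiniteDimensional ℝ V]
    (k : ℕ) : ∀ W : Submodule ℝ V, finrank ℝ W + k ≤ finrank ℝ V →
      ∃ W' : Submodule ℝ V, W ≤ W' ∧ finrank ℝ W' = finrank ℝ W + k := by
  induction k with
  | zero => exact fun W _ => ⟨W, le_refl _, rfl⟩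
  | succ k ih =>
    intro W hW
    obtain ⟨W', h1, h2⟩ := ih W (by omega)
    have hne : W' ≠ ⊤ := by
      rintro rfl
      rw [finrank_top] at h2
      omega
    obtain ⟨v, hv⟩ : ∃ v, v ∉ W' := by
      by_contra hc
      push Not at hc
      exact hne (Submodule.eq_top_iff'.mpr hc)
    refine ⟨W' ⊔ Submodule.span ℝ {v}, h1.trans le_sup_left, ?_⟩
    have h3 := Submodule.finrank_sup_add_finrank_inf_eq W' (Submodule.span ℝ {v})
    have hv0 : v ≠ 0 := fun h => hv (h ▸ W'.zero_mem)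
    have h4 : W' ⊓ Submodule.span ℝ {v} = ⊥ := by
      rw [Submodule.eq_bot_iff]
      rintro x ⟨hx1, hx2⟩
      obtain ⟨c, rfl⟩ := Submodule.mem_span_singleton.mp hx2
      by_contra hc
      have hc0 : c ≠ 0 := fun h => hc (by rw [h, zero_smul])
      apply hv
      have := W'.smul_mem c⁻¹ hx1
      rwa [smul_smul, inv_mul_cancel₀ hc0, one_smul] at this
    rw [h4, finrank_bot, finrank_span_singleton hv0, h2] at h3
    omega

open Module Pool.Agent.Results.MP_45c2e2_co.TwoThirds in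
theorem not_coplanar_of_noFive {d : ℕ} (hd : 2 ≤ d) (A : Finset (Fin d → ℤ))
    (hA : NoFive (A : Set (Fin d → ℤ))) (S : Finset (Fin d → ℤ)) (hS : S ⊆ A) (hc : S.card = 5) :
    ¬ Coplanar ℝ ((fun a : Fin d → ℤ => (fun i => (a i : ℝ))) '' (S : Set (Fin d → ℤ))) := by
  intro hcop
  obtain ⟨T, hT⟩ : ∃ T, T = (fun a : Fin d → ℤ => (fun i => (a i : ℝ))) '' (S : Set (Fin d → ℤ)) :=
    ⟨_, rfl⟩
  rw [← hT] at hcop
  have hne : S.Nonempty := Finset.card_pos.mp (by omega)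
  obtain ⟨a, ha⟩ := hne
  obtain ⟨p, hp⟩ : ∃ p : Fin d → ℝ, p = fun i => (a i : ℝ) := ⟨_, rfl⟩
  have hpT : p ∈ T := by rw [hT, hp]; exact ⟨a, ha, rfl⟩
  have h1 : finrank ℝ (vectorSpan ℝ T) ≤ 2 := by
    have : Module.rank ℝ (vectorSpan ℝ T) ≤ 2 := hcop
    exact Module.finrank_le_of_rank_le (by exact_mod_cast this)
  obtain ⟨W, hW1, hW2⟩ := exists_extend (2 - finrank ℝ (vectorSpan ℝ T)) (vectorSpan ℝ T) (by
    rw [Module.finrank_fin_fun]
    omega)
  have h2 := hA (AffineSubspace.mk' p W) (by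
    rw [AffineSubspace.direction_mk', hW2]
    omega)
  have h3 : (S : Set (Fin d → ℤ)) ⊆
      {a | a ∈ (A : Set (Fin d → ℤ)) ∧ (fun i => (a i : ℝ)) ∈ AffineSubspace.mk' p W} := by
    intro b hb
    refine ⟨hS hb, ?_⟩
    rw [AffineSubspace.mem_mk']
    apply hW1
    exact vsub_mem_vectorSpan ℝ (by rw [hT]; exact ⟨b, hb, rfl⟩) hpT
  have h4 := (Set.encard_le_encard h3).trans h2
  rw [Set.encard_coe_eq_coe_finsetCard, hc] at h4
  exact absurd h4 (by norm_num)

open Pool.Agent.Results.MP_45c2e2_co.TwoThirds in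
theorem r_attained (d N : ℕ) : ∃ A : Finset (Fin d → ℤ), (∀ a ∈ A, ∀ i, 1 ≤ a i ∧ a i ≤ N) ∧
    NoFive (A : Set (Fin d → ℤ)) ∧ A.card = r d N := by
  have := Nat.sSup_mem (s := {n | ∃ A : Finset (Fin d → ℤ), (∀ a ∈ A, ∀ i, 1 ≤ a i ∧ a i ≤ N) ∧
    NoFive (A : Set (Fin d → ℤ)) ∧ A.card = n}) ⟨0, ∅, by simp, by
      intro P _
      simp, rfl⟩ (r_bdd d N)
  exact this

/-- There is a dimension d > 100 such that for all large N, some subset of the grid {1..N}^d with at least N^(d-100) points has no 5 distinct points on a common 2-plane. -/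
theorem result :
    ∃ d : ℕ, 100 < d ∧ ∃ N₀ : ℕ, ∀ N : ℕ, N₀ ≤ N →
      ∃ A : Finset (Fin d → ℝ),
        (∀ x ∈ A, ∀ i : Fin d, ∃ k : ℕ, 1 ≤ k ∧ k ≤ N ∧ x i = (k : ℝ)) ∧
        (∀ S : Finset (Fin d → ℝ), S ⊆ A → S.card = 5 →
          ¬ Coplanar ℝ (S : Set (Fin d → ℝ))) ∧
        N ^ (d - 100) ≤ A.card := by
  classical
  obtain ⟨N₀, h⟩ := Pool.Agent.Results.MP_45c2e2_co.TwoThirds.result.2 101 (by norm_num)
  refine ⟨101, by norm_num, N₀, fun N hN => ?_⟩
  obtain ⟨A, hA1, hA2, hA3⟩ := r_attained 101 N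
  have hinj : Function.Injective (fun a : Fin 101 → ℤ => (fun i => (a i : ℝ))) := by
    intro a b hab
    funext i
    have := congrFun hab i
    simpa using this
  refine ⟨A.image (fun a : Fin 101 → ℤ => (fun i => (a i : ℝ))), ?_, ?_, ?_⟩
  · intro x hx i
    obtain ⟨a, ha, rfl⟩ := Finset.mem_image.mp hx
    obtain ⟨h1, h2⟩ := hA1 a ha i
    refine ⟨(a i).toNat, by omega, by omega, ?_⟩
    have h3 : ((a i).toNat : ℤ) = a i := Int.toNat_of_nonneg (by omega)
    show ((a i : ℤ) : ℝ) = (((a i).toNat : ℕ) : ℝ)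
    exact_mod_cast (congrArg (Int.cast : ℤ → ℝ) h3).symm
  · intro S hS hc
    obtain ⟨T, hT1, rfl⟩ := Finset.subset_image_iff.mp hS
    rw [Finset.card_image_of_injective _ hinj] at hc
    rw [Finset.coe_image]
    exact not_coplanar_of_noFive (by norm_num) A hA2 T (by exact_mod_cast hT1) hc
  · rw [Finset.card_image_of_injective _ hinj, hA3]
    have h1 := h N hN
    have h2 : ((101 : ℕ) : ℝ) - 100 = ((101 - 100 : ℕ) : ℝ) := by norm_num
    rw [h2, Real.rpow_natCast] at h1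
    exact_mod_cast h1

end Pool.Agent.S08467
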