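import Pool.Statements.S08686

set_option autoImplicit false
open Pool Pool.MP_4e7ec3_co

namespace Pool.Agent.S08686

/-- the six points `0, 1/10, 1/5, 4/5, 9/10, 1` -/
noncomputable def F : Finset ℝ := {0, 1 / 10, 1 / 5, 4 / 5, 9 / 10, 1}

/-- `0 ↦ 1/10`, `1/10 ↦ 0`, `1/5 ↦ 0`, `4/5 ↦ 1`, `9/10 ↦ 1`, `1 ↦ 9/10` -/
noncomputable def T (p : ℝ) : ℝ :=
  if p = 0 then 1 / 10 else if p ≤ 1 / 5 then 0 else if p = 1 then 9 / 10 else 1

theorem mem_F {p : ℝ} : p ∈ F ↔ p = 0 ∨ p = 1 / 10 ∨ p = 1 / 5 ∨ p = 4 / 5 ∨ p = 9 / 10 ∨ p = 1 := by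
  simp [F]

theorem T0 : T 0 = 1 / 10 := by simp [T]
theorem T1 : T (1 / 10) = 0 := by norm_num [T]
theorem T2 : T (1 / 5) = 0 := by norm_num [T]
theorem T3 : T (4 / 5) = 1 := by norm_num [T]
theorem T4 : T (9 / 10) = 1 := by norm_num [T]
theorem T5 : T 1 = 9 / 10 := by norm_num [T]

/-- one permissible step does not leave the lower half -/
theorem step_low {p q : ℝ} (hp : p ∈ F) (hp' : p ≤ 1 / 5)
    (h : q = T p ∨ (q ∈ F ∧ q < T p ∧ ∀ r ∈ F, r < T p → r ≤ q) ∨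
      (q ∈ F ∧ T p < q ∧ ∀ r ∈ F, T p < r → q ≤ r)) : q ∈ F ∧ q ≤ 1 / 5 := by
  have hT : T p = 0 ∨ T p = 1 / 10 := by
    rcases mem_F.1 hp with rfl | rfl | rfl | rfl | rfl | rfl
    · exact Or.inr T0
    · exact Or.inl T1
    · exact Or.inl T2
    all_goals norm_num at hp'
  rcases h with h | ⟨h1, h2, -⟩ | ⟨h1, h2, h3⟩
  · rw [h]
    rcases hT with hT | hT <;> rw [hT] <;> refine ⟨mem_F.2 ?_, ?_⟩ <;> norm_num
  · refine ⟨h1, ?_⟩
    rcases hT with hT | hT <;> rw [hT] at h2 <;> linarith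
  · refine ⟨h1, ?_⟩
    apply h3 _ (mem_F.2 (by norm_num))
    rcases hT with hT | hT <;> rw [hT] <;> norm_num

/-- one permissible step does not leave the upper half -/
theorem step_high {p q : ℝ} (hp : p ∈ F) (hp' : 4 / 5 ≤ p)
    (h : q = T p ∨ (q ∈ F ∧ q < T p ∧ ∀ r ∈ F, r < T p → r ≤ q) ∨
      (q ∈ F ∧ T p < q ∧ ∀ r ∈ F, T p < r → q ≤ r)) : q ∈ F ∧ 4 / 5 ≤ q := by
  have hT : T p = 1 ∨ T p = 9 / 10 := by
    rcases mem_F.1 hp with rfl | rfl | rfl | rfl | rfl | rfl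
    · norm_num at hp'
    · norm_num at hp'
    · norm_num at hp'
    · exact Or.inl T3
    · exact Or.inl T4
    · exact Or.inr T5
  rcases h with h | ⟨h1, h2, h3⟩ | ⟨h1, h2, -⟩
  · rw [h]
    rcases hT with hT | hT <;> rw [hT] <;> refine ⟨mem_F.2 ?_, ?_⟩ <;> norm_num
  · refine ⟨h1, ?_⟩
    apply h3 _ (mem_F.2 (by norm_num))
    rcases hT with hT | hT <;> rw [hT] <;> norm_num
  · refine ⟨h1, ?_⟩
    rcases hT with hT | hT <;> rw [hT] at h2 <;> linarith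

/-- The negation of the preceding statement: There is a constant k such that for every finite F in [0,1] containing 0 and 1, every ε>0, and every T:F→F moving each point by more than ε, some p₀ in F reaches a point at distance at least 1/3 in at most k/ε steps, each step going to T(p) or a neighbour of T(p) in F. -/
theorem result :
    ¬ (∃ k : ℝ, ∀ (F : Finset ℝ) (ε : ℝ) (T : ℝ → ℝ),
      (∀ p ∈ F, 0 ≤ p ∧ p ≤ 1) → (0 : ℝ) ∈ F → (1 : ℝ) ∈ F → 0 < ε →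
      (∀ p ∈ F, T p ∈ F ∧ ε < |p - T p|) →
      ∃ p₀ ∈ F, ∃ n : ℕ, (n : ℝ) ≤ k / ε ∧
        ∃ x : ℕ → ℝ, x 0 = p₀ ∧
          (∀ i < n,
            x (i + 1) = T (x i) ∨
            (x (i + 1) ∈ F ∧ x (i + 1) < T (x i) ∧
              ∀ r ∈ F, r < T (x i) → r ≤ x (i + 1)) ∨
            (x (i + 1) ∈ F ∧ T (x i) < x (i + 1) ∧
              ∀ r ∈ F, T (x i) < r → x (i + 1) ≤ r)) ∧
          1 / 3 ≤ |x n - p₀|) := by
  rintro ⟨k, hk⟩
  obtain ⟨p₀, hp₀, n, -, x, hx0, hx, hn⟩ := hk F (1 / 20) T (by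
      intro p hp
      rcases mem_F.1 hp with rfl | rfl | rfl | rfl | rfl | rfl <;> norm_num)
    (mem_F.2 (by norm_num)) (mem_F.2 (by norm_num)) (by norm_num) (by
      intro p hp
      rcases mem_F.1 hp with rfl | rfl | rfl | rfl | rfl | rfl
      · rw [T0]; refine ⟨mem_F.2 (by norm_num), ?_⟩; rw [abs_of_neg] <;> norm_num
      · rw [T1]; refine ⟨mem_F.2 (by norm_num), ?_⟩; rw [abs_of_pos] <;> norm_num
      · rw [T2]; refine ⟨mem_F.2 (by norm_num), ?_⟩; rw [abs_of_pos] <;> norm_num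
      · rw [T3]; refine ⟨mem_F.2 (by norm_num), ?_⟩; rw [abs_of_neg] <;> norm_num
      · rw [T4]; refine ⟨mem_F.2 (by norm_num), ?_⟩; rw [abs_of_neg] <;> norm_num
      · rw [T5]; refine ⟨mem_F.2 (by norm_num), ?_⟩; rw [abs_of_pos] <;> norm_num)
  have hcases : p₀ ≤ 1 / 5 ∨ 4 / 5 ≤ p₀ := by
    rcases mem_F.1 hp₀ with rfl | rfl | rfl | rfl | rfl | rfl <;> norm_num
  have bounds : ∀ p ∈ F, 0 ≤ p ∧ p ≤ 1 := by
    intro p hp
    rcases mem_F.1 hp with rfl | rfl | rfl | rfl | rfl | rfl <;> norm_num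
  rcases hcases with h | h
  · have key : ∀ i ≤ n, x i ∈ F ∧ x i ≤ 1 / 5 := by
      intro i
      induction i with
      | zero => intro _; rw [hx0]; exact ⟨hp₀, h⟩
      | succ i ih =>
        intro hi
        obtain ⟨h1, h2⟩ := ih (by omega)
        exact step_low h1 h2 (hx i (by omega))
    obtain ⟨h1, h2⟩ := key n le_rfl
    have h3 := bounds _ h1
    have h4 := bounds _ hp₀
    have : |x n - p₀| ≤ 1 / 5 := abs_le.2 ⟨by linarith, by linarith⟩
    linarith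
  · have key : ∀ i ≤ n, x i ∈ F ∧ 4 / 5 ≤ x i := by
      intro i
      induction i with
      | zero => intro _; rw [hx0]; exact ⟨hp₀, h⟩
      | succ i ih =>
        intro hi
        obtain ⟨h1, h2⟩ := ih (by omega)
        exact step_high h1 h2 (hx i (by omega))
    obtain ⟨h1, h2⟩ := key n le_rfl
    have h3 := bounds _ h1
    have h4 := bounds _ hp₀
    have : |x n - p₀| ≤ 1 / 5 := abs_le.2 ⟨by linarith, by linarith⟩
    linarith

end Pool.Agent.S08686
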