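import Pool.Statements.S09613
import Pool.Agent.K4H76.ExtPerm2

set_option autoImplicit false
open Pool Pool.MP_78b1ee_co

namespace Pool.Agent.S09613

open Pool.Agent.K4H76.ExtPerm

/-- An insertion far from both ends destroys the shape up-up-down-down. -/
theorem mid_ext {T p : ℕ} (v : ℚ) (hp : 3 ≤ p) (hp2 : p + 2 ≤ 8 * T + 4)
    (hv : ∀ i ≤ 8 * T + 4, X T i ≠ v) :
    ∃ i ℓ, 2 ≤ ℓ ∧ i + 2 * ℓ ≤ 8 * T + 6 ∧ Sq (ins (X T) p v) i ℓ := by
  have two : ∀ i, (ins (X T) p v i < ins (X T) p v (i + 1) ∧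
        ins (X T) p v (i + 2) < ins (X T) p v (i + 3)) ∨
      (ins (X T) p v (i + 1) < ins (X T) p v i ∧
        ins (X T) p v (i + 3) < ins (X T) p v (i + 2)) → Sq (ins (X T) p v) i 2 := by
    rintro i (⟨h1, h2⟩ | ⟨h1, h2⟩)
    · exact sq_of_sorted _ _ _ [0, 1] (by decide) (by simpa using h1) (by simpa using h2)
    · exact sq_of_sorted _ _ _ [1, 0] (by decide) (by simpa using h1) (by simpa using h2)
  obtain ⟨q, rfl⟩ : ∃ q, p = q + 3 := ⟨p - 3, by omega⟩
  have b0 : ins (X T) (q + 3) v q = X T q := by simp [ins]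
  have b1 : ins (X T) (q + 3) v (q + 1) = X T (q + 1) := by simp [ins]
  have b2 : ins (X T) (q + 3) v (q + 2) = X T (q + 2) := by simp [ins]
  have b3 : ins (X T) (q + 3) v (q + 3) = v := by simp [ins]
  have b4 : ins (X T) (q + 3) v (q + 4) = X T (q + 3) := by simp [ins]
  have b5 : ins (X T) (q + 3) v (q + 5) = X T (q + 4) := by simp [ins]
  have b6 : ins (X T) (q + 3) v (q + 6) = X T (q + 5) := by simp [ins]
  have s0 := X_sig (T := T) (i := q) (by omega)
  have s1 := X_sig (T := T) (i := q + 1) (by omega)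
  have s3 := X_sig (T := T) (i := q + 3) (by omega)
  have s4 := X_sig (T := T) (i := q + 4) (by omega)
  have n0 : X T q ≠ X T (q + 1) := fun h => by
    have := X_inj (T := T) (by omega) (by omega) h; omega
  have n1 : X T (q + 1) ≠ X T (q + 2) := fun h => by
    have := X_inj (T := T) (by omega) (by omega) h; omega
  have n3 : X T (q + 3) ≠ X T (q + 4) := fun h => by
    have := X_inj (T := T) (by omega) (by omega) h; omega
  have n4 : X T (q + 4) ≠ X T (q + 5) := fun h => by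
    have := X_inj (T := T) (by omega) (by omega) h; omega
  have v2 := hv (q + 2) (by omega)
  have v3 := hv (q + 3) (by omega)
  have up0 : ∀ {a b : ℚ} {P : Prop}, (a < b ↔ P) → P → a < b := fun h hp => h.2 hp
  have dn0 : ∀ {a b : ℚ} {P : Prop}, (a < b ↔ P) → a ≠ b → ¬ P → b < a :=
    fun h hne hp => lt_of_le_of_ne (not_lt.1 fun hlt => hp (h.1 hlt)) hne.symm
  have hc : q % 4 = 0 ∨ q % 4 = 1 ∨ q % 4 = 2 ∨ q % 4 = 3 := by omega
  rcases hc with c | c | c | c
  · -- signs of `q, q+1, q+3, q+4`: up, down, up, up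
    rcases lt_or_gt_of_ne v3 with h | h
    · -- `v > x (q+3)`: the pairs `(q+1,q+2)` and `(v, q+3)` are both decreasing
      refine ⟨q + 1, 2, le_rfl, by omega, two _ (Or.inr ⟨?_, ?_⟩)⟩
      · show ins (X T) (q + 3) v (q + 2) < ins (X T) (q + 3) v (q + 1)
        rw [b1, b2]; exact dn0 s1 n1 (by omega)
      · show ins (X T) (q + 3) v (q + 4) < ins (X T) (q + 3) v (q + 3)
        rw [b3, b4]; exact h
    · refine ⟨q + 3, 2, le_rfl, by omega, two _ (Or.inl ⟨?_, ?_⟩)⟩
      · show ins (X T) (q + 3) v (q + 3) < ins (X T) (q + 3) v (q + 4)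
        rw [b3, b4]; exact h
      · show ins (X T) (q + 3) v (q + 5) < ins (X T) (q + 3) v (q + 6)
        rw [b5, b6]; exact up0 s4 (by omega)
  · -- down, down, up, down
    rcases lt_or_gt_of_ne v2 with h | h
    · -- `x (q+2) < v`
      refine ⟨q + 2, 2, le_rfl, by omega, two _ (Or.inl ⟨?_, ?_⟩)⟩
      · show ins (X T) (q + 3) v (q + 2) < ins (X T) (q + 3) v (q + 3)
        rw [b2, b3]; exact h
      · show ins (X T) (q + 3) v (q + 4) < ins (X T) (q + 3) v (q + 5)
        rw [b4, b5]; exact up0 s3 (by omega)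
    · refine ⟨q, 2, le_rfl, by omega, two _ (Or.inr ⟨?_, ?_⟩)⟩
      · rw [b0, b1]; exact dn0 s0 n0 (by omega)
      · rw [b2, b3]; exact h
  · -- down, up, down, down
    rcases lt_or_gt_of_ne v3 with h | h
    · refine ⟨q + 3, 2, le_rfl, by omega, two _ (Or.inr ⟨?_, ?_⟩)⟩
      · show ins (X T) (q + 3) v (q + 4) < ins (X T) (q + 3) v (q + 3)
        rw [b3, b4]; exact h
      · show ins (X T) (q + 3) v (q + 6) < ins (X T) (q + 3) v (q + 5)
        rw [b5, b6]; exact dn0 s4 n4 (by omega)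
    · refine ⟨q + 1, 2, le_rfl, by omega, two _ (Or.inl ⟨?_, ?_⟩)⟩
      · show ins (X T) (q + 3) v (q + 1) < ins (X T) (q + 3) v (q + 2)
        rw [b1, b2]; exact up0 s1 (by omega)
      · show ins (X T) (q + 3) v (q + 3) < ins (X T) (q + 3) v (q + 4)
        rw [b3, b4]; exact h
  · -- up, up, down, up
    rcases lt_or_gt_of_ne v2 with h | h
    · refine ⟨q, 2, le_rfl, by omega, two _ (Or.inl ⟨?_, ?_⟩)⟩
      · rw [b0, b1]; exact up0 s0 (by omega)
      · rw [b2, b3]; exact h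
    · refine ⟨q + 2, 2, le_rfl, by omega, two _ (Or.inr ⟨?_, ?_⟩)⟩
      · show ins (X T) (q + 3) v (q + 3) < ins (X T) (q + 3) v (q + 2)
        rw [b2, b3]; exact h
      · show ins (X T) (q + 3) v (q + 5) < ins (X T) (q + 3) v (q + 4)
        rw [b4, b5]; exact dn0 s3 n3 (by omega)

theorem right_ext {T p : ℕ} {v : ℚ} (hT : 20 ≤ T) (hp : 8 * T + 3 ≤ p) (hp2 : p ≤ 8 * T + 5)
    (hv : ∀ i ≤ 8 * T + 4, X T i ≠ v) :
    ∃ i ℓ, 2 ≤ ℓ ∧ i + 2 * ℓ ≤ 8 * T + 6 ∧ Sq (ins (X T) p v) i ℓ := by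
  obtain ⟨i, ℓ, h2, hi, hs⟩ := left_ext (T := T) (p := 8 * T + 5 - p) (v := -v) hT (by omega)
    (by
      intro i hi h
      refine hv (8 * T + 4 - i) (by omega) ?_
      rw [X_anti hi, h, neg_neg])
  have key : ∀ j, j ≤ 8 * T + 5 →
      ins (X T) p v (8 * T + 5 - j) = - ins (X T) (8 * T + 5 - p) (-v) j := by
    intro j hj
    unfold ins
    rcases lt_trichotomy j (8 * T + 5 - p) with h | h | h
    · rw [if_pos h, if_neg (by omega), if_neg (by omega)]
      rw [show 8 * T + 5 - j - 1 = 8 * T + 4 - j by omega, X_anti (by omega)]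
    · rw [if_neg (by omega : ¬ j < 8 * T + 5 - p), if_pos h, if_neg (by omega),
        if_pos (by omega), neg_neg]
    · rw [if_neg (by omega : ¬ j < 8 * T + 5 - p), if_neg (by omega : ¬ j = 8 * T + 5 - p),
        if_pos (by omega), show 8 * T + 5 - j = 8 * T + 4 - (j - 1) by omega, X_anti (by omega)]
  refine ⟨8 * T + 6 - i - 2 * ℓ, ℓ, h2, by omega, ?_⟩
  intro a ha b hb
  have e := hs (ℓ - 1 - b) (by omega) (ℓ - 1 - a) (by omega)
  have f1 : ∀ c, c < ℓ → ins (X T) p v (8 * T + 6 - i - 2 * ℓ + c) =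
      - ins (X T) (8 * T + 5 - p) (-v) (i + ℓ + (ℓ - 1 - c)) := by
    intro c hc
    rw [← key _ (by omega)]
    congr 1
    omega
  have f2 : ∀ c, c < ℓ → ins (X T) p v (8 * T + 6 - i - 2 * ℓ + ℓ + c) =
      - ins (X T) (8 * T + 5 - p) (-v) (i + (ℓ - 1 - c)) := by
    intro c hc
    rw [← key _ (by omega)]
    congr 1
    omega
  rw [f1 a ha, f1 b hb, f2 a ha, f2 b hb, neg_lt_neg_iff, neg_lt_neg_iff]
  exact e.symm

theorem all_ext {T p : ℕ} {v : ℚ} (hT : 20 ≤ T) (hp : p ≤ 8 * T + 5)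
    (hv : ∀ i ≤ 8 * T + 4, X T i ≠ v) :
    ∃ i ℓ, 2 ≤ ℓ ∧ i + 2 * ℓ ≤ 8 * T + 6 ∧ Sq (ins (X T) p v) i ℓ := by
  by_cases h1 : p ≤ 2
  · exact left_ext hT h1 hv
  by_cases h2 : p + 2 ≤ 8 * T + 4
  · exact mid_ext v (by omega) h2 hv
  · exact right_ext hT (by omega) hp hv

/-- the extremal permutation as a list -/
def W (T : ℕ) : List ℚ := (List.range (8 * T + 5)).map (X T)

theorem W_length (T : ℕ) : (W T).length = 8 * T + 5 := by simp [W]

theorem W_getD {T k : ℕ} (h : k < 8 * T + 5) : (W T).getD k 0 = X T k := by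
  rw [List.getD_eq_getElem _ _ (by rw [W_length]; exact h)]
  simp [W]

theorem ins_getD {T p k : ℕ} {v : ℚ} (hp : p ≤ 8 * T + 5) (h : k < 8 * T + 6) :
    ((W T).take p ++ v :: (W T).drop p).getD k 0 = ins (X T) p v k := by
  have hl : ((W T).take p).length = p := by rw [List.length_take, W_length]; omega
  unfold ins
  rcases lt_trichotomy k p with h1 | h1 | h1
  · rw [if_pos h1, List.getD_append _ _ _ _ (by rw [hl]; exact h1), ← W_getD (by omega)]
    rw [List.getD_eq_getElem _ _ (by rw [hl]; exact h1),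
      List.getD_eq_getElem _ _ (by rw [W_length]; omega), List.getElem_take]
  · rw [if_neg (by omega), if_pos h1, List.getD_append_right _ _ _ _ (by rw [hl]; omega), hl, h1,
      Nat.sub_self]
    rfl
  · rw [if_neg (by omega), if_neg (by omega), List.getD_append_right _ _ _ _ (by rw [hl]; omega),
      hl, ← W_getD (by omega)]
    obtain ⟨c, rfl⟩ : ∃ c, k = p + c + 1 := ⟨k - p - 1, by omega⟩
    rw [show p + c + 1 - p = c + 1 by omega, show p + c + 1 - 1 = p + c by omega,
      List.getD_cons_succ]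
    rw [List.getD_eq_getElem _ _ (by rw [List.length_drop, W_length]; omega),
      List.getD_eq_getElem _ _ (by rw [W_length]; omega), List.getElem_drop]

/-- For every N there is a list of distinct rationals of length at least N with no two adjacent order-isomorphic blocks of length at least 2, such that inserting any new value at any position creates such a pair. -/
theorem result :
    ∀ N : ℕ, ∃ w : List ℚ, N ≤ w.length ∧ w.Nodup ∧
      (¬ ∃ i ℓ : ℕ, 2 ≤ ℓ ∧ i + 2 * ℓ ≤ w.length ∧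
          ∀ a < ℓ, ∀ b < ℓ,
            (w.getD (i + a) 0 < w.getD (i + b) 0 ↔
              w.getD (i + ℓ + a) 0 < w.getD (i + ℓ + b) 0)) ∧
      ∀ p : ℕ, p ≤ w.length → ∀ x : ℚ, x ∉ w →
        ∃ i ℓ : ℕ, 2 ≤ ℓ ∧ i + 2 * ℓ ≤ w.length + 1 ∧
          ∀ a < ℓ, ∀ b < ℓ,
            ((w.take p ++ x :: w.drop p).getD (i + a) 0 <
                (w.take p ++ x :: w.drop p).getD (i + b) 0 ↔
              (w.take p ++ x :: w.drop p).getD (i + ℓ + a) 0 <
                (w.take p ++ x :: w.drop p).getD (i + ℓ + b) 0) := by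
  intro N
  refine ⟨W (N + 20), ?_, ?_, ?_, ?_⟩
  · rw [W_length]; omega
  · unfold W
    refine List.Nodup.map_on ?_ List.nodup_range
    intro a ha b hb h
    rw [List.mem_range] at ha hb
    exact X_inj (by omega) (by omega) h
  · rintro ⟨i, ℓ, h2, hi, hs⟩
    rw [W_length] at hi
    refine X_sqfree (T := N + 20) (by omega) h2 hi ?_
    intro a ha b hb
    have := hs a ha b hb
    rw [W_getD (by omega), W_getD (by omega), W_getD (by omega), W_getD (by omega)] at this
    exact this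
  · intro p hp x hx
    rw [W_length] at hp ⊢
    obtain ⟨i, ℓ, h2, hi, hs⟩ := all_ext (T := N + 20) (p := p) (v := x) (by omega) hp (by
      intro i hi h
      apply hx
      rw [← h]
      exact List.mem_map_of_mem (List.mem_range.2 (by omega)))
    refine ⟨i, ℓ, h2, by omega, ?_⟩
    intro a ha b hb
    have := hs a ha b hb
    rw [ins_getD hp (by omega), ins_getD hp (by omega), ins_getD hp (by omega),
      ins_getD hp (by omega)]
    exact this

end Pool.Agent.S09613
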