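import Pool.Statements.S12060
import Pool.Agent.K4H89.CuspFrozen

set_option autoImplicit false
open Pool Pool.MP_e3c312_co

open Pool.Agent.K4H89.CuspFrozen Pool.Agent.Results.MP_e3c312_co.CuspSymmetry

namespace Pool.Agent.S12060

/-- The negation of the preceding statement: For any Γ-symmetric framework in ℝ^d, every expansive motion tracing one half-branch of a neighbourhood of [p] homeomorphic to an interval in the configuration space mod isometries can be moved by continuous isometries so it stays Γ-symmetric. -/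
theorem result :
    ¬ (∀ (d : ℕ) (V : Type) [Fintype V] (G : SimpleGraph V) (p : V → EuclideanSpace ℝ (Fin d))
    (Γ : Subgroup (EuclideanSpace ℝ (Fin d) ≃ᵢ EuclideanSpace ℝ (Fin d))) [Finite Γ]
    (θ : Γ →* Equiv.Perm V),
    (∀ γ : Γ, ∀ u v : V, G.Adj u v ↔ G.Adj (θ γ u) (θ γ v)) →
    (∀ γ : Γ, ∀ i : V,
      (γ : EuclideanSpace ℝ (Fin d) ≃ᵢ EuclideanSpace ℝ (Fin d)) (p i) = p (θ γ i)) →
    ∀ m : ℝ → V → EuclideanSpace ℝ (Fin d),
      ContinuousOn m (Set.Icc 0 1) → m 0 = p →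
      (∀ t ∈ Set.Icc (0:ℝ) 1, ∀ i j : V, G.Adj i j → dist (m t i) (m t j) = dist (p i) (p j)) →
      (∀ i j : V, MonotoneOn (fun t => dist (m t i) (m t j)) (Set.Icc (0:ℝ) 1)) →
      (∃ t ∈ Set.Icc (0:ℝ) 1, ∃ i j : V, dist (m t i) (m t j) ≠ dist (p i) (p j)) →
      Set.InjOn (fun t => Quot.mk (fun q q' : V → EuclideanSpace ℝ (Fin d) =>
          ∃ T : EuclideanSpace ℝ (Fin d) ≃ᵢ EuclideanSpace ℝ (Fin d), ∀ i, T (q i) = q' i) (m t))
        (Set.Icc (0:ℝ) 1) →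
      (∃ O : Set (Quot (fun q q' : V → EuclideanSpace ℝ (Fin d) =>
          ∃ T : EuclideanSpace ℝ (Fin d) ≃ᵢ EuclideanSpace ℝ (Fin d), ∀ i, T (q i) = q' i)),
        IsOpen O ∧
        ∃ h : ↥(O ∩ {x : Quot (fun q q' : V → EuclideanSpace ℝ (Fin d) =>
              ∃ T : EuclideanSpace ℝ (Fin d) ≃ᵢ EuclideanSpace ℝ (Fin d), ∀ i, T (q i) = q' i) |
              ∃ q : V → EuclideanSpace ℝ (Fin d),
                Quot.mk (fun q q' : V → EuclideanSpace ℝ (Fin d) =>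
                  ∃ T : EuclideanSpace ℝ (Fin d) ≃ᵢ EuclideanSpace ℝ (Fin d), ∀ i, T (q i) = q' i) q = x ∧
                ∀ i j : V, G.Adj i j → dist (q i) (q j) = dist (p i) (p j)}) ≃ₜ ↥(Set.Ioo (0:ℝ) 1),
        ∃ a : Set.Ioo (0:ℝ) 1,
          (h.symm a).1 = Quot.mk (fun q q' : V → EuclideanSpace ℝ (Fin d) =>
            ∃ T : EuclideanSpace ℝ (Fin d) ≃ᵢ EuclideanSpace ℝ (Fin d), ∀ i, T (q i) = q' i) p ∧
          ((∀ t ∈ Set.Ioc (0:ℝ) 1, ∃ b : Set.Ioo (0:ℝ) 1,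
              (h.symm b).1 = Quot.mk (fun q q' : V → EuclideanSpace ℝ (Fin d) =>
                ∃ T : EuclideanSpace ℝ (Fin d) ≃ᵢ EuclideanSpace ℝ (Fin d), ∀ i, T (q i) = q' i) (m t) ∧
              (a : ℝ) < (b : ℝ)) ∨
           (∀ t ∈ Set.Ioc (0:ℝ) 1, ∃ b : Set.Ioo (0:ℝ) 1,
              (h.symm b).1 = Quot.mk (fun q q' : V → EuclideanSpace ℝ (Fin d) =>
                ∃ T : EuclideanSpace ℝ (Fin d) ≃ᵢ EuclideanSpace ℝ (Fin d), ∀ i, T (q i) = q' i) (m t) ∧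
              (b : ℝ) < (a : ℝ)))) →
      ∃ T : ℝ → (EuclideanSpace ℝ (Fin d) ≃ᵢ EuclideanSpace ℝ (Fin d)),
        (∀ x, T 0 x = x) ∧
        (∀ x, ContinuousOn (fun t => T t x) (Set.Icc (0:ℝ) 1)) ∧
        ∀ t ∈ Set.Icc (0:ℝ) 1, ∀ γ : Γ, ∀ i : V,
          (γ : EuclideanSpace ℝ (Fin d) ≃ᵢ EuclideanSpace ℝ (Fin d)) (T t (m t i))
            = T t (m t (θ γ i))) := by
  intro H
  have hfin : Finite Gam' := by
    have : Finite ({1, reflI} : Set (Isom 3)) := Set.toFinite _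
    exact this
  have hd : ∀ t ∈ Set.Icc (0 : ℝ) 1, t / 20 ∈ Dom := by
    intro t ht
    obtain ⟨h1, h2⟩ := ht
    constructor <;> linarith
  obtain ⟨T, _, _, hT⟩ := H 3 (Fin 7) G7 p7 Gam' theta' theta'_adj theta'_symm
    (fun t => std (t / 20)) (cont_std.comp (by fun_prop) hd)
    (by show std (0 / 20) = p7; rw [zero_div, std_zero])
    (fun t ht i j h => std_mem (hd t ht) i j h)
    (fun i j t ht t' ht' h => std_dist_mono (div_nonneg ht.1 (by norm_num))
      (by linarith) (hd t ht) (hd t' ht') i j)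
    (by
      refine ⟨1, ⟨zero_le_one, le_rfl⟩, 3, 4, ?_⟩
      obtain ⟨_, h1, _⟩ := (rel_std (hd 1 ⟨zero_le_one, le_rfl⟩)).nonedges
      obtain ⟨_, h2, _⟩ := rel0.nonedges
      change dist (std (1 / 20) 3) (std (1 / 20) 4) ^ 2 = _ at h1
      change dist (p7 3) (p7 4) ^ 2 = _ at h2
      intro h
      rw [h] at h1
      have h4 := h1.symm.trans h2
      norm_num at h4)
    (by
      intro t ht t' ht' h
      have hb : ∀ s ∈ Set.Icc (0 : ℝ) 1, 1 / 2 + s / 4 ∈ Set.Ioo (0 : ℝ) 1 := by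
        intro s hs
        obtain ⟨h1, h2⟩ := hs
        constructor <;> linarith
      have e : ∀ s (hs : s ∈ Set.Icc (0 : ℝ) 1),
          Quot.mk R (std (s / 20)) = curveQ ⟨1 / 2 + s / 4, hb s hs⟩ := by
        intro s hs
        show _ = Quot.mk R (std ((2 * (1 / 2 + s / 4) - 1) / 10))
        rw [show (2 * (1 / 2 + s / 4) - 1) / 10 = s / 20 by ring]
      have h' : Quot.mk R (std (t / 20)) = Quot.mk R (std (t' / 20)) := h
      rw [e t ht, e t' ht'] at h'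
      have h2 := congrArg Subtype.val (curveQ_isEmbedding.injective h')
      simp only at h2
      linarith)
    (by
      refine ⟨O, O_isOpen, homeo, ⟨1 / 2, by constructor <;> norm_num⟩, ?_, Or.inl ?_⟩
      · show Quot.mk R (std ((2 * (1 / 2) - 1) / 10)) = Quot.mk R p7
        rw [show ((2 : ℝ) * (1 / 2) - 1) / 10 = 0 by norm_num, std_zero]
      · intro t ht
        obtain ⟨h1, h2⟩ := ht
        refine ⟨⟨1 / 2 + t / 4, by constructor <;> linarith⟩, ?_, ?_⟩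
        · show Quot.mk R (std ((2 * (1 / 2 + t / 4) - 1) / 10)) = Quot.mk R (std (t / 20))
          rw [show (2 * (1 / 2 + t / 4) - 1) / 10 = t / 20 by ring]
        · show (1 / 2 : ℝ) < 1 / 2 + t / 4
          linarith)
  have h1 := hT 1 ⟨zero_le_one, le_rfl⟩ rG
  have e6 := h1 6
  have e1 := h1 1
  have s6 : theta' rG 6 = 6 := by
    show GraphAut.app (theta rG) 6 = 6
    rw [theta_rG]
    show Equiv.swap (1 : Fin 7) 2 6 = 6
    decide
  have s1 : theta' rG 1 = 2 := by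
    show GraphAut.app (theta rG) 1 = 2
    rw [theta_rG]
    show Equiv.swap (1 : Fin 7) 2 1 = 2
    decide
  rw [s6] at e6
  rw [s1] at e1
  have e6' : refl3 (T 1 (std (1 / 20) 6)) = T 1 (std (1 / 20) 6) := e6
  have e1' : refl3 (T 1 (std (1 / 20) 1)) = T 1 (std (1 / 20) 2) := e1
  have hdd : dist (std (1 / 20) 2) (std (1 / 20) 6) = dist (std (1 / 20) 1) (std (1 / 20) 6) := by
    calc dist (std (1 / 20) 2) (std (1 / 20) 6)
        = dist (T 1 (std (1 / 20) 2)) (T 1 (std (1 / 20) 6)) := ((T 1).dist_eq _ _).symm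
      _ = dist (refl3 (T 1 (std (1 / 20) 1))) (refl3 (T 1 (std (1 / 20) 6))) := by rw [e1', e6']
      _ = dist (T 1 (std (1 / 20) 1)) (T 1 (std (1 / 20) 6)) := refl3.dist_eq _ _
      _ = dist (std (1 / 20) 1) (std (1 / 20) 6) := (T 1).dist_eq _ _
  have hd1 := hd 1 ⟨zero_le_one, le_rfl⟩
  have h2 : dist (std (1 / 20) 2) (std (1 / 20) 6) ^ 2 -
      dist (std (1 / 20) 1) (std (1 / 20) 6) ^ 2 = 4 * fh (1 / 20) := inv_std hd1
  rw [hdd, sub_self] at h2
  have h5 : fh 0 = 0 := by simp [fh, fm]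
  have h6 := fh_lt (x := 0) (y := 1 / 20) le_rfl (by norm_num) zero_dom hd1
  linarith

end Pool.Agent.S12060
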