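import Pool.Statements.S12199
import Pool.Agent.K4Lead.Trace

set_option autoImplicit false
open Pool Pool.MP_ea35a0_co

namespace Pool.Agent.S12199

/-- For every ε>0, every connected graph with enough edges m has simple-random-walk relaxation time (degree-weighted variance over edge Dirichlet form) at most (1+ε)·2m²/π², i.e. the path is asymptotically extremal. -/
theorem result :
    ∀ ε : ℝ, ε > 0 → ∃ M : ℕ, ∀ (n : ℕ) (G : SimpleGraph (Fin n)) [DecidableRel G.Adj],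
      G.Connected → M ≤ G.edgeFinset.card →
      ∀ f : Fin n → ℝ, ∃ c : ℝ,
        ∑ v, (G.degree v : ℝ) * (f v - c) ^ 2 ≤
          (1 + ε) * (2 * (G.edgeFinset.card : ℝ) ^ 2 / Real.pi ^ 2) *
            ((1 / 2 : ℝ) * ∑ u, ∑ v, (if G.Adj u v then (f u - f v) ^ 2 else 0)) := by
  intro ε hε
  obtain ⟨M0, hM0⟩ := exists_nat_gt (2 * (1 + ε) / ε)
  refine ⟨M0 + 4, ?_⟩
  intro n G _ hG hm f
  have hm1 : 1 ≤ G.edgeFinset.card := by omega
  obtain ⟨c, hc⟩ := Pool.Agent.K4Lead.Relax.gap hG hm1 f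
  refine ⟨c, ?_⟩
  set m : ℝ := (G.edgeFinset.card : ℝ) with hmdef
  set A := ∑ v, (G.degree v : ℝ) * (f v - c) ^ 2 with hA
  set B := ∑ u, ∑ v, (if G.Adj u v then (f u - f v) ^ 2 else 0) with hB
  have hm4 : (4 : ℝ) + M0 ≤ m := by
    have : (M0 + 4 : ℕ) ≤ G.edgeFinset.card := hm
    have h2 : ((M0 + 4 : ℕ) : ℝ) ≤ m := Nat.cast_le.2 this
    push_cast at h2
    linarith
  have hM0n : (0 : ℝ) ≤ M0 := Nat.cast_nonneg _
  have hmpos : 0 < m := by linarith
  have hmM : 2 * (1 + ε) / ε < m := by linarith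
  have hpi := Real.pi_pos
  have hpi4 : Real.pi ≤ 4 := Real.pi_le_four
  set x : ℝ := Real.pi / (2 * m) with hx
  have hx0 : 0 < x := by positivity
  have hxle : x ≤ 2 / m := by
    rw [hx, div_le_div_iff₀ (by positivity) hmpos]
    nlinarith
  have hx1 : x ≤ 1 := by
    refine hxle.trans ?_
    rw [div_le_one hmpos]
    linarith
  have hsin : x - x ^ 3 / 4 < Real.sin x := by
    have h1 := Real.sin_gt_sub_cube hx0
    have h2 : 0 < x ^ 3 := by positivity
    linarith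
  have hx2 : x ^ 2 ≤ 4 / m := by
    have h1 : x ^ 2 ≤ (2 / m) ^ 2 := by
      apply pow_le_pow_left₀ hx0.le hxle
    refine h1.trans ?_
    rw [div_pow, div_le_div_iff₀ (by positivity) hmpos]
    nlinarith
  have hx3 : x ^ 2 * (1 + ε) ≤ 2 * ε := by
    have h1 : 4 / m * (1 + ε) ≤ 2 * ε := by
      rw [div_mul_eq_mul_div, div_le_iff₀ hmpos]
      rw [div_lt_iff₀ hε] at hmM
      nlinarith
    exact (mul_le_mul_of_nonneg_right hx2 (by linarith)).trans h1
  have hx22 : x ^ 2 ≤ 1 := by nlinarith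
  have hsq : x ^ 2 ≤ (1 + ε) * Real.sin x ^ 2 := by
    have h1 : 0 ≤ x * (1 - x ^ 2 / 4) := by
      apply mul_nonneg hx0.le
      linarith
    have h2 : x * (1 - x ^ 2 / 4) ≤ Real.sin x := by nlinarith
    have h3 : (x * (1 - x ^ 2 / 4)) ^ 2 ≤ Real.sin x ^ 2 := pow_le_pow_left₀ h1 h2 2
    have h4 : x ^ 2 * (1 - x ^ 2 / 2) ≤ (x * (1 - x ^ 2 / 4)) ^ 2 := by
      have : (x * (1 - x ^ 2 / 4)) ^ 2 = x ^ 2 * (1 - x ^ 2 / 2) + x ^ 2 * (x ^ 2 / 4) ^ 2 := by
        ring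
      rw [this]
      have : 0 ≤ x ^ 2 * (x ^ 2 / 4) ^ 2 := by positivity
      linarith
    have h5 : x ^ 2 ≤ (1 + ε) * (x ^ 2 * (1 - x ^ 2 / 2)) := by
      have h6 : 0 ≤ x ^ 2 * (ε - x ^ 2 * (1 + ε) / 2) := by
        apply mul_nonneg (sq_nonneg _)
        linarith
      nlinarith
    calc x ^ 2 ≤ (1 + ε) * (x ^ 2 * (1 - x ^ 2 / 2)) := h5
      _ ≤ (1 + ε) * Real.sin x ^ 2 := by
        apply mul_le_mul_of_nonneg_left (h4.trans h3)
        linarith
  have hA0 : 0 ≤ A := Finset.sum_nonneg fun v _ => by positivity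
  -- combine
  have h7 : 4 * x ^ 2 * A ≤ (1 + ε) * B := by
    calc 4 * x ^ 2 * A = x ^ 2 * (4 * A) := by ring
      _ ≤ ((1 + ε) * Real.sin x ^ 2) * (4 * A) := by
        apply mul_le_mul_of_nonneg_right hsq
        linarith
      _ = (1 + ε) * (4 * Real.sin x ^ 2 * A) := by ring
      _ ≤ (1 + ε) * B := by
        apply mul_le_mul_of_nonneg_left _ (by linarith)
        exact hc
  have h8 : 4 * x ^ 2 = Real.pi ^ 2 / m ^ 2 := by
    rw [hx]
    field_simp
    ring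
  rw [h8] at h7
  have h9 : A = m ^ 2 / Real.pi ^ 2 * (Real.pi ^ 2 / m ^ 2 * A) := by
    rw [← mul_assoc]
    have h10 : m ^ 2 / Real.pi ^ 2 * (Real.pi ^ 2 / m ^ 2) = 1 := by
      have hm2 : m ≠ 0 := hmpos.ne'
      have hp2 : Real.pi ≠ 0 := hpi.ne'
      generalize Real.pi = q at hp2
      generalize m = r at hm2
      field_simp
    rw [h10, one_mul]
  rw [h9]
  calc m ^ 2 / Real.pi ^ 2 * (Real.pi ^ 2 / m ^ 2 * A) ≤ m ^ 2 / Real.pi ^ 2 * ((1 + ε) * B) := by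
        apply mul_le_mul_of_nonneg_left h7
        exact div_nonneg (sq_nonneg _) (sq_nonneg _)
    _ = (1 + ε) * (2 * m ^ 2 / Real.pi ^ 2) * ((1 / 2 : ℝ) * B) := by ring

end Pool.Agent.S12199
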