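import Pool.Statements.S12433
import Pool.Agent.K4H91.Cde6

set_option autoImplicit false
open scoped Classical
open Pool Pool.MP_f5b555_co

namespace Pool.Agent.S12433

open Pool.Agent.K4H91.Cde in
/-- For n ≥ 1, 2k < n and λ=(n,n−2,…,n−2k), the strict partitions inside λ have average down-degree equal to that of a random element of a random maximal chain (CDE), and this average is ∣λ∣/(n+1). -/
theorem result :
  ∀ (n k : ℕ), 1 ≤ n → 2 * k < n →
  ∀ (V : (Fin (k+1) → ℕ) → Prop),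
    (∀ μ, V μ ↔ ((∀ i : Fin (k+1), μ i ≤ n - 2 * (i : ℕ)) ∧
        ∀ i j : Fin (k+1), i < j → μ j = 0 ∨ μ j < μ i)) →
  ∀ (D : (Fin (k+1) → ℕ) → ℕ),
    (∀ μ, D μ = (Finset.univ.filter
        (fun i : Fin (k+1) => 0 < μ i ∧ V (Function.update μ i (μ i - 1)))).card) →
  ∀ (N : ℕ), N = ∑ i : Fin (k+1), (n - 2 * (i : ℕ)) →
  ∀ (S : (Fin N → Fin (k+1)) → ℕ → Fin (k+1) → ℕ),
    (∀ w j i, S w j i = (Finset.univ.filter
        (fun t : Fin N => (t : ℕ) < j ∧ w t = i)).card) →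
  ((∑ μ ∈ Finset.univ.filter (fun μ : Fin (k+1) → Fin (n+1) => V (fun i => (μ i : ℕ))),
        (D (fun i => (μ i : ℕ)) : ℚ)) /
      ((Finset.univ.filter (fun μ : Fin (k+1) → Fin (n+1) => V (fun i => (μ i : ℕ)))).card : ℚ)
    =
    (∑ w ∈ Finset.univ.filter (fun w : Fin N → Fin (k+1) =>
          (∀ j : ℕ, j ≤ N → V (S w j)) ∧ ∀ i : Fin (k+1), S w N i = n - 2 * (i : ℕ)),
        ∑ j ∈ Finset.range (N+1), (D (S w j) : ℚ)) /
      (((Finset.univ.filter (fun w : Fin N → Fin (k+1) =>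
          (∀ j : ℕ, j ≤ N → V (S w j)) ∧ ∀ i : Fin (k+1), S w N i = n - 2 * (i : ℕ))).card : ℚ)
        * ((N : ℚ) + 1))
  ∧
  (∑ μ ∈ Finset.univ.filter (fun μ : Fin (k+1) → Fin (n+1) => V (fun i => (μ i : ℕ))),
        (D (fun i => (μ i : ℕ)) : ℚ)) /
      ((Finset.univ.filter (fun μ : Fin (k+1) → Fin (n+1) => V (fun i => (μ i : ℕ)))).card : ℚ)
    = (N : ℚ) / ((n : ℚ) + 1)) := by
  intro n k hn hk V hV D hD N hN S hS
  -- the predicate `V`
  have hVS : ∀ μ, V μ → Str (ext μ) := fun μ h => (str_ext μ).2 ((hV μ).1 h).2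
  have hVF : ∀ μ, V μ ↔ ext μ ∈ VF n (k + 1) := by
    intro μ
    rw [mem_VF, str_ext, hV]
    constructor
    · rintro ⟨h1, h2⟩
      refine ⟨h2, fun i hi => ?_, fun i hi => ext_ge _ hi⟩
      have := h1 ⟨i, hi⟩
      unfold ext
      rw [dif_pos hi]
      exact this
    · rintro ⟨h1, h2, _⟩
      refine ⟨fun i => ?_, h1⟩
      have := h2 i i.2
      rwa [ext_fin] at this
  have hV2 : ∀ μ a, V μ → 0 < μ a → Str (ext (Function.update μ a (μ a - 1))) →
      V (Function.update μ a (μ a - 1)) := by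
    intro μ a h h0 h1
    rw [hV]
    refine ⟨fun i => ?_, (str_ext _).1 h1⟩
    have h2 := ((hV μ).1 h).1 i
    by_cases h3 : i = a
    · subst h3
      rw [Function.update_self]
      omega
    · rw [Function.update_of_ne h3]
      exact h2
  -- the down-degree
  have hDq : ∀ μ, (D μ : ℚ) = ∑ a : Fin (k + 1),
      if 0 < μ a ∧ V (Function.update μ a (μ a - 1)) then 1 else 0 := by
    intro μ
    rw [hD, Finset.card_filter]
    push_cast
    rfl
  have hDr : ∀ μ, V μ → (D μ : ℚ) = rD (k + 1) (ext μ) := by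
    intro μ h
    rw [hDq]
    unfold rD
    rw [← Fin.sum_univ_eq_sum_range (fun i => rr (ext μ i) (ext μ (i + 1)))]
    refine Finset.sum_congr rfl fun a _ => ?_
    unfold rr
    have h1 : (0 < μ a ∧ V (Function.update μ a (μ a - 1))) ↔
        (0 < ext μ a ∧ (ext μ (a + 1) = 0 ∨ ext μ (a + 1) + 1 < ext μ a)) := by
      constructor
      · rintro ⟨h2, h3⟩
        have h4 := hVS _ h3
        rw [← dn_ext] at h4
        have h5 : 0 < ext μ a := by rw [ext_fin]; exact h2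
        exact ⟨h5, (str_dn_iff (hVS μ h) h5).1 h4⟩
      · rintro ⟨h2, h3⟩
        have h4 := (str_dn_iff (hVS μ h) h2).2 h3
        rw [dn_ext] at h4
        rw [ext_fin] at h2
        exact ⟨h2, hV2 μ a h h2 h4⟩
    by_cases h2 : 0 < μ a ∧ V (Function.update μ a (μ a - 1))
    · rw [if_pos h2, if_pos (h1.1 h2)]
    · rw [if_neg h2, if_neg (fun h3 => h2 (h1.2 h3))]
  -- the size
  have hsize : (N : ℚ) = (k + 1) * (n - k) := by
    rw [← size_eq n k hk, hN, Fin.sum_univ_eq_sum_range (fun i => n - 2 * i) (k + 1)]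
  -- sums over the interval
  have hsum : ∀ (g : (ℕ → ℕ) → ℚ),
      ∑ μ ∈ Finset.univ.filter (fun μ : Fin (k+1) → Fin (n+1) => V (fun i => (μ i : ℕ))),
        g (ext fun i => (μ i : ℕ)) = ∑ ν ∈ VF n (k + 1), g ν := by
    intro g
    refine Finset.sum_bij' (fun μ _ => ext fun i => (μ i : ℕ))
      (fun ν hν i => ⟨ν i, by
        have := ((mem_VF n (k + 1) ν).1 hν).2.1 i i.2
        omega⟩) ?_ ?_ ?_ ?_ ?_
    · intro μ hμ
      exact (hVF _).1 (Finset.mem_filter.1 hμ).2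
    · intro ν hν
      rw [Finset.mem_filter]
      refine ⟨Finset.mem_univ _, ?_⟩
      rw [hVF]
      have h1 : (ext fun i : Fin (k + 1) => ν i) = ν := by
        funext i
        unfold ext
        split_ifs with h
        · rfl
        · exact (((mem_VF n (k + 1) ν).1 hν).2.2 i (by omega)).symm
      show (ext fun i : Fin (k + 1) => ν i) ∈ VF n (k + 1)
      rw [h1]
      exact hν
    · intro μ _
      funext i
      apply Fin.ext
      show ext (fun i => (μ i : ℕ)) i = μ i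
      rw [ext_fin]
    · intro ν hν
      show (ext fun i : Fin (k + 1) => ν i) = ν
      funext i
      unfold ext
      split_ifs with h
      · rfl
      · exact (((mem_VF n (k + 1) ν).1 hν).2.2 i (by omega)).symm
    · intro μ _
      rfl
  have hU1 : ∑ μ ∈ Finset.univ.filter (fun μ : Fin (k+1) → Fin (n+1) => V (fun i => (μ i : ℕ))),
        (D (fun i => (μ i : ℕ)) : ℚ) = n * ((n - 1).choose k : ℕ) := by
    rw [← sum_rD (k + 1) n k (by omega) (by omega), ← hsum (rD (k + 1))]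
    refine Finset.sum_congr rfl fun μ hμ => ?_
    exact hDr _ (Finset.mem_filter.1 hμ).2
  have hU2 : ((Finset.univ.filter (fun μ : Fin (k+1) → Fin (n+1) =>
      V (fun i => (μ i : ℕ)))).card : ℚ) = ((n + 1).choose (k + 1) : ℕ) := by
    rw [← card_VF n (k + 1) (by omega)]
    have := hsum (fun _ => 1)
    simpa using this
  have hU : (∑ μ ∈ Finset.univ.filter (fun μ : Fin (k+1) → Fin (n+1) => V (fun i => (μ i : ℕ))),
        (D (fun i => (μ i : ℕ)) : ℚ)) /
      ((Finset.univ.filter (fun μ : Fin (k+1) → Fin (n+1) => V (fun i => (μ i : ℕ)))).card : ℚ)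
    = (N : ℚ) / ((n : ℚ) + 1) := by
    rw [hU1, hU2, hsize]
    obtain ⟨n', rfl⟩ : ∃ n', n = n' + 1 := ⟨n - 1, by omega⟩
    have h1 : ((n' + 1 + 1 : ℕ) : ℚ) * ((n' + 1).choose k : ℕ) =
        ((n' + 1 + 1).choose (k + 1) : ℕ) * (k + 1 : ℕ) := by
      exact_mod_cast Nat.add_one_mul_choose_eq (n' + 1) k
    have h2 : ((n'.choose k : ℕ) : ℚ) * (n' + 1 : ℕ) = ((n' + 1).choose k : ℕ) *
        ((n' + 1 - k : ℕ) : ℚ) := by
      exact_mod_cast Nat.choose_mul_succ_eq n' k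
    have h3 : ((n' + 1 - k : ℕ) : ℚ) = (n' + 1 : ℕ) - k := by
      rw [Nat.cast_sub (by omega)]
    have h4 : (((n' + 1 + 1).choose (k + 1) : ℕ) : ℚ) ≠ 0 := by
      exact_mod_cast (Nat.choose_pos (by omega)).ne'
    rw [Nat.add_sub_cancel]
    rw [h3] at h2
    rw [div_eq_div_iff h4 (by positivity)]
    have h5 : ((n'+1 : ℕ) : ℚ) * (n'.choose k : ℕ) * (((n' + 1 : ℕ) : ℚ) + 1) =
        ((n' + 1).choose k : ℕ) * ((n' + 1 : ℕ) - k) * (((n' + 1 : ℕ) : ℚ) + 1) := by
      rw [← h2]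
      ring
    rw [h5]
    have h6 : ((n' + 1).choose k : ℕ) * (((n' + 1 : ℕ) : ℚ) - k) * (((n' + 1 : ℕ) : ℚ) + 1) =
        (((n' + 1 + 1 : ℕ) : ℚ) * ((n' + 1).choose k : ℕ)) * (((n' + 1 : ℕ) : ℚ) - k) := by
      push_cast
      ring
    rw [h6, h1]
    push_cast
    ring
  refine ⟨?_, hU⟩
  rw [hU]
  -- the chains
  have hSS : ∀ w j, S w j = SS w j := by
    intro w j
    funext i
    rw [hS]
    rfl
  let lm : Fin (k + 1) → ℕ := fun i => n - 2 * (i : ℕ)
  have hlm : ext lm = lam n k := by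
    funext i
    unfold ext lam
    split_ifs with h1 h2 h2
    · rfl
    · omega
    · omega
    · rfl
  have hVlm : V lm := by
    rw [hV]
    refine ⟨fun i => le_rfl, fun i j hij => ?_⟩
    have h1 : (i : ℕ) < j := hij
    have h2 := j.2
    right
    show n - 2 * (j : ℕ) < n - 2 * (i : ℕ)
    omega
  obtain ⟨hA, hB⟩ := words V hVS hV2 (fun μ => (D μ : ℚ)) hDq N lm hVlm hN.symm
  have hcond : ∀ w : Fin N → Fin (k + 1),
      ((∀ j : ℕ, j ≤ N → V (S w j)) ∧ ∀ i : Fin (k+1), S w N i = n - 2 * (i : ℕ)) ↔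
      ((∀ j ≤ N, V (SS w j)) ∧ SS w N = lm) := by
    intro w
    simp only [hSS]
    constructor
    · rintro ⟨h1, h2⟩
      exact ⟨h1, funext h2⟩
    · rintro ⟨h1, h2⟩
      exact ⟨h1, fun i => congrFun h2 i⟩
  have hC : (((Finset.univ.filter (fun w : Fin N → Fin (k+1) =>
          (∀ j : ℕ, j ≤ N → V (S w j)) ∧ ∀ i : Fin (k+1), S w N i = n - 2 * (i : ℕ))).card : ℕ) : ℚ) =
      H (k + 1 + 1) (ext lm) := by
    rw [← hA, Finset.card_filter]
    push_cast
    unfold AA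
    refine Finset.sum_congr rfl fun w _ => ?_
    by_cases h : (∀ j ≤ N, V (SS w j)) ∧ SS w N = lm
    · rw [if_pos h, if_pos ((hcond w).2 h)]
    · rw [if_neg h, if_neg (fun h2 => h ((hcond w).1 h2))]
  have hT : ∑ w ∈ Finset.univ.filter (fun w : Fin N → Fin (k+1) =>
          (∀ j : ℕ, j ≤ N → V (S w j)) ∧ ∀ i : Fin (k+1), S w N i = n - 2 * (i : ℕ)),
        ∑ j ∈ Finset.range (N+1), (D (S w j) : ℚ) = GG (k + 1 + 1) cc (ext lm) := by
    rw [← hB, Finset.sum_filter]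
    unfold BB
    refine Finset.sum_congr rfl fun w _ => ?_
    by_cases h : (∀ j ≤ N, V (SS w j)) ∧ SS w N = lm
    · rw [if_pos h, if_pos ((hcond w).2 h)]
      refine Finset.sum_congr rfl fun j _ => ?_
      rw [hSS]
    · rw [if_neg h, if_neg (fun h2 => h ((hcond w).1 h2))]
  rw [hC, hT, hlm]
  have h1 := GG_cc hk
  have h2 : ((∑ i ∈ Finset.range (k + 2), lam n k i : ℕ) : ℚ) = N := by
    rw [size_lam n k hk, hN, Fin.sum_univ_eq_sum_range (fun i => n - 2 * i) (k + 1)]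
  rw [h2] at h1
  have h3 : 0 < H (k + 2) (lam n k) := H_pos (lam_str hk)
  show (N : ℚ) / (n + 1) = GG (k + 2) cc (lam n k) / (H (k + 2) (lam n k) * (N + 1))
  rw [h1]
  have h4 : (N : ℚ) + 1 ≠ 0 := by positivity
  have h5 : (n : ℚ) + 1 ≠ 0 := by positivity
  have h6 := h3.ne'
  have h7 : (N : ℚ) / (n + 1) = ((k + 1) * (n - k) / (n + 1)) := by rw [hsize]
  rw [h7]
  field_simp

end Pool.Agent.S12433
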