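import Pool.Statements.S12897

set_option autoImplicit false
open Pool Pool.MP_26524f_gt

namespace Pool.Agent.S12897

/-- the property `S_fin(Γ, Ω)` of the frozen statement -/
def SfinGO (X : Set ℝ) : Prop :=
  ∀ 𝒰 : ℕ → Set (Set ℝ),
    (∀ n, (∀ U ∈ 𝒰 n, ∃ V : Set ℝ, IsOpen V ∧ U = V ∩ X) ∧ X ∉ 𝒰 n ∧
        X ⊆ ⋃₀ (𝒰 n) ∧ (𝒰 n).Infinite ∧
        ∀ x ∈ X, {U ∈ 𝒰 n | x ∉ U}.Finite) →
    ∃ ℱ : ℕ → Set (Set ℝ), (∀ n, (ℱ n).Finite ∧ ℱ n ⊆ 𝒰 n) ∧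
      X ∉ (⋃ n, ℱ n) ∧ X ⊆ ⋃₀ (⋃ n, ℱ n) ∧
      ∀ F : Finset ℝ, (↑F : Set ℝ) ⊆ X →
        ∃ U ∈ (⋃ n, ℱ n), (↑F : Set ℝ) ⊆ U

/-- One closed piece: for a closed set `C` with `X ∩ C ⊆ Y ⊆ X` and a sequence of open `γ`-covers
of `Y`, finite selections which together contain, for every finite subset `F` of `X ∩ C`, a
member that contains `F`. -/
theorem piece {X Y C : Set ℝ} (hX : SfinGO X) (hC : IsClosed C) (hCY : X ∩ C ⊆ Y) (hYX : Y ⊆ X)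
    (𝒰 : ℕ → Set (Set ℝ))
    (h𝒰 : ∀ n, (∀ U ∈ 𝒰 n, ∃ V : Set ℝ, IsOpen V ∧ U = V ∩ Y) ∧ (𝒰 n).Infinite ∧
        ∀ x ∈ Y, {U ∈ 𝒰 n | x ∉ U}.Finite) :
    ∃ ℱ : ℕ → Set (Set ℝ), (∀ n, (ℱ n).Finite ∧ ℱ n ⊆ 𝒰 n) ∧
      ∀ F : Finset ℝ, (↑F : Set ℝ) ⊆ X ∩ C → ∃ U ∈ (⋃ n, ℱ n), (↑F : Set ℝ) ⊆ U := by
  classical
  by_cases hA : ∃ n, ∃ U ∈ 𝒰 n, X ∩ C ⊆ U
  · -- some member contains all of `X ∩ C`
    obtain ⟨n, U, hU, hCU⟩ := hA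
    refine ⟨fun k => if k = n then {U} else ∅, fun k => ?_, fun F hF => ⟨U, ?_, hF.trans hCU⟩⟩
    · by_cases hk : k = n
      · subst hk
        simp only [if_true]
        exact ⟨Set.finite_singleton _, Set.singleton_subset_iff.2 hU⟩
      · simp only [if_neg hk]
        exact ⟨Set.finite_empty, Set.empty_subset _⟩
    · rw [Set.mem_iUnion]
      exact ⟨n, by simp⟩
  · push Not at hA
    -- an open set of the line whose trace is the given member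
    have hV : ∀ n, ∀ U : Set ℝ, ∃ V : Set ℝ, U ∈ 𝒰 n → IsOpen V ∧ U = V ∩ Y := by
      intro n U
      by_cases hU : U ∈ 𝒰 n
      · obtain ⟨V, hV⟩ := (h𝒰 n).1 U hU
        exact ⟨V, fun _ => hV⟩
      · exact ⟨∅, fun h => absurd h hU⟩
    choose V hV using hV
    -- the extended sets
    let W : ℕ → Set ℝ → Set ℝ := fun n U => (V n U ∪ Cᶜ) ∩ X
    have hWmem : ∀ n, ∀ U ∈ 𝒰 n, ∀ x ∈ X ∩ C, x ∈ W n U ↔ x ∈ U := by
      intro n U hU x hx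
      obtain ⟨-, hUV⟩ := hV n U hU
      constructor
      · rintro ⟨h1 | h1, -⟩
        · rw [hUV]
          exact ⟨h1, hCY hx⟩
        · exact absurd hx.2 h1
      · intro h1
        rw [hUV] at h1
        exact ⟨Or.inl h1.1, hx.1⟩
    have hne : ∀ n, ∀ U ∈ 𝒰 n, W n U ≠ X := by
      intro n U hU hWX
      obtain ⟨x, hx, hxU⟩ := Set.not_subset.1 (hA n U hU)
      apply hxU
      rw [← hWmem n U hU x hx, hWX]
      exact hx.1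
    have hfin : ∀ n, ∀ x ∈ X, {T ∈ W n '' 𝒰 n | x ∉ T}.Finite := by
      intro n x hx
      by_cases hxC : x ∈ C
      · refine (((h𝒰 n).2.2 x (hCY ⟨hx, hxC⟩)).image (W n)).subset ?_
        rintro _ ⟨⟨U, hU, rfl⟩, hxW⟩
        exact ⟨U, ⟨hU, fun h => hxW ((hWmem n U hU x ⟨hx, hxC⟩).2 h)⟩, rfl⟩
      · refine Set.Finite.subset Set.finite_empty ?_
        rintro _ ⟨⟨U, hU, rfl⟩, hxW⟩
        exact hxW ⟨Or.inr hxC, hx⟩
    have hinf : ∀ n, (W n '' 𝒰 n).Infinite := by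
      intro n hf
      -- some fibre is infinite
      obtain ⟨T, hT, hTinf⟩ : ∃ T ∈ W n '' 𝒰 n, {U ∈ 𝒰 n | W n U = T}.Infinite := by
        by_contra hcon
        push Not at hcon
        apply (h𝒰 n).2.1
        refine (hf.biUnion hcon).subset ?_
        intro U hU
        rw [Set.mem_iUnion₂]
        exact ⟨W n U, ⟨U, hU, rfl⟩, hU, rfl⟩
      obtain ⟨U0, hU0, hU0T⟩ := hT
      apply hne n U0 hU0
      rw [hU0T]
      apply Set.Subset.antisymm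
      · rw [← hU0T]
        exact Set.inter_subset_right
      · intro x hx
        by_cases hxC : x ∈ C
        · obtain ⟨U, ⟨hU, hUT⟩, hxU⟩ := hTinf.exists_notMem_finite
            ((h𝒰 n).2.2 x (hCY ⟨hx, hxC⟩))
          rw [← hUT, hWmem n U hU x ⟨hx, hxC⟩]
          by_contra hxU'
          exact hxU ⟨hU, hxU'⟩
        · rw [← hU0T]
          exact ⟨Or.inr hxC, hx⟩
    obtain ⟨𝒢, h𝒢, -, -, h𝒢Ω⟩ := hX (fun n => W n '' 𝒰 n) (fun n => by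
      refine ⟨?_, ?_, ?_, hinf n, hfin n⟩
      · rintro _ ⟨U, hU, rfl⟩
        exact ⟨V n U ∪ Cᶜ, (hV n U hU).1.union hC.isOpen_compl, rfl⟩
      · rintro ⟨U, hU, hUX⟩
        exact hne n U hU hUX
      · intro x hx
        obtain ⟨T, hT, hxT⟩ := (hinf n).exists_notMem_finite (hfin n x hx)
        refine ⟨T, hT, ?_⟩
        by_contra hxT'
        exact hxT ⟨hT, hxT'⟩)
    -- choose preimages
    have hsel : ∀ n, ∀ T : Set ℝ, ∃ U : Set ℝ, T ∈ 𝒢 n → U ∈ 𝒰 n ∧ W n U = T := by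
      intro n T
      by_cases hT : T ∈ 𝒢 n
      · obtain ⟨U, hU, hUT⟩ := (h𝒢 n).2 hT
        exact ⟨U, fun _ => ⟨hU, hUT⟩⟩
      · exact ⟨∅, fun h => absurd h hT⟩
    choose sel hsel using hsel
    refine ⟨fun n => sel n '' 𝒢 n, fun n => ⟨(h𝒢 n).1.image _, ?_⟩, ?_⟩
    · rintro _ ⟨T, hT, rfl⟩
      exact (hsel n T hT).1
    · intro F hF
      obtain ⟨T, hT, hFT⟩ := h𝒢Ω F (hF.trans Set.inter_subset_left)
      obtain ⟨n, hTn⟩ := Set.mem_iUnion.1 hT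
      refine ⟨sel n T, Set.mem_iUnion.2 ⟨n, T, hTn, rfl⟩, fun x hx => ?_⟩
      obtain ⟨hU, hUT⟩ := hsel n T hTn
      rw [← hWmem n _ hU x (hF hx), hUT]
      exact hFT hx

/-- If a set of reals has the property that from any sequence of open γ-covers one can pick finitely many sets from each so that together they form an open ω-cover, then every F_σ subset (relative to the set) has the same property. -/
theorem result :
    ∀ P : Set ℝ → Prop,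
      (∀ X : Set ℝ, P X ↔
        ∀ 𝒰 : ℕ → Set (Set ℝ),
          (∀ n, (∀ U ∈ 𝒰 n, ∃ V : Set ℝ, IsOpen V ∧ U = V ∩ X) ∧ X ∉ 𝒰 n ∧
              X ⊆ ⋃₀ (𝒰 n) ∧ (𝒰 n).Infinite ∧
              ∀ x ∈ X, {U ∈ 𝒰 n | x ∉ U}.Finite) →
          ∃ ℱ : ℕ → Set (Set ℝ), (∀ n, (ℱ n).Finite ∧ ℱ n ⊆ 𝒰 n) ∧
            X ∉ (⋃ n, ℱ n) ∧ X ⊆ ⋃₀ (⋃ n, ℱ n) ∧
            ∀ F : Finset ℝ, (↑F : Set ℝ) ⊆ X →
              ∃ U ∈ (⋃ n, ℱ n), (↑F : Set ℝ) ⊆ U) →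
      ∀ X Y : Set ℝ,
        (∃ K : ℕ → Set ℝ, (∀ n, IsClosed (K n)) ∧ Y = X ∩ (⋃ n, K n)) →
        P X → P Y := by
  intro P hP X Y hK hX
  obtain ⟨K, hKc, hY⟩ := hK
  rw [hP] at hX ⊢
  intro 𝒰 h𝒰
  -- increasing closed pieces
  let C : ℕ → Set ℝ := fun m => ⋃ k ∈ Finset.range (m + 1), K k
  have hCc : ∀ m, IsClosed (C m) := fun m =>
    isClosed_biUnion_finset fun k _ => hKc k
  have hmemC : ∀ m x, x ∈ C m ↔ ∃ k, k < m + 1 ∧ x ∈ K k := by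
    intro m x
    simp only [C, Set.mem_iUnion, Finset.mem_range, exists_prop]
  have hYX : Y ⊆ X := by rw [hY]; exact Set.inter_subset_left
  have hCY : ∀ m, X ∩ C m ⊆ Y := by
    rintro m x ⟨hx, hxC⟩
    obtain ⟨k, -, hxk⟩ := (hmemC m x).1 hxC
    rw [hY]
    exact ⟨hx, Set.mem_iUnion.2 ⟨k, hxk⟩⟩
  have key : ∀ m, ∃ ℱ : ℕ → Set (Set ℝ),
      (∀ n, (ℱ n).Finite ∧ ℱ n ⊆ 𝒰 (Nat.pair m n)) ∧
      ∀ F : Finset ℝ, (↑F : Set ℝ) ⊆ X ∩ C m → ∃ U ∈ (⋃ n, ℱ n), (↑F : Set ℝ) ⊆ U :=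
    fun m => piece hX (hCc m) (hCY m) hYX (fun n => 𝒰 (Nat.pair m n)) (fun n =>
      ⟨(h𝒰 _).1, (h𝒰 _).2.2.2.1, (h𝒰 _).2.2.2.2⟩)
  choose ℱ hℱ hℱΩ using key
  have hΩ : ∀ F : Finset ℝ, (↑F : Set ℝ) ⊆ Y →
      ∃ U ∈ (⋃ n, ℱ (Nat.unpair n).1 (Nat.unpair n).2), (↑F : Set ℝ) ⊆ U := by
    intro F hF
    have hex : ∀ x ∈ F, ∃ k, x ∈ K k := by
      intro x hx
      have := hF hx
      rw [hY] at this
      exact Set.mem_iUnion.1 this.2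
    choose! κ hκ using hex
    have hFm : (↑F : Set ℝ) ⊆ X ∩ C (F.sup κ) := by
      intro x hx
      refine ⟨hYX (hF hx), (hmemC _ _).2 ⟨κ x, ?_, hκ x hx⟩⟩
      exact Nat.lt_succ_of_le (Finset.le_sup (f := κ) hx)
    obtain ⟨U, hU, hFU⟩ := hℱΩ (F.sup κ) F hFm
    obtain ⟨n, hUn⟩ := Set.mem_iUnion.1 hU
    refine ⟨U, Set.mem_iUnion.2 ⟨Nat.pair (F.sup κ) n, ?_⟩, hFU⟩
    simpa using hUn
  refine ⟨fun n => ℱ (Nat.unpair n).1 (Nat.unpair n).2, fun n => ?_, ?_, ?_, hΩ⟩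
  · have h := hℱ (Nat.unpair n).1 (Nat.unpair n).2
    rw [Nat.pair_unpair] at h
    exact h
  · intro hYmem
    obtain ⟨n, hn⟩ := Set.mem_iUnion.1 hYmem
    have h := (hℱ (Nat.unpair n).1 (Nat.unpair n).2).2 hn
    rw [Nat.pair_unpair] at h
    exact (h𝒰 n).2.1 h
  · intro x hx
    obtain ⟨U, hU, hxU⟩ := hΩ {x} (by simpa using hx)
    exact ⟨U, hU, hxU (by simp)⟩

end Pool.Agent.S12897
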