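import Pool.Statements.S12948
import Pool.Agent.K4H61.ZonoidTransfer
import Pool.Agent.H902R3.ZA.Defs
import Pool.Agent.H902R3.ZA.LBM
import Pool.Agent.H902R3.ZA.PLA
import Pool.Agent.H902R3.ZA.PLN
import Pool.Agent.H902R3.ZA.RES
import Pool.Agent.H902R3.ZA.DOM
import Pool.Agent.H902R3.ZA.SEC
import Pool.Agent.H902R3.ZA.SC
import Pool.Agent.H902R3.ZA.LAW
import Pool.Agent.H902R3.ZA.LOW
import Pool.Agent.H902R3.ZA.PHI
import Pool.Agent.H902R3.ZA.ROT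
import Pool.Agent.H902R3.ZA.QJ
import Pool.Agent.H902R3.ZA.JEN
import Pool.Agent.H902R3.ZA.MEAN
import Pool.Agent.H902R3.ZA.FIX
import Pool.Agent.H902R3.ZA.TWO
import Pool.Agent.H902R3.ZA.SHI
import Pool.Agent.H902R3.ZA.AVG
import Pool.Agent.H902R3.ZA.COL
import Pool.Agent.H902R3.ZA.STEPL
import Pool.Agent.H902R3.ZA.STEP
import Pool.Agent.H902R3.ZA.ITER
import Pool.Agent.H902R3.ZA.ZSUP
import Pool.Agent.H902R3.ZA.ZOND
import Pool.Agent.H902R3.ZA.FIN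
import Pool.Agent.H172R2.ZS.LEW
import Pool.Agent.H172R2.ZS.BAS
import Pool.Agent.H172R2.ZS.ONE
import Pool.Agent.H172R2.ZS.DET
import Pool.Agent.H172R2.ZS.MAP
import Pool.Agent.H172R2.ZS.GAU
import Pool.Agent.H172R2.GS.HAM

set_option autoImplicit false
open Pointwise
open Pool Pool.MP_2c1b2b_gt

namespace Pool.Agent.S12948

open Pool.Agent.H902R3.ZA Pool.Agent.H172R2.ZS in
/-- all steps together: a linear number of segments suffices for every zonoid -/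
theorem linear_bound : S_FIN := by
  have hGAU : Pool.Agent.H172R2.ZS.S_GAU := GAU_ok (MAP_ok ONE_ok BAS_ok DET_ok)
  have hHAM : Pool.Agent.H172R2.ZS.S_HAM := Pool.Agent.H172R2.GS.HAM_ok
  have hPLN : S_PLN := PLN_ok (PLA_ok LBM_ok)
  have hDOM : S_DOM := DOM_ok RES_ok
  have hSC : S_SC := SC_ok RES_ok (SEC_ok hPLN)
  have hLOW : S_LOW := LOW_ok hDOM hSC LAW_ok hGAU
  have hJEN : S_JEN := JEN_ok hPLN ROT_ok QJ_ok
  have hTWO : S_TWO := TWO_ok hLOW PHI_ok hJEN MEAN_ok (FIX_ok PHI_ok)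
  have hCOL : S_COL := COL_ok SHI_ok AVG_ok hHAM
  exact FIN_ok (ITER_ok (STEP_ok (STEPL_ok hTWO hCOL) LEW_ok BAS_ok)) ZSUP_ok ZOND_ok

/-- The negation of the preceding statement: For some ε>0 and every constant C, there is a dimension n and a zonoid K in ℝⁿ that is not within Banach–Mazur distance 1+ε of any sum of at most C·n segments, i.e. the bound C(ε)·n fails in general. -/
theorem result :
    ¬ (∃ ε : ℝ, 0 < ε ∧ ∀ C : ℝ, ∃ n : ℕ, ∃ K : Set (EuclideanSpace ℝ (Fin n)),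
      IsCompact K ∧ (interior K).Nonempty ∧
      (∀ δ : ℝ, 0 < δ → ∃ m : ℕ, ∃ v : Fin m → EuclideanSpace ℝ (Fin n),
          Metric.hausdorffDist K (∑ i, segment ℝ (-v i) (v i)) < δ) ∧
      ¬ ∃ m : ℕ, (m : ℝ) ≤ C * n ∧
          ∃ v : Fin m → EuclideanSpace ℝ (Fin n),
          ∃ T : EuclideanSpace ℝ (Fin n) ≃ₗ[ℝ] EuclideanSpace ℝ (Fin n),
            T '' K ⊆ ∑ i, segment ℝ (-v i) (v i) ∧
            ∑ i, segment ℝ (-v i) (v i) ⊆ (1 + ε) • (T '' K)) := by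
  rintro ⟨ε, hε, h⟩
  obtain ⟨C, hC, hmain⟩ := linear_bound
  obtain ⟨e, he⟩ : ∃ e : ℝ, e = min ε (1 / 2) := ⟨_, rfl⟩
  have he0 : 0 < e := by rw [he]; exact lt_min hε (by norm_num)
  have he1 : e < 1 := by rw [he]; exact (min_le_right _ _).trans_lt (by norm_num)
  have heε : e ≤ ε := by rw [he]; exact min_le_left _ _
  obtain ⟨n, K, hK, hint, hlim, hnot⟩ := h (C / e ^ 2)
  have hZ := Pool.Agent.K4H61.ZonoidTransfer.isZonoid_of hK hint hlim
  obtain ⟨M, v, hM, hZK, hKZ⟩ := hmain n K hZ e he0 he1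
  apply hnot
  have hpos : 0 < 1 + e := by linarith
  refine ⟨M, hM.trans (le_of_eq (by ring)), fun i => (1 + e) • v i,
    LinearEquiv.refl ℝ _, ?_, ?_⟩
  · rw [Pool.Agent.K4H61.ZonoidTransfer.sum_segment_eq]
    rintro _ ⟨x, hx, rfl⟩
    obtain ⟨y, ⟨t, ht, rfl⟩, hy⟩ := hKZ x hx
    refine ⟨t, ht, ?_⟩
    rw [LinearEquiv.refl_apply, hy, Finset.smul_sum]
    exact Finset.sum_congr rfl fun j _ => smul_comm _ _ _
  · rw [Pool.Agent.K4H61.ZonoidTransfer.sum_segment_eq]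
    rintro _ ⟨t, ht, rfl⟩
    have hy : ∑ j, t j • v j ∈ K := hZK ⟨t, ht, rfl⟩
    have h0 : (0 : EuclideanSpace ℝ (Fin n)) ∈ K :=
      hZK (Pool.Agent.K4H61.ZonoidTransfer.zon_zero_mem v)
    have hε1 : 0 < 1 + ε := by linarith
    have hc : ((1 + e) / (1 + ε)) • ∑ j, t j • v j ∈ K := by
      refine hZ.1.smul_mem_of_zero_mem h0 hy ⟨by positivity, ?_⟩
      rw [div_le_one hε1]
      linarith
    refine Set.mem_smul_set.mpr ⟨_, ⟨_, hc, rfl⟩, ?_⟩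
    rw [LinearEquiv.refl_apply, smul_smul, mul_div_cancel₀ _ hε1.ne', Finset.smul_sum]
    exact Finset.sum_congr rfl fun j _ => smul_comm _ _ _

end Pool.Agent.S12948
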