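import Pool.Statements.S13574
import Pool.Agent.Results.MP_916210_gt.BetaOmega

set_option autoImplicit false
open Pool Pool.MP_916210_gt

namespace Pool.Agent.S13574

open Pool.Agent.Results.MP_916210_gt.BetaOmega

/-- The topology of pointwise convergence on `C(X, ℝ)`. -/
abbrev ptTop (X : Type) [TopologicalSpace X] : TopologicalSpace C(X, ℝ) :=
  TopologicalSpace.induced (fun f : C(X, ℝ) => (f : X → ℝ)) inferInstance

/-- `C(X, ℝ)` is the linear space `C_p(X)`. -/
def toCp (X : Type) [TopologicalSpace X] : C(X, ℝ) ≃ₗ[ℝ] Cp X where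
  toFun f := ⟨f, f.continuous⟩
  invFun f := ⟨f, f.2⟩
  left_inv _ := rfl
  right_inv _ := rfl
  map_add' _ _ := rfl
  map_smul' _ _ := rfl

theorem continuous_toCp (X : Type) [TopologicalSpace X] :
    @Continuous _ _ (ptTop X) _ (toCp X) := by
  let _ := ptTop X
  exact Continuous.subtype_mk continuous_induced_dom _

theorem continuous_toCp_symm (X : Type) [TopologicalSpace X] :
    @Continuous _ _ _ (ptTop X) (toCp X).symm := by
  let _ := ptTop X
  exact continuous_induced_rng.2 continuous_subtype_val

theorem equiv_of_lEquivalent {X Y : Type} [TopologicalSpace X] [TopologicalSpace Y]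
    (h : LEquivalent X Y) : ∃ e : C(X, ℝ) ≃ₗ[ℝ] C(Y, ℝ),
      @Continuous _ _ (ptTop X) (ptTop Y) (⇑e) ∧ @Continuous _ _ (ptTop Y) (ptTop X) (⇑e.symm) := by
  obtain ⟨L⟩ := h
  refine ⟨(toCp X).trans (L.toLinearEquiv.trans (toCp Y).symm), ?_, ?_⟩
  · let _ := ptTop X
    let _ := ptTop Y
    exact (continuous_toCp_symm Y).comp (L.continuous.comp (continuous_toCp X))
  · let _ := ptTop X
    let _ := ptTop Y
    exact (continuous_toCp_symm X).comp (L.symm.continuous.comp (continuous_toCp Y))

theorem lEquivalent_of_equiv {X Y : Type} [TopologicalSpace X] [TopologicalSpace Y]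
    (e : C(X, ℝ) ≃ₗ[ℝ] C(Y, ℝ)) (h1 : @Continuous _ _ (ptTop X) (ptTop Y) (⇑e))
    (h2 : @Continuous _ _ (ptTop Y) (ptTop X) (⇑e.symm)) : LEquivalent X Y := by
  let _ := ptTop X
  let _ := ptTop Y
  refine ⟨{ toLinearEquiv := (toCp X).symm.trans (e.trans (toCp Y)), continuous_toFun := ?_,
            continuous_invFun := ?_ }⟩
  · exact (continuous_toCp Y).comp (h1.comp (continuous_toCp_symm X))
  · exact (continuous_toCp X).comp (h2.comp (continuous_toCp_symm Y))

/-- Homeomorphic spaces are l-equivalent. -/
theorem lEquivalent_of_homeo {X Y : Type} [TopologicalSpace X] [TopologicalSpace Y]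
    (h : X ≃ₜ Y) : LEquivalent X Y := by
  refine lEquivalent_of_equiv
    { toFun := fun f => f.comp ⟨h.symm, h.symm.continuous⟩
      invFun := fun f => f.comp ⟨h, h.continuous⟩
      left_inv := fun f => by ext x; simp
      right_inv := fun f => by ext x; simp
      map_add' := fun f g => rfl
      map_smul' := fun c f => rfl } ?_ ?_
  · let _ := ptTop X
    let _ := ptTop Y
    refine continuous_induced_rng.2 (continuous_pi fun y => ?_)
    exact (continuous_apply (h.symm y)).comp continuous_induced_dom
  · let _ := ptTop X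
    let _ := ptTop Y
    refine continuous_induced_rng.2 (continuous_pi fun y => ?_)
    exact (continuous_apply (h y)).comp continuous_induced_dom

/-- The two models of the convergent sequence. -/
noncomputable def seqHomeo : OnePoint ℕ ≃ₜ ℕ∞ := by
  let f : OnePoint ℕ → ℕ∞ := fun x => x.elim ⊤ (fun n : ℕ => (n : ℕ∞))
  have hc : Continuous f := by
    rw [OnePoint.continuous_iff_from_nat]
    exact ENat.tendsto_natCast_nhds_top
  have hb : Function.Bijective f := by
    constructor
    · intro x y hxy
      induction x using OnePoint.rec with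
      | infty =>
        induction y using OnePoint.rec with
        | infty => rfl
        | coe n => exact absurd hxy (ENat.natCast_ne_top n).symm
      | coe m =>
        induction y using OnePoint.rec with
        | infty => exact absurd hxy (ENat.natCast_ne_top m)
        | coe n =>
          have : (m : ℕ∞) = n := hxy
          rw [Nat.cast_injective this]
    · intro y
      induction y using ENat.recTopCoe with
      | top => exact ⟨OnePoint.infty, rfl⟩
      | coe n => exact ⟨(n : OnePoint ℕ), rfl⟩
  exact (Continuous.homeoOfEquivCompactToT2 (f := Equiv.ofBijective f hb) hc)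

theorem lEquivalent_trans {X Y Z : Type} [TopologicalSpace X] [TopologicalSpace Y]
    [TopologicalSpace Z] (h : LEquivalent X Y) (h' : LEquivalent Y Z) : LEquivalent X Z := by
  obtain ⟨L⟩ := h
  obtain ⟨L'⟩ := h'
  exact ⟨L.trans L'⟩

theorem isLEmbedded_of_ext {X : Type} [TopologicalSpace X] (A : Set X)
    (φ : C(A, ℝ) →ₗ[ℝ] C(X, ℝ)) (h1 : @Continuous _ _ (ptTop A) (ptTop X) (⇑φ))
    (h2 : ∀ f : C(A, ℝ), ∀ a : A, φ f a = f a) : IsLEmbedded A := by
  let _ := ptTop A
  let _ := ptTop X
  refine ⟨⟨(toCp X).toLinearMap.comp (φ.comp (toCp A).symm.toLinearMap), ?_⟩, ?_⟩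
  · exact (continuous_toCp X).comp (h1.comp (continuous_toCp_symm A))
  · intro f a
    exact h2 ((toCp A).symm f) a

/-- The negation of the preceding statement: For every infinite Tychonoff space X: if C_p(X) is linearly homeomorphic to C_p(X ⊕ A) for each subspace A with a continuous linear extender, then C_p(X × convergent sequence) is linearly homeomorphic to C_p(X). -/
theorem result :
    ¬ (∀ (X : Type) [TopologicalSpace X] [T35Space X] [Infinite X],
      (∀ A : Set X,
        (∃ φ : C(A, ℝ) →ₗ[ℝ] C(X, ℝ),
          @Continuous _ _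
            (TopologicalSpace.induced (fun f : C(A, ℝ) => (f : A → ℝ)) inferInstance)
            (TopologicalSpace.induced (fun f : C(X, ℝ) => (f : X → ℝ)) inferInstance)
            (⇑φ) ∧
          ∀ f : C(A, ℝ), ∀ a : A, φ f a = f a) →
        ∃ e : C(X, ℝ) ≃ₗ[ℝ] C(X ⊕ A, ℝ),
          @Continuous _ _
            (TopologicalSpace.induced (fun f : C(X, ℝ) => (f : X → ℝ)) inferInstance)
            (TopologicalSpace.induced (fun f : C(X ⊕ A, ℝ) => (f : X ⊕ A → ℝ)) inferInstance)
            (⇑e) ∧
          @Continuous _ _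
            (TopologicalSpace.induced (fun f : C(X ⊕ A, ℝ) => (f : X ⊕ A → ℝ)) inferInstance)
            (TopologicalSpace.induced (fun f : C(X, ℝ) => (f : X → ℝ)) inferInstance)
            (⇑e.symm)) →
      ∃ e : C(X × OnePoint ℕ, ℝ) ≃ₗ[ℝ] C(X, ℝ),
        @Continuous _ _
          (TopologicalSpace.induced (fun f : C(X × OnePoint ℕ, ℝ) => (f : X × OnePoint ℕ → ℝ)) inferInstance)
          (TopologicalSpace.induced (fun f : C(X, ℝ) => (f : X → ℝ)) inferInstance)
          (⇑e) ∧
        @Continuous _ _
          (TopologicalSpace.induced (fun f : C(X, ℝ) => (f : X → ℝ)) inferInstance)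
          (TopologicalSpace.induced (fun f : C(X × OnePoint ℕ, ℝ) => (f : X × OnePoint ℕ → ℝ)) inferInstance)
          (⇑e.symm)) := by
  intro H
  have hinf : Infinite (Ultrafilter ℕ) :=
    Infinite.of_injective (pure : ℕ → Ultrafilter ℕ) (fun a b h => by
      have h1 : ({a} : Set ℕ) ∈ (pure b : Ultrafilter ℕ) := by
        rw [← h]
        exact Ultrafilter.mem_pure.2 rfl
      exact (Ultrafilter.mem_pure.1 h1).symm)
  obtain ⟨e, he1, he2⟩ := H (Ultrafilter ℕ) (fun A hA => by
    obtain ⟨φ, h1, h2⟩ := hA
    exact equiv_of_lEquivalent (lstable A (isLEmbedded_of_ext A φ h1 h2)))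
  apply not_sstable
  refine lEquivalent_trans (lEquivalent_of_homeo ?_) (lEquivalent_of_equiv e he1 he2)
  exact (Homeomorph.refl _).prodCongr seqHomeo.symm

end Pool.Agent.S13574
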