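import Pool.Statements.S13885

set_option autoImplicit false
open Pool Pool.MP_c36963_gt

namespace Pool.Agent.S13885

open Filter Topology

/-- The retraction: the open disk of radius `1/2` about `1/2`, together with the point `1`, is sent
to `1`; every other point `z` of the closed unit disk is sent to the second intersection point of
the line through `1` and `z` with the unit circle. -/
noncomputable def ret (z : ℂ) : ℂ :=
  open Classical in
  if z = 1 ∨ dist z (1/2) < 1/2 then 1 else -(1 - z) / (starRingEnd ℂ) (1 - z)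

lemma conj_ne {z : ℂ} (h : z ≠ 1) : (starRingEnd ℂ) (1 - z) ≠ 0 := by
  intro h0
  rw [map_eq_zero, sub_eq_zero] at h0
  exact h h0.symm

lemma ret_of {z : ℂ} (h1 : z ≠ 1) (h2 : ¬ dist z (1/2) < 1/2) :
    ret z = -(1 - z) / (starRingEnd ℂ) (1 - z) := by
  unfold ret
  rw [if_neg]
  rintro (h | h)
  · exact h1 h
  · exact h2 h

lemma ret_one {z : ℂ} (h : z = 1 ∨ dist z (1/2) < 1/2) : ret z = 1 := by
  unfold ret
  rw [if_pos h]

lemma norm_ret (z : ℂ) : ‖ret z‖ = 1 := by
  by_cases h : z = 1 ∨ dist z (1/2) < 1/2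
  · rw [ret_one h]; simp
  · push Not at h
    rw [ret_of h.1 (not_lt.2 h.2), norm_div, norm_neg, RCLike.norm_conj]
    apply div_self
    rw [norm_ne_zero_iff, sub_ne_zero]
    exact h.1.symm

lemma sq_circle {y : ℂ} (hy : ‖y‖ = 1) : y.re ^ 2 + y.im ^ 2 = 1 := by
  have h := Complex.normSq_apply y
  rw [Complex.normSq_eq_norm_sq, hy] at h
  linarith

lemma sq_disk {y : ℂ} (hy : ‖y‖ ≤ 1) : y.re ^ 2 + y.im ^ 2 ≤ 1 := by
  have h := Complex.normSq_apply y
  rw [Complex.normSq_eq_norm_sq] at h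
  have : ‖y‖ ^ 2 ≤ 1 := by
    have := norm_nonneg y
    nlinarith
  linarith

lemma disk_of_sq {y : ℂ} (hy : y.re ^ 2 + y.im ^ 2 ≤ 1) : ‖y‖ ≤ 1 := by
  have h := Complex.normSq_apply y
  rw [Complex.normSq_eq_norm_sq] at h
  have h0 := norm_nonneg y
  nlinarith

lemma dist_half_sq (z : ℂ) : dist z (1/2) ^ 2 = (z.re - 1/2) ^ 2 + z.im ^ 2 := by
  rw [dist_eq_norm, ← Complex.normSq_eq_norm_sq, Complex.normSq_apply]
  have h1 : (z - 1/2).re = z.re - 1/2 := by
    simp
  have h2 : (z - 1/2).im = z.im := by simp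
  rw [h1, h2]
  ring

lemma not_dist_iff (z : ℂ) : ¬ dist z (1/2) < 1/2 ↔ 1/4 ≤ (z.re - 1/2) ^ 2 + z.im ^ 2 := by
  rw [← dist_half_sq, not_lt]
  have h0 : 0 ≤ dist z (1/2) := dist_nonneg
  constructor
  · intro h; nlinarith
  · intro h; nlinarith

lemma re_lt_one {y : ℂ} (hy : ‖y‖ = 1) (h1 : y ≠ 1) : y.re < 1 := by
  have h := sq_circle hy
  rcases lt_or_ge y.re 1 with h2 | h2
  · exact h2
  · exfalso
    apply h1
    have h3 : y.re = 1 := by nlinarith [sq_nonneg y.im]
    have h4 : y.im = 0 := by nlinarith [sq_nonneg y.im]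
    exact Complex.ext h3 h4

/-- The equation of the line through `1` and `y`. -/
lemma eq_line {z y : ℂ} (hz : z ≠ 1) (h : -(1 - z) / (starRingEnd ℂ) (1 - z) = y) :
    (1 - z.re) * (1 + y.re) = y.im * z.im ∧ z.im * (1 - y.re) = y.im * (1 - z.re) := by
  rw [div_eq_iff (conj_ne hz)] at h
  have h1 := congrArg Complex.re h
  have h2 := congrArg Complex.im h
  simp at h1 h2
  constructor
  · linarith
  · linarith

lemma eq_of_line {z y : ℂ} (hz : z ≠ 1) (h1 : (1 - z.re) * (1 + y.re) = y.im * z.im)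
    (h2 : z.im * (1 - y.re) = y.im * (1 - z.re)) :
    -(1 - z) / (starRingEnd ℂ) (1 - z) = y := by
  rw [div_eq_iff (conj_ne hz)]
  apply Complex.ext
  · simp
    linarith
  · simp
    linarith

/-- The fibre over a point `y ≠ 1` of the circle is the segment between `(1 + y) / 2` and `y`. -/
lemma fibre_iff {y : ℂ} (hy : ‖y‖ = 1) (h1 : y ≠ 1) (z : ℂ) :
    (‖z‖ ≤ 1 ∧ ret z = y) ↔ ∃ s ∈ Set.Icc (1/2 : ℝ) 1, 1 - (s : ℂ) * (1 - y) = z := by
  have ha := re_lt_one hy h1
  have hy2 := sq_circle hy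
  have ha' : (1 - y.re) ≠ 0 := by linarith
  constructor
  · rintro ⟨hz, hr⟩
    have hz1 : z ≠ 1 := by
      intro h
      rw [ret_one (Or.inl h)] at hr
      exact h1 hr.symm
    have hz2 : ¬ dist z (1/2) < 1/2 := by
      intro h
      rw [ret_one (Or.inr h)] at hr
      exact h1 hr.symm
    rw [ret_of hz1 hz2] at hr
    obtain ⟨e1, e2⟩ := eq_line hz1 hr
    set s : ℝ := (1 - z.re) / (1 - y.re) with hs
    have hp : z.re = 1 - s * (1 - y.re) := by
      rw [hs]; field_simp; ring
    have hq : z.im = s * y.im := by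
      rw [hs]; field_simp; linarith
    have hd := sq_disk hz
    rw [not_dist_iff] at hz2
    rw [hp, hq] at hd hz2
    have hss : (1 - y.re) * (s ^ 2 - s) ≤ 0 := by nlinarith
    have hss2 : s ^ 2 - s ≤ 0 := by
      by_contra hc
      push Not at hc
      have : 0 < (1 - y.re) * (s ^ 2 - s) := mul_pos (by linarith) hc
      linarith
    have hs0 : 0 ≤ s := by nlinarith
    have hs1 : s ≤ 1 := by nlinarith
    have hs3 : s ≠ 0 := by
      intro h0
      apply hz1
      apply Complex.ext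
      · rw [hp, h0]; simp
      · rw [hq, h0]; simp
    have hspos : 0 < s := lt_of_le_of_ne hs0 (Ne.symm hs3)
    have hss3 : 0 ≤ (1 - y.re) * (s * (2 * s - 1)) := by nlinarith
    have hs2 : 1/2 ≤ s := by
      by_contra hc
      push Not at hc
      have : 0 < (1 - y.re) * (s * (1 - 2 * s)) := mul_pos (by linarith) (mul_pos hspos (by linarith))
      nlinarith
    refine ⟨s, ⟨hs2, hs1⟩, ?_⟩
    apply Complex.ext
    · simp [hp]
    · simp [hq]
  · rintro ⟨s, ⟨hs2, hs1⟩, rfl⟩
    have e0 : (1 - y.re) ^ 2 + y.im ^ 2 = 2 * (1 - y.re) := by linarith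
    have hre : (1 - (s : ℂ) * (1 - y)).re = 1 - s * (1 - y.re) := by simp
    have him : (1 - (s : ℂ) * (1 - y)).im = s * y.im := by simp
    have hz1 : (1 - (s : ℂ) * (1 - y)) ≠ 1 := by
      intro h
      have := congrArg Complex.re h
      rw [hre] at this
      simp at this
      rcases this with h3 | h3
      · linarith
      · linarith
    refine ⟨disk_of_sq ?_, ?_⟩
    · rw [hre, him]
      have : 0 ≤ (1 - y.re) * (s * (1 - s)) :=
        mul_nonneg (by linarith) (mul_nonneg (by linarith) (by linarith))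
      have e1 : (1 - s * (1 - y.re)) ^ 2 + (s * y.im) ^ 2 =
        1 - 2 * s * (1 - y.re) + s ^ 2 * ((1 - y.re) ^ 2 + y.im ^ 2) := by ring
      rw [e1, e0]
      linarith
    · rw [ret_of hz1]
      · apply eq_of_line hz1
        · rw [hre, him]
          nlinarith
        · rw [hre, him]
          ring
      · rw [not_dist_iff, hre, him]
        have : 0 ≤ (1 - y.re) * (s * (2 * s - 1)) :=
          mul_nonneg (by linarith) (mul_nonneg (by linarith) (by linarith))
        have e1 : (1 - s * (1 - y.re) - 1 / 2) ^ 2 + (s * y.im) ^ 2 =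
          1 / 4 - s * (1 - y.re) + s ^ 2 * ((1 - y.re) ^ 2 + y.im ^ 2) := by ring
        rw [e1, e0]
        linarith

lemma fibre_one_iff (z : ℂ) :
    (‖z‖ ≤ 1 ∧ ret z = 1) ↔ z = 1 ∨ dist z (1/2) < 1/2 := by
  constructor
  · rintro ⟨hz, hr⟩
    by_contra hc
    have hc' := hc
    push Not at hc
    rw [ret_of hc.1 (not_lt.2 hc.2)] at hr
    obtain ⟨e1, e2⟩ := eq_line hc.1 hr
    simp at e1
    have hp : z.re = 1 := by linarith
    have hd := sq_disk hz
    rw [hp] at hd
    have hq : z.im = 0 := by nlinarith [sq_nonneg z.im]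
    exact hc.1 (Complex.ext hp hq)
  · intro h
    refine ⟨?_, ret_one h⟩
    rcases h with h | h
    · rw [h]; simp
    · have h1 : dist z 0 ≤ dist z (1/2) + dist (1/2 : ℂ) 0 := dist_triangle _ _ _
      have h2 : dist (1/2 : ℂ) 0 = 1/2 := by
        rw [dist_zero_right]; simp
      rw [dist_zero_right] at h1
      linarith

/-- There exists r : ℂ → ℂ mapping the closed unit disk into the unit circle, fixing the circle, with connected fibers in the disk, such that only finitely many circle points y fail: for all circle sequences s_n → y, every point of the Kuratowski lim sup of the fibers r⁻¹(s_n) lies in r⁻¹(y). -/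
theorem result :
    ∃ r : ℂ → ℂ,
      (∀ z ∈ Metric.closedBall (0:ℂ) 1, r z ∈ Metric.sphere (0:ℂ) 1) ∧
      (∀ y ∈ Metric.sphere (0:ℂ) 1, r y = y) ∧
      (∀ y ∈ Metric.sphere (0:ℂ) 1,
        IsConnected {z : ℂ | z ∈ Metric.closedBall (0:ℂ) 1 ∧ r z = y}) ∧
      Set.Finite {y : ℂ | y ∈ Metric.sphere (0:ℂ) 1 ∧
        ¬ (∀ s : ℕ → ℂ, (∀ n, s n ∈ Metric.sphere (0:ℂ) 1) →
            Filter.Tendsto s Filter.atTop (nhds y) →
            ∀ x : ℂ, (∀ ε : ℝ, ε > 0 → ∀ N : ℕ, ∃ n : ℕ, n ≥ N ∧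
                ∃ z : ℂ, z ∈ Metric.closedBall (0:ℂ) 1 ∧ r z = s n ∧ dist z x < ε) →
              r x = y)} := by
  refine ⟨ret, ?_, ?_, ?_, ?_⟩
  · intro z _
    rw [mem_sphere_zero_iff_norm]
    exact norm_ret z
  · intro y hy
    rw [mem_sphere_zero_iff_norm] at hy
    by_cases h1 : y = 1
    · rw [h1]; exact ret_one (Or.inl rfl)
    · have := (fibre_iff hy h1 y).2 ⟨1, ⟨by norm_num, le_rfl⟩, by simp⟩
      exact this.2
  · intro y hy
    rw [mem_sphere_zero_iff_norm] at hy
    by_cases h1 : y = 1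
    · subst h1
      have hset : {z : ℂ | z ∈ Metric.closedBall (0:ℂ) 1 ∧ ret z = 1} =
          insert 1 (Metric.ball (1/2 : ℂ) (1/2)) := by
        ext z
        simp only [Set.mem_ofPred_eq, mem_closedBall_zero_iff, Set.mem_insert_iff, Metric.mem_ball]
        exact fibre_one_iff z
      rw [hset]
      have hball : IsConnected (Metric.ball (1/2 : ℂ) (1/2)) := by
        refine ⟨⟨1/2, by simp⟩, ?_⟩
        exact (convex_ball _ _).isPreconnected
      refine hball.subset_closure (Set.subset_insert _ _) ?_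
      rw [closure_ball _ (by norm_num)]
      intro z hz
      rcases hz with hz | hz
      · rw [hz, Metric.mem_closedBall, dist_eq_norm]
        norm_num
      · exact Metric.ball_subset_closedBall hz
    · have hset : {z : ℂ | z ∈ Metric.closedBall (0:ℂ) 1 ∧ ret z = y} =
          (fun s : ℝ => 1 - (s : ℂ) * (1 - y)) '' Set.Icc (1/2 : ℝ) 1 := by
        ext z
        simp only [Set.mem_ofPred_eq, mem_closedBall_zero_iff, Set.mem_image]
        rw [fibre_iff hy h1 z]
      rw [hset]
      refine (isConnected_Icc (by norm_num)).image _ ?_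
      fun_prop
  · refine Set.Finite.subset (Set.finite_singleton 1) ?_
    rintro y ⟨hy, hbad⟩
    rw [Set.mem_singleton_iff]
    by_contra h1
    apply hbad
    rw [mem_sphere_zero_iff_norm] at hy
    intro s hs hlim x hx
    -- a sequence of indices with points of the fibres converging to `x`
    have hev : ∀ᶠ n in atTop, s n ≠ 1 := hlim.eventually_ne h1
    obtain ⟨N0, hN0⟩ := eventually_atTop.1 hev
    have hch : ∀ k : ℕ, ∃ n : ℕ, k ≤ n ∧ N0 ≤ n ∧ ∃ z : ℂ, ‖z‖ ≤ 1 ∧ ret z = s n ∧
        dist z x < 1 / ((k : ℝ) + 1) := by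
      intro k
      obtain ⟨n, hn, z, hz, hr, hd⟩ := hx (1 / ((k : ℝ) + 1)) (by positivity) (max k N0)
      exact ⟨n, le_trans (le_max_left _ _) hn, le_trans (le_max_right _ _) hn, z,
        by simpa using hz, hr, hd⟩
    choose n hn hnN z hz hr hd using hch
    have hzlim : Tendsto z atTop (𝓝 x) := by
      rw [tendsto_iff_dist_tendsto_zero]
      exact squeeze_zero (fun k => dist_nonneg) (fun k => (hd k).le)
        tendsto_one_div_add_atTop_nhds_zero_nat
    have hnlim : Tendsto n atTop atTop := tendsto_atTop_mono hn tendsto_id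
    have hslim : Tendsto (fun k => s (n k)) atTop (𝓝 y) := hlim.comp hnlim
    have hpar : ∀ k, ∃ t ∈ Set.Icc (1/2 : ℝ) 1, 1 - (t : ℂ) * (1 - s (n k)) = z k := by
      intro k
      have hsk : ‖s (n k)‖ = 1 := by
        have := hs (n k)
        rwa [mem_sphere_zero_iff_norm] at this
      exact (fibre_iff hsk (hN0 _ (hnN k)) (z k)).1 ⟨hz k, hr k⟩
    choose t ht hzt using hpar
    obtain ⟨τ, hτ, φ, hφ, hτlim⟩ := isCompact_Icc.tendsto_subseq ht
    have hfin : 1 - (τ : ℂ) * (1 - y) = x := by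
      have l1 : Tendsto (fun k => 1 - ((t (φ k) : ℝ) : ℂ) * (1 - s (n (φ k)))) atTop
          (𝓝 (1 - (τ : ℂ) * (1 - y))) := by
        apply Tendsto.sub tendsto_const_nhds
        apply Tendsto.mul
        · exact (Complex.continuous_ofReal.tendsto τ).comp hτlim
        · exact Tendsto.sub tendsto_const_nhds (hslim.comp hφ.tendsto_atTop)
      have l2 : Tendsto (fun k => 1 - ((t (φ k) : ℝ) : ℂ) * (1 - s (n (φ k)))) atTop (𝓝 x) := by
        have := hzlim.comp hφ.tendsto_atTop
        refine this.congr (fun k => ?_)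
        exact (hzt (φ k)).symm
      exact tendsto_nhds_unique l1 l2
    exact ((fibre_iff hy h1 x).2 ⟨τ, hτ, hfin⟩).2

end Pool.Agent.S13885
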