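import Pool.Statements.S14767
import Pool.Agent.Results.MP_5f3cbe_lc.AdmissibleDefinable

set_option autoImplicit false
open Pool Pool.MP_5f3cbe_lc

namespace Pool.Agent.S14767

/-- the functions of the frozen statement, as a subring -/
def SR : Subring (ℂ → ℂ) where
  carrier := {g : ℂ → ℂ | DifferentiableOn ℂ g (Metric.ball (0:ℂ) 1) ∧
                ∀ z ∉ Metric.ball (0:ℂ) 1, g z = g 0}
  mul_mem' := by
    rintro a b ⟨ha, ha'⟩ ⟨hb, hb'⟩
    exact ⟨ha.mul hb, fun z hz => by rw [Pi.mul_apply, Pi.mul_apply, ha' z hz, hb' z hz]⟩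
  one_mem' := ⟨differentiableOn_const _, fun z _ => rfl⟩
  add_mem' := by
    rintro a b ⟨ha, ha'⟩ ⟨hb, hb'⟩
    exact ⟨ha.add hb, fun z hz => by rw [Pi.add_apply, Pi.add_apply, ha' z hz, hb' z hz]⟩
  zero_mem' := ⟨differentiableOn_const _, fun z _ => rfl⟩
  neg_mem' := by
    rintro a ⟨ha, ha'⟩
    exact ⟨ha.neg, fun z hz => by rw [Pi.neg_apply, Pi.neg_apply, ha' z hz]⟩

/-- the ring of the frozen statement -/
abbrev CR : Subring (ℂ → ℂ) :=
  Subring.closure {g : ℂ → ℂ | DifferentiableOn ℂ g (Metric.ball (0:ℂ) 1) ∧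
                ∀ z ∉ Metric.ball (0:ℂ) 1, g z = g 0}

theorem mem_CR (g : ℂ → ℂ) : g ∈ CR ↔ DifferentiableOn ℂ g (Metric.ball (0:ℂ) 1) ∧
    ∀ z ∉ Metric.ball (0:ℂ) 1, g z = g 0 := by
  have h : CR = SR := Subring.closure_eq SR
  rw [h]
  rfl

/-- restriction to the disc -/
def toHD : CR →+* Pool.Agent.V11234.HD.HD where
  toFun g := ⟨fun z => g.1 z, g.1, ((mem_CR g.1).mp g.2).1, fun _ => rfl⟩
  map_one' := rfl
  map_mul' _ _ := rfl
  map_zero' := rfl
  map_add' _ _ := rfl

theorem toHD_bij : Function.Bijective toHD := by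
  constructor
  · intro f g h
    have hz : ∀ z ∈ Metric.ball (0:ℂ) 1, f.1 z = g.1 z := fun z hz =>
      congrFun (congrArg Subtype.val h) ⟨z, hz⟩
    apply Subtype.ext
    funext z
    by_cases h1 : z ∈ Metric.ball (0:ℂ) 1
    · exact hz z h1
    · rw [((mem_CR f.1).mp f.2).2 z h1, ((mem_CR g.1).mp g.2).2 z h1]
      exact hz 0 (Metric.mem_ball_self one_pos)
  · intro f
    obtain ⟨F, hF, rfl⟩ := Pool.Agent.V11234.HD.rep f
    classical
    have heq : Set.EqOn (fun z => if z ∈ Metric.ball (0:ℂ) 1 then F z else F 0) F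
        (Metric.ball (0:ℂ) 1) := fun z hz => if_pos hz
    refine ⟨⟨fun z => if z ∈ Metric.ball (0:ℂ) 1 then F z else F 0, (mem_CR _).mpr
      ⟨hF.congr heq, fun z hz => ?_⟩⟩, ?_⟩
    · rw [if_neg hz]
      exact (if_pos (Metric.mem_ball_self one_pos)).symm
    · apply Pool.Agent.V11234.HD.ext'
      intro z
      exact heq z.2

/-- The two rings are isomorphic. -/
noncomputable def eqv : CR ≃+* Pool.Agent.V11234.HD.HD := RingEquiv.ofBijective toHD toHD_bij

theorem T_toHD (g : CR) {r : ℝ} (hr0 : 0 < r) (hr1 : r < 1) :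
    (2 * Real.pi)⁻¹ * ∫ θ in (0:ℝ)..(2 * Real.pi),
      Real.posLog ‖(g : ℂ → ℂ) ((r : ℂ) * Complex.exp ((θ : ℂ) * Complex.I))‖ =
      Pool.Agent.Results.MP_5f3cbe_lc.AdmissibleDefinable.T r (eqv g) := by
  unfold Pool.Agent.Results.MP_5f3cbe_lc.AdmissibleDefinable.T
  congr 1
  apply intervalIntegral.integral_congr
  intro θ _
  have h2 : (r : ℂ) * Complex.exp (θ * Complex.I) ∈ Metric.ball (0 : ℂ) 1 := by
    rw [mem_ball_zero_iff, norm_mul, Complex.norm_exp_ofReal_mul_I, mul_one, Complex.norm_real,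
      Real.norm_of_nonneg hr0.le]
    exact hr1
  simp only
  rw [Pool.Agent.Results.MP_5f3cbe_lc.AdmissibleDefinable.ext0, dif_pos h2, Real.posLog_apply,
    max_comm]
  rfl

theorem admissible_eqv (g : CR) :
    Pool.Agent.Results.MP_5f3cbe_lc.AdmissibleDefinable.Admissible (eqv g) ↔
      ¬ Asymptotics.IsBigO (nhdsWithin (1:ℝ) (Set.Iio 1))
            (fun r : ℝ => (2 * Real.pi)⁻¹ *
              ∫ θ in (0:ℝ)..(2 * Real.pi),
                Real.posLog ‖(g : ℂ → ℂ) ((r : ℂ) * Complex.exp ((θ : ℂ) * Complex.I))‖)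
            (fun r : ℝ => Real.log (1 - r)⁻¹) := by
  unfold Pool.Agent.Results.MP_5f3cbe_lc.AdmissibleDefinable.Admissible
  rw [not_iff_not]
  refine Asymptotics.isBigO_congr ?_ ?_
  · filter_upwards [Ioo_mem_nhdsLT (by norm_num : (0 : ℝ) < 1)] with r hr
    exact (T_toHD g hr.1 hr.2).symm
  · refine Filter.Eventually.of_forall fun r => ?_
    simp only [one_div]

/-- There is a parameter-free first-order ring formula that, in the ring of holomorphic functions on the unit disc, holds of f exactly when its Nevanlinna characteristic T(r,f) is not O(log 1/(1-r)) as r tends to 1 from below. -/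
theorem result :
    ∃ φ : FirstOrder.Language.ring.Formula (Fin 1),
      ∀ f : ↥(Subring.closure {g : ℂ → ℂ | DifferentiableOn ℂ g (Metric.ball (0:ℂ) 1) ∧
                ∀ z ∉ Metric.ball (0:ℂ) 1, g z = g 0}),
        (@FirstOrder.Language.Formula.Realize FirstOrder.Language.ring
            ↥(Subring.closure {g : ℂ → ℂ | DifferentiableOn ℂ g (Metric.ball (0:ℂ) 1) ∧
                ∀ z ∉ Metric.ball (0:ℂ) 1, g z = g 0})
            (FirstOrder.Ring.compatibleRingOfRing
              ↥(Subring.closure {g : ℂ → ℂ | DifferentiableOn ℂ g (Metric.ball (0:ℂ) 1) ∧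
                ∀ z ∉ Metric.ball (0:ℂ) 1, g z = g 0})).toStructure
            (Fin 1) φ (fun _ => f)) ↔
        ¬ Asymptotics.IsBigO (nhdsWithin (1:ℝ) (Set.Iio 1))
            (fun r : ℝ => (2 * Real.pi)⁻¹ *
              ∫ θ in (0:ℝ)..(2 * Real.pi),
                Real.posLog ‖(f : ℂ → ℂ) ((r : ℂ) * Complex.exp ((θ : ℂ) * Complex.I))‖)
            (fun r : ℝ => Real.log (1 - r)⁻¹) := by
  obtain ⟨φ, hφ⟩ := Pool.Agent.Results.MP_5f3cbe_lc.AdmissibleDefinable.result
  refine ⟨φ, fun f => ?_⟩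
  let _ : FirstOrder.Ring.CompatibleRing CR := FirstOrder.Ring.compatibleRingOfRing CR
  have h1 := FirstOrder.Language.StrongHomClass.realize_formula
    (FirstOrder.Ring.languageEquivEquivRingEquiv.symm eqv) φ (v := fun _ => f)
  refine h1.symm.trans ((hφ (eqv f)).trans (admissible_eqv f))

end Pool.Agent.S14767
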