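import Pool.Statements.S14895
-- import your own Pool.Agent.* helpers here

set_option autoImplicit false
open Pool Pool.MP_735cdd_lc

namespace Pool.Agent.S14895

open FirstOrder

/-- The language of the statement: one function symbol for each arity. -/
abbrev LL : FirstOrder.Language := FirstOrder.Language.mk (fun _ => Unit) (fun _ => Empty)

variable {G : Type} [Group G]

/-- `W k j v y = v j * (v (j+1) * (... * (v (j+k-1) * y ^ 2) ^ 2 ...) ^ 2) ^ 2`. -/
def W : ℕ → ℕ → (ℕ → G) → G → G
  | 0, _, _, y => y
  | k + 1, j, v, y => v j * (W k (j + 1) v y * W k (j + 1) v y)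

theorem W_map (ε : G →* G) (k : ℕ) : ∀ (j : ℕ) (v : ℕ → G) (y : G),
    ε (W k j v y) = W k j (fun i => ε (v i)) (ε y) := by
  induction k with
  | zero => intro j v y; rfl
  | succ k ih => intro j v y; simp only [W, map_mul, ih]

theorem W_eval (x : ℕ → G) (k : ℕ) : ∀ j : ℕ,
    W k j (fun i => x i * (x (i + 1) * x (i + 1))⁻¹) (x (j + k)) = x j := by
  induction k with
  | zero => intro j; rfl
  | succ k ih =>
    intro j
    have h := ih (j + 1)
    have e : j + 1 + k = j + (k + 1) := by ring
    rw [e] at h
    simp only [W, h]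
    group

theorem W_one (k : ℕ) : ∀ (j : ℕ) (v : ℕ → G) (y : G), (∀ i, i < k → v (j + i) = 1) →
    W k j v y = y ^ (2 ^ k) := by
  induction k with
  | zero => intro j v y _; simp [W]
  | succ k ih =>
    intro j v y h
    have h0 : v j = 1 := by simpa using h 0 (by omega)
    have h1 : ∀ i, i < k → v (j + 1 + i) = 1 := by
      intro i hi
      have := h (i + 1) (by omega)
      rwa [show j + (i + 1) = j + 1 + i by ring] at this
    simp only [W, ih (j + 1) v y h1, h0, one_mul]
    rw [← pow_add, ← two_mul, ← pow_succ']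

theorem W_add (k l : ℕ) : ∀ (j : ℕ) (v : ℕ → G) (y : G),
    W (k + l) j v y = W k j v (W l (j + k) v y) := by
  induction k with
  | zero => intro j v y; simp [W]
  | succ k ih =>
    intro j v y
    rw [show k + 1 + l = (k + l) + 1 by ring]
    simp only [W, ih (j + 1) v y]
    rw [show j + 1 + k = j + (k + 1) by ring]

/-- Product of two terms. -/
def mul2 {α : Type} (s t : LL.Term α) : LL.Term α :=
  FirstOrder.Language.Term.func (l := 2) () ![s, t]

/-- The term for `W`. -/
def tW : ℕ → ℕ → LL.Term ((Unit ⊕ ℕ) ⊕ Fin 1)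
  | 0, _ => FirstOrder.Language.Term.var (Sum.inr 0)
  | k + 1, j => mul2 (FirstOrder.Language.Term.var (Sum.inl (Sum.inr j)))
      (mul2 (tW k (j + 1)) (tW k (j + 1)))

/-- `∃ y, c = W k 0 a y`. -/
def psi (k : ℕ) : LL.Formula (Unit ⊕ ℕ) :=
  (FirstOrder.Language.Term.bdEqual
    (FirstOrder.Language.Term.var (Sum.inl (Sum.inl ()))) (tW k 0)).ex

section Str

variable [S : LL.Structure G]
  (hS : ∀ (n : ℕ) (f : LL.Functions n) (xs : Fin n → G),
        FirstOrder.Language.Structure.funMap f xs = (List.ofFn xs).prod)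

include hS

theorem realize_mul2 {α : Type} (s t : LL.Term α) (v : α → G) :
    (mul2 s t).realize v = s.realize v * t.realize v := by
  unfold mul2
  rw [FirstOrder.Language.Term.realize_func, hS]
  simp [List.ofFn_succ]

theorem realize_tW (k : ℕ) : ∀ (j : ℕ) (v : Unit ⊕ ℕ → G) (xs : Fin 1 → G),
    (tW k j).realize (Sum.elim v xs) = W k j (fun i => v (Sum.inr i)) (xs 0) := by
  induction k with
  | zero => intro j v xs; simp [tW, W]
  | succ k ih =>
    intro j v xs
    simp only [tW, W, realize_mul2 hS, ih]
    simp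

theorem realize_psi (k : ℕ) (v : Unit ⊕ ℕ → G) :
    (psi k).Realize v ↔ ∃ y : G, v (Sum.inl ()) = W k 0 (fun i => v (Sum.inr i)) y := by
  unfold psi FirstOrder.Language.Formula.Realize
  rw [FirstOrder.Language.BoundedFormula.realize_ex]
  apply exists_congr
  intro y
  rw [FirstOrder.Language.BoundedFormula.realize_bdEqual, realize_tW hS]
  simp [Fin.snoc]

/-- A group automorphism is an automorphism of the structure. -/
def toLEquiv (α : G ≃* G) : LL.Equiv G G where
  toEquiv := α.toEquiv
  map_fun' := by
    intro n f xs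
    rw [hS, hS]
    change α (List.ofFn xs).prod = _
    rw [map_list_prod, List.map_ofFn]
    rfl
  map_rel' := by
    intro n r
    exact r.elim

theorem realize_aut (α : G ≃* G) (φ : LL.Formula ℕ) (v : ℕ → G) :
    φ.Realize (fun i => α (v i)) ↔ φ.Realize v := by
  have := FirstOrder.Language.StrongHomClass.realize_formula (toLEquiv hS α) φ (v := v)
  exact this

end Str

theorem realize_congr [S : LL.Structure G] (φ : LL.Formula ℕ) (v w : ℕ → G)
    (h : ∀ i ∈ φ.freeVarFinset, v i = w i) : φ.Realize v ↔ φ.Realize w := by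
  unfold FirstOrder.Language.Formula.Realize
  let s : Set ℕ := (φ.freeVarFinset : Set ℕ)
  have hs : (φ.freeVarFinset : Set ℕ) ⊆ s := Set.Subset.refl _
  have e1 := FirstOrder.Language.BoundedFormula.realize_restrictFreeVar' hs (v := v)
    (xs := (default : Fin 0 → G))
  have e2 := FirstOrder.Language.BoundedFormula.realize_restrictFreeVar' hs (v := w)
    (xs := (default : Fin 0 → G))
  rw [← e1, ← e2]
  have : (fun i : s => v i.1) = fun i : s => w i.1 := by
    funext i
    exact h i.1 i.2
  change FirstOrder.Language.BoundedFormula.Realize _ (fun i : s => v i.1) _ ↔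
    FirstOrder.Language.BoundedFormula.Realize _ (fun i : s => w i.1) _
  rw [this]

section Free

variable {X : Set G} (hgen : Subgroup.closure X = ⊤)
  (hext : ∀ f : X → G, ∃ φ : G →* G, ∀ x : X, φ x = f x) (e : ℕ ↪ X)

include hext in
theorem exists_hom (F : ℕ → G) (D : G → G) : ∃ φ : G →* G, (∀ i, φ (e i) = F i) ∧
    ∀ y ∈ X, (∀ i, (e i : G) ≠ y) → φ y = D y := by
  obtain ⟨φ, hφ⟩ := hext (Function.extend e F (fun y => D y))
  refine ⟨φ, fun i => ?_, fun y hy hne => ?_⟩
  · rw [hφ, e.injective.extend_apply]
  · have := hφ ⟨y, hy⟩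
    rw [Function.extend_apply'] at this
    · exact this
    · rintro ⟨i, hi⟩
      exact hne i (by rw [hi])

/-- The recursion for the inverse automorphism. -/
def B (x : ℕ → G) (N : ℕ) (i : ℕ) : G :=
  if h : i < N then x i * (B x N (i + 1) * B x N (i + 1)) else x i
termination_by N - i

include hgen hext in
theorem exists_aut (N : ℕ) : ∃ α : G ≃* G, ∀ i, i < N →
    α (e i) = (e i : G) * ((e (i + 1) : G) * (e (i + 1) : G))⁻¹ := by
  set x : ℕ → G := fun i => (e i : G) with hx
  obtain ⟨α, hα1, hα2⟩ := exists_hom hext e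
    (fun i => if i < N then x i * (x (i + 1) * x (i + 1))⁻¹ else x i) id
  obtain ⟨β, hβ1, hβ2⟩ := exists_hom hext e (B x N) id
  have hαB : ∀ k i, N - i = k → α (B x N i) = x i := by
    intro k
    induction k with
    | zero =>
      intro i hi
      have hn : ¬ i < N := by omega
      rw [B, dif_neg hn]
      have := hα1 i
      rw [if_neg hn] at this
      exact this
    | succ k ih =>
      intro i hi
      have hn : i < N := by omega
      rw [B, dif_pos hn, map_mul, map_mul, ih (i + 1) (by omega)]
      have := hα1 i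
      rw [if_pos hn] at this
      change α (x i) = _ at this
      rw [this]
      group
  have hβα : ∀ i, β (α (x i)) = x i := by
    intro i
    have h := hα1 i
    change α (x i) = _ at h
    rw [h]
    by_cases hn : i < N
    · rw [if_pos hn, map_mul, map_inv, map_mul]
      have h1 : β (x i) = B x N i := hβ1 i
      have h2 : β (x (i + 1)) = B x N (i + 1) := hβ1 (i + 1)
      rw [h1, h2]
      conv_lhs => rw [B, dif_pos hn]
      group
    · rw [if_neg hn]
      have h1 : β (x i) = B x N i := hβ1 i
      rw [h1, B, dif_neg hn]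
  have c1 : α.comp β = MonoidHom.id G := by
    apply MonoidHom.eq_of_eqOn_dense hgen
    intro y hy
    by_cases hy' : ∀ i, (e i : G) ≠ y
    · simp [hβ2 y hy hy', hα2 y hy hy']
    · push Not at hy'
      obtain ⟨i, rfl⟩ := hy'
      change α (β (x i)) = x i
      have h1 : β (x i) = B x N i := hβ1 i
      rw [h1]
      exact hαB _ i rfl
  have c2 : β.comp α = MonoidHom.id G := by
    apply MonoidHom.eq_of_eqOn_dense hgen
    intro y hy
    by_cases hy' : ∀ i, (e i : G) ≠ y
    · simp [hβ2 y hy hy', hα2 y hy hy']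
    · push Not at hy'
      obtain ⟨i, rfl⟩ := hy'
      exact hβα i
  refine ⟨MonoidHom.toMulEquiv α β c2 c1, fun i hi => ?_⟩
  have := hα1 i
  rw [if_pos hi] at this
  exact this

end Free


/-- Every torsion-free group that is free in its own variety on an infinite basis fails ℵ1-homogeneity: some countable tuples a, b share a type, yet some element c has no d making (c,a) and (d,b) share a type. -/
theorem result :
  ∀ (G : Type) [Group G],
    (∀ g : G, ∀ n : ℕ, 0 < n → g ^ n = 1 → g = 1) →
    (∃ X : Set G, X.Infinite ∧ Subgroup.closure X = ⊤ ∧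
      ∀ f : X → G, ∃ φ : G →* G, ∀ x : X, φ x = f x) →
    ∀ [S : (FirstOrder.Language.mk (fun _ => Unit) (fun _ => Empty)).Structure G],
      (∀ (n : ℕ) (f : (FirstOrder.Language.mk (fun _ => Unit) (fun _ => Empty)).Functions n)
          (xs : Fin n → G),
        FirstOrder.Language.Structure.funMap f xs = (List.ofFn xs).prod) →
      ¬ ∀ a b : ℕ → G,
        (∀ φ : (FirstOrder.Language.mk (fun _ => Unit) (fun _ => Empty)).Formula ℕ,
          φ.Realize a ↔ φ.Realize b) →
        ∀ c : G, ∃ d : G,
          ∀ ψ : (FirstOrder.Language.mk (fun _ => Unit) (fun _ => Empty)).Formula (Unit ⊕ ℕ),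
            ψ.Realize (Sum.elim (fun _ => c) a) ↔ ψ.Realize (Sum.elim (fun _ => d) b) := by
  intro G _ htf hX S hS hall
  obtain ⟨X, hXinf, hgen, hext⟩ := hX
  let e : ℕ ↪ X := Set.Infinite.natEmbedding X hXinf
  let x : ℕ → G := fun i => (e i : G)
  have xinj : ∀ i j, x i = x j → i = j := by
    intro i j h
    exact e.injective (Subtype.ext h)
  let a : ℕ → G := fun i => x i * (x (i + 1) * x (i + 1))⁻¹
  -- the two sequences have the same type
  have htp : ∀ φ : LL.Formula ℕ, φ.Realize a ↔ φ.Realize x := by
    intro φ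
    obtain ⟨N, hN⟩ : ∃ N, ∀ i ∈ φ.freeVarFinset, i < N :=
      ⟨φ.freeVarFinset.sup id + 1, fun i hi => Nat.lt_succ_of_le (Finset.le_sup (f := id) hi)⟩
    obtain ⟨α, hα⟩ := exists_aut hgen hext e N
    rw [← realize_aut hS α φ x]
    apply realize_congr
    intro i hi
    exact (hα i (hN i hi)).symm
  obtain ⟨d, hd⟩ := hall a x htp (x 0)
  -- `x 0 ≠ 1`
  have hx0 : x 0 ≠ 1 := by
    intro h0
    obtain ⟨φ, hφ, -⟩ := exists_hom hext e (fun _ => x 1) id
    have h1 : φ (x 0) = x 1 := hφ 0
    rw [h0, map_one] at h1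
    have := xinj 0 1 (h0.trans h1)
    omega
  -- the projections
  have hproj : ∀ n : ℕ, ∃ ε : G →* G, ε (x n) = x 0 ∧ (∀ y ∈ X, y ≠ x n → ε y = 1) := by
    intro n
    obtain ⟨ε, hε1, hε2⟩ := exists_hom hext e (fun i => if i = n then x 0 else 1) (fun _ => 1)
    refine ⟨ε, ?_, ?_⟩
    · have := hε1 n
      simpa using this
    · intro y hy hne
      by_cases hy' : ∀ i, (e i : G) ≠ y
      · exact hε2 y hy hy'
      · push Not at hy'
        obtain ⟨i, rfl⟩ := hy'
        have hin : i ≠ n := by
          rintro rfl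
          exact hne rfl
        have := hε1 i
        simpa [hin] using this
  choose ε hε1 hε2 using hproj
  have hsupp : ∀ g : G, ∃ N, ∀ n, N ≤ n → ε n g = 1 := by
    intro g
    have hg : g ∈ Subgroup.closure X := by rw [hgen]; trivial
    induction hg using Subgroup.closure_induction with
    | mem y hy =>
      by_cases hy' : ∀ i, x i ≠ y
      · exact ⟨0, fun n _ => hε2 n y hy (fun h => hy' n h.symm)⟩
      · push Not at hy'
        obtain ⟨i, rfl⟩ := hy'
        refine ⟨i + 1, fun n hn => hε2 n _ hy (fun h => ?_)⟩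
        have := xinj _ _ h
        omega
    | one => exact ⟨0, fun n _ => map_one _⟩
    | mul g h _ _ ihg ihh =>
      obtain ⟨N, hN⟩ := ihg
      obtain ⟨M, hM⟩ := ihh
      refine ⟨max N M, fun n hn => ?_⟩
      rw [map_mul, hN n (le_trans (le_max_left _ _) hn), hM n (le_trans (le_max_right _ _) hn),
        one_mul]
    | inv g _ ihg =>
      obtain ⟨N, hN⟩ := ihg
      exact ⟨N, fun n hn => by rw [map_inv, hN n hn, inv_one]⟩
  have hrange : ∀ n (g : G), ε n g ∈ Subgroup.zpowers (x 0) := by
    intro n g
    have hg : g ∈ Subgroup.closure X := by rw [hgen]; trivial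
    induction hg using Subgroup.closure_induction with
    | mem y hy =>
      by_cases hy' : y = x n
      · rw [hy', hε1]
        exact Subgroup.mem_zpowers _
      · rw [hε2 n y hy hy']
        exact one_mem _
    | one => rw [map_one]; exact one_mem _
    | mul g h _ _ ihg ihh => rw [map_mul]; exact mul_mem ihg ihh
    | inv g _ ihg => rw [map_inv]; exact inv_mem ihg
  obtain ⟨n, hn⟩ := hsupp d
  have hψ := (hd (psi (n + 1))).1 ((realize_psi hS (n + 1) _).2 ⟨x (n + 1), ?_⟩)
  · rw [realize_psi hS] at hψ
    obtain ⟨y, hy⟩ := hψ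
    simp only [Sum.elim_inl, Sum.elim_inr] at hy
    have h1 := hn n le_rfl
    rw [hy, W_map, W_add n 1, W_one n 0] at h1
    · have h2 := htf _ _ (by positivity) h1
      simp only [W, zero_add] at h2
      rw [hε1] at h2
      obtain ⟨k, hk⟩ := hrange n y
      simp only at hk
      rw [← hk] at h2
      have h3 : (x 0) ^ (1 + 2 * k : ℤ) = 1 := by
        rw [zpow_add, zpow_one, two_mul, zpow_add]
        exact h2
      have h4 : (x 0) ^ (1 + 2 * k : ℤ).natAbs = 1 := by
        rcases Int.natAbs_eq (1 + 2 * k : ℤ) with h | h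
        · rw [h, zpow_natCast] at h3
          exact h3
        · rw [h, zpow_neg, zpow_natCast, inv_eq_one] at h3
          exact h3
      exact hx0 (htf _ _ (by omega) h4)
    · intro i hi
      rw [zero_add]
      apply hε2 n _ (e i).2
      intro h
      have := xinj i n h
      omega
  · simp only [Sum.elim_inl, Sum.elim_inr]
    have := W_eval x (n + 1) 0
    rw [zero_add] at this
    exact this.symm

end Pool.Agent.S14895
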