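import Pool.Statements.S18875
import Pool.Agent.K4H16.Smyth.Perm
import Pool.Agent.K4H16.Smyth.Realise
import Pool.Agent.K4H16.Smyth.Nec

set_option autoImplicit false
open scoped NumberField
open Pool Pool.MP_ed3ef1_nt

namespace Pool.Agent.S18875

/-- For every number field K and tuple a in O_K^n: some nonzero K-conjugates α_i (repeats allowed) satisfy Σ a_i α_i = 0 iff the strong archimedean and nonarchimedean absolute value criteria hold, or Σ a_i ω_i = 0 for some roots of unity ω_i. -/
theorem result :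
  ∀ (K : Type) [Field K] [NumberField K] (n : ℕ) (a : Fin n → 𝓞 K),
    (∃ α : Fin n → AlgebraicClosure K,
        (∀ i, α i ≠ 0) ∧ (∀ i j, minpoly K (α i) = minpoly K (α j)) ∧
        ∑ i, algebraMap K (AlgebraicClosure K) (a i : K) * α i = 0) ↔
    (((∀ v : NumberField.InfinitePlace K, ∀ i : Fin n,
          v (a i : K) < ∑ j ∈ Finset.univ.erase i, v (a j : K)) ∧
      (∀ v : IsDedekindDomain.HeightOneSpectrum (𝓞 K), ∀ i : Fin n,
          ∃ j : Fin n, j ≠ i ∧ v.valuation K (a i : K) ≤ v.valuation K (a j : K))) ∨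
     ∃ ω : Fin n → AlgebraicClosure K,
        (∀ i, ∃ m : ℕ, 0 < m ∧ ω i ^ m = 1) ∧
        ∑ i, algebraMap K (AlgebraicClosure K) (a i : K) * ω i = 0) := by
  classical
  intro K _ _ n a
  constructor
  · rintro ⟨α, hα, hmin, hsum⟩
    by_cases hb : ∃ ω : Fin n → AlgebraicClosure K,
        (∀ i, ∃ m : ℕ, 0 < m ∧ ω i ^ m = 1) ∧
        ∑ i, algebraMap K (AlgebraicClosure K) (a i : K) * ω i = 0
    · exact Or.inr hb
    left
    refine ⟨fun v i => ?_, fun v i => ?_⟩
    · by_contra hv
      push Not at hv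
      exact hb (K4H16.Smyth.arch_necessity (fun i => (a i : K)) α hα hmin hsum v i hv)
    · by_contra hv
      push Not at hv
      by_cases hai : (a i : K) = 0
      · apply hb
        refine ⟨fun _ => 1, fun _ => ⟨1, one_pos, one_pow _⟩, ?_⟩
        have hall : ∀ j : Fin n, j = i := by
          intro j
          by_contra hj
          have h1 := hv j hj
          rw [hai, map_zero] at h1
          exact not_lt_zero h1
        refine Finset.sum_eq_zero fun j _ => ?_
        rw [hall j, hai, map_zero, zero_mul]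
      · exact K4H16.Smyth.nonarch_necessity (fun i => (a i : K)) α hα hmin hsum v i hv hai
  · rintro (⟨harch, hna⟩ | ⟨ω, hω, hsum⟩)
    · rcases Nat.eq_zero_or_pos n with rfl | hn
      · exact ⟨fun i => i.elim0, fun i => i.elim0, fun i => i.elim0, by simp⟩
      let i₀ : Fin n := ⟨0, hn⟩
      have hex := K4H16.Smyth.hex_of_arch a harch
      obtain ⟨x, hx1, hx⟩ := K4H16.Smyth.hsurj_of_valuation (K := K) a hna hex i₀ 1
      let h₀ : K4H16.Smyth.HH a := ⟨x, hx⟩
      obtain ⟨m, hm, hm0, heq⟩ := K4H16.Smyth.nf_measure a harch hna h₀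
      obtain ⟨I, _, s, π, h1, k, hk⟩ := K4H16.Smyth.exists_perms
        (fun i (h : K4H16.Smyth.HH a) => h.1 i) m hm i₀ heq h₀ hm0
      refine K4H16.Smyth.realise K (fun i => (a i : K)) (fun k => (s k : K)) ⟨π i₀ k, ?_⟩ π ?_
      · rw [hk i₀]
        change ((x i₀ : 𝓞 K) : K) ≠ 0
        rw [hx1]
        simp
      · intro k
        obtain ⟨h, hh⟩ := h1 k
        have h2 : ∑ j, a j * h.1 j = 0 := h.2
        have h3 := congrArg (algebraMap (𝓞 K) K) h2
        rw [map_sum, map_zero] at h3
        rw [← h3]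
        refine Finset.sum_congr rfl fun i _ => ?_
        rw [map_mul, hh i]
    · obtain ⟨I, _, s, π, hs, h⟩ := K4H16.Smyth.roots_perms (fun i => (a i : K)) ω hω hsum
      exact K4H16.Smyth.realise K (fun i => (a i : K)) s hs π h

end Pool.Agent.S18875
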